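import Pool.Agent.H14.PP.Defs
import Pool.Agent.H36.BP.WdA

/-!
# BPm CurveBasic: rules for `rho`, `fs`, `CurveAt`

* `rho_smul`: `‖Q (c x)‖ = ‖c‖^D ‖Q x‖`, `‖c x‖^D = ‖c‖^D ‖x‖^D`.
* `continuousAt_rho`: quotient of continuous functions, `x ≠ 0`.
* `continuousAt_fs`: `fs = wd / ‖x‖^2`, `wd_cont`.
* `fs_eq`: `wd x v = ‖x‖ ‖v - (⟪x,v⟫/‖x‖^2) x‖` for `x ≠ 0`, since
  `‖v - a x‖^2 = ‖v‖^2 - ‖⟪x,v⟫‖^2/‖x‖^2`, `a = ⟪x,v⟫/‖x‖^2` (`wd_sq`).
* `fs_le`: `fs x v ≤ ‖v‖/‖x‖` (`wd_le`).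
* `exists_rho_bound`: `rho` is invariant under scaling and continuous on the compact set
  `{x ∈ X | ‖x‖ = 1}` (`insert 0 X` is closed).
* `IsEq.curve_discrete`: `Q ∘ F` is analytic at `z₀`
  (`AnalyticAt.eventually_eq_zero_or_eventually_ne_zero`).
-/

open Topology Filter Metric

namespace Pool.Agent.H14.PP

open Pool.Agent.H36.BP

variable {N : ℕ} {W : Type*} [NormedAddCommGroup W] [InnerProductSpace ℂ W]
  {X K T : Set (EN N)} {Q : EN N → W} {D : ℕ}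

theorem IsCone.ne_zero (hX : IsCone X) {x : EN N} (hx : x ∈ X) : x ≠ 0 := by
  rintro rfl
  exact hX.zero_notMem hx

theorem CurveAt.mem {F : ℂ → EN N} {z₀ : ℂ} (hF : CurveAt X F z₀) : F z₀ ∈ X :=
  hF.2.self_of_nhds

theorem CurveAt.mono {F : ℂ → EN N} {z₀ : ℂ} (hF : CurveAt K F z₀) (h : K ⊆ X) :
    CurveAt X F z₀ := ⟨hF.1, hF.2.mono fun _ hz => h hz⟩

theorem rho_nonneg (Q : EN N → W) (D : ℕ) (x : EN N) : 0 ≤ rho Q D x := by
  unfold rho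
  positivity

theorem rho_smul (hQ : ∀ (c : ℂ) (x : EN N), Q (c • x) = c ^ D • Q x) {x : EN N} {c : ℂ}
    (hc : c ≠ 0) : rho Q D (c • x) = rho Q D x := by
  unfold rho
  rw [hQ, norm_smul, norm_smul, norm_pow, mul_pow,
    mul_div_mul_left _ _ (pow_ne_zero _ (norm_ne_zero_iff.2 hc))]

theorem rho_eq_zero_iff {x : EN N} (hx : x ≠ 0) : rho Q D x = 0 ↔ Q x = 0 := by
  unfold rho
  rw [div_eq_zero_iff, norm_eq_zero]
  refine ⟨fun h => ?_, Or.inl⟩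
  rcases h with h | h
  · exact h
  · exact absurd h (pow_ne_zero _ (norm_ne_zero_iff.2 hx))

theorem continuousAt_rho (hQ : ∀ x, AnalyticAt ℂ Q x) {x : EN N} (hx : x ≠ 0) :
    ContinuousAt (rho Q D) x := by
  have h : ContinuousAt (fun y : EN N => ‖Q y‖ / ‖y‖ ^ D) x :=
    ContinuousAt.div (hQ x).continuousAt.norm (continuous_norm.pow D).continuousAt
      (pow_ne_zero _ (norm_ne_zero_iff.2 hx))
  exact h

theorem continuousAt_fs {x : EN N} (hx : x ≠ 0) (v : EN N) :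
    ContinuousAt (fun p : EN N × EN N => fs p.1 p.2) (x, v) := by
  have h : ContinuousAt (fun p : EN N × EN N => wd p.1 p.2 / ‖p.1‖ ^ 2) (x, v) :=
    ContinuousAt.div wd_cont.continuousAt (continuous_fst.norm.pow 2).continuousAt
      (pow_ne_zero _ (norm_ne_zero_iff.2 hx))
  exact h

private theorem CurveBasic_wd {x : EN N} (hx : x ≠ 0) (v : EN N) :
    wd x v = ‖x‖ * ‖v - (inner ℂ x v / (‖x‖ : ℂ) ^ 2) • x‖ := by
  have hn : ‖x‖ ≠ 0 := norm_ne_zero_iff.2 hx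
  have hnc : (‖x‖ : ℂ) ≠ 0 := by exact_mod_cast hn
  set a : ℂ := inner ℂ x v / (‖x‖ : ℂ) ^ 2 with ha
  have horth : inner ℂ (v - a • x) (a • x) = (0 : ℂ) := by
    rw [inner_smul_right, ← inner_conj_symm, inner_sub_right, inner_smul_right,
      inner_self_eq_norm_sq_to_K]
    have e1 : inner ℂ x v - a * ((‖x‖ : ℂ)) ^ 2 = 0 := by
      rw [ha, div_mul_cancel₀ _ (pow_ne_zero 2 hnc), sub_self]
    have e2 : (inner ℂ x v - a * ((RCLike.ofReal ‖x‖ : ℂ)) ^ 2) = 0 := e1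
    rw [e2, map_zero, mul_zero]
  have hpyth := norm_add_sq_eq_norm_sq_add_norm_sq_of_inner_eq_zero (v - a • x) (a • x) horth
  rw [sub_add_cancel] at hpyth
  have hax : ‖a • x‖ * ‖x‖ = ‖inner ℂ x v‖ := by
    rw [norm_smul, ha, norm_div, norm_pow, Complex.norm_real, norm_norm]
    field_simp
  have hsq : wd x v ^ 2 = (‖x‖ * ‖v - a • x‖) ^ 2 := by
    rw [wd_sq, ← hax]
    have e3 : ‖v‖ ^ 2 = ‖v - a • x‖ ^ 2 + ‖a • x‖ ^ 2 := by
      rw [pow_two, pow_two, pow_two]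
      exact hpyth
    rw [e3]
    ring
  exact (pow_left_inj₀ (wd_nonneg x v) (by positivity) two_ne_zero).1 hsq

theorem fs_eq {x : EN N} (hx : x ≠ 0) (v : EN N) :
    fs x v = ‖v - (inner ℂ x v / (‖x‖ : ℂ) ^ 2) • x‖ / ‖x‖ := by
  have hn : ‖x‖ ≠ 0 := norm_ne_zero_iff.2 hx
  unfold fs
  rw [CurveBasic_wd hx v, pow_two ‖x‖, mul_div_mul_left _ _ hn]

theorem fs_le {x : EN N} (hx : x ≠ 0) (v : EN N) : fs x v ≤ ‖v‖ / ‖x‖ := by
  have hn : ‖x‖ ≠ 0 := norm_ne_zero_iff.2 hx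
  have h1 : ‖v‖ / ‖x‖ = ‖x‖ * ‖v‖ / ‖x‖ ^ 2 := by
    rw [pow_two, mul_div_mul_left _ _ hn]
  rw [h1]
  unfold fs
  exact div_le_div_of_nonneg_right (wd_le x v) (sq_nonneg _)

theorem exists_rho_bound (hX : IsCone X) (hQ : IsEq X T Q D) :
    ∃ C : ℝ, 0 < C ∧ ∀ x ∈ X, rho Q D x ≤ C := by
  have hcomp : IsCompact (sphere (0 : EN N) 1 ∩ insert 0 X) :=
    (isCompact_sphere _ _).inter_right hX.closed
  obtain ⟨C, hC⟩ := hcomp.exists_bound_of_continuousOn (f := rho Q D) (by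
    intro x hx
    have hx0 : x ≠ 0 := by
      rintro rfl
      have := hx.1
      rw [mem_sphere_iff_norm, sub_zero, norm_zero] at this
      exact zero_ne_one this
    exact (continuousAt_rho hQ.analytic hx0).continuousWithinAt)
  refine ⟨max C 1, lt_of_lt_of_le one_pos (le_max_right _ _), fun x hx => ?_⟩
  have hx0 := hX.ne_zero hx
  have hn : ‖x‖ ≠ 0 := norm_ne_zero_iff.2 hx0
  have hc : ((‖x‖ : ℂ))⁻¹ ≠ 0 := inv_ne_zero (by exact_mod_cast hn)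
  have hy : ((‖x‖ : ℂ))⁻¹ • x ∈ X := hX.smul_mem x hx _ hc
  have hyn : ‖((‖x‖ : ℂ))⁻¹ • x‖ = 1 := by
    rw [norm_smul, norm_inv, Complex.norm_real, norm_norm, inv_mul_cancel₀ hn]
  have h1 := hC (((‖x‖ : ℂ))⁻¹ • x) ⟨by rw [mem_sphere_iff_norm, sub_zero, hyn],
    Set.mem_insert_of_mem _ hy⟩
  rw [rho_smul hQ.smul hc] at h1
  exact ((le_abs_self _).trans h1).trans (le_max_left _ _)

/-- a curve which is not contained in `T` meets `T` in a discrete set -/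
theorem IsEq.curve_discrete (hQ : IsEq X T Q D) {F : ℂ → EN N} {z₀ : ℂ} (hF : CurveAt X F z₀) :
    (∀ᶠ z in 𝓝 z₀, F z ∈ T) ∨ (∀ᶠ z in 𝓝[≠] z₀, F z ∉ T) := by
  have hQF : AnalyticAt ℂ (fun z => Q (F z)) z₀ := (hQ.analytic (F z₀)).fun_comp hF.1
  rcases hQF.eventually_eq_zero_or_eventually_ne_zero with h | h
  · left
    filter_upwards [h, hF.2] with z hz hzX
    exact (hQ.mem_iff (F z)).2 ⟨hzX, hz⟩
  · right
    filter_upwards [h] with z hz hzT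
    exact hz ((hQ.mem_iff (F z)).1 hzT).2

/-- `T` is a cone -/
theorem IsEq.smul_mem (hX : IsCone X) (hQ : IsEq X T Q D) {x : EN N} (hx : x ∈ T) {c : ℂ}
    (hc : c ≠ 0) : c • x ∈ T := by
  obtain ⟨h1, h2⟩ := (hQ.mem_iff x).1 hx
  exact (hQ.mem_iff _).2 ⟨hX.smul_mem x h1 c hc, by rw [hQ.smul, h2, smul_zero]⟩

end Pool.Agent.H14.PP
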