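import Pool.Agent.H14.PP.ChartBasic

/-!
# BPm NodeGerm: a node is not a smooth point; the Jacobian of a change of charts

* `jac_ne_zero`: `τ = χ'.q ∘ χ.σ` near `p`, `η = χ.q ∘ χ'.σ` near `τ p`. For `y` near `p`:
  `χ.σ y = c • χ'.σ (τ y)` with `c ≠ 0`, so `η (τ y) = χ.q (χ'.σ (τ y)) = χ.q (χ.σ y) = y`. By the
  chain rule `Dη(τ p) ∘ Dτ(p) = id`, so `Dτ(p)` is injective and its determinant is not zero.
* `not_node`: let `p₀ = (0, t₀)`, `τ = χ'.q ∘ χ.σ`, and suppose `τ p₀ = 0`, `χ'` of type `true`. For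
  `t` near `t₀` the point `χ.σ (0,t) ∈ T` so with `τ (0,t) = (u t, w t)` we have `u t * w t = 0`
  (`T` is a cone); `u`, `w` are analytic near `t₀`, so one of them vanishes identically near `t₀`
  (`AnalyticAt.eventually_eq_zero_or_eventually_ne_zero`), say `u` (the other case is symmetric). Let
  `η = χ.q ∘ χ'.σ`, `η 0 = p₀` (as above). For small `x ≠ 0` the point `χ'.σ (x, 0)` is in `T`, it is
  a multiple of `χ.σ (η (x,0))`, so `χ.σ (η (x,0)) ∈ T`; `η (x,0)` is close to `p₀` and if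
  `nd = true` its second coordinate is not `0` (as `t₀ ≠ 0`), so its first coordinate is `0`:
  `η (x,0) = (0,t)`, `t` close to `t₀`, and `(x,0) = τ (0,t)` has first coordinate `u t = 0`:
  contradiction to `x ≠ 0`.
-/

open Topology Filter Metric

namespace Pool.Agent.H14.PP

open Pool.Agent.H36.BP

variable {N : ℕ} {X K T : Set (EN N)}

/-- the change of charts and its inverse, pointwise -/
private theorem NodeGerm_pt (χ χ' : Chart X) {y : ℂ × ℂ} (hy : y ∈ ball (0 : ℂ × ℂ) 2)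
    (hU : χ.σ y ∈ χ'.U) :
    χ'.q (χ.σ y) ∈ ball (0 : ℂ × ℂ) 2 ∧ χ'.σ (χ'.q (χ.σ y)) ∈ χ.U ∧
      χ.q (χ'.σ (χ'.q (χ.σ y))) = y ∧ ∃ c : ℂ, c ≠ 0 ∧ χ'.σ (χ'.q (χ.σ y)) = c • χ.σ y := by
  obtain ⟨h1, h2, h3⟩ := χ.σ_mem y hy
  obtain ⟨h4, c, hc, h5⟩ := χ'.surj _ h1 hU
  have h6 : χ'.σ (χ'.q (χ.σ y)) = c⁻¹ • χ.σ y := by
    rw [h5, smul_smul, inv_mul_cancel₀ hc, one_smul]
    congr 2
    exact h5.symm
  have hc' : c⁻¹ ≠ 0 := inv_ne_zero hc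
  refine ⟨h4, ?_, ?_, c⁻¹, hc', h6⟩
  · rw [h6]
    exact χ.smul_U _ h2 _ hc'
  · rw [h6, χ.q_smul _ h2 _ hc', h3]

/-- the change of charts is analytic -/
private theorem NodeGerm_an (χ χ' : Chart X) {y : ℂ × ℂ} (hy : y ∈ ball (0 : ℂ × ℂ) 2)
    (hU : χ.σ y ∈ χ'.U) : AnalyticAt ℂ (fun y => χ'.q (χ.σ y)) y :=
  AnalyticAt.comp (g := χ'.q) (f := χ.σ) (χ'.q_an _ hU) (χ.σ_an y hy)

/-- nearby points -/
private theorem NodeGerm_near (χ χ' : Chart X) {y : ℂ × ℂ} (hy : y ∈ ball (0 : ℂ × ℂ) 2)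
    (hU : χ.σ y ∈ χ'.U) : ∀ᶠ z in 𝓝 y, z ∈ ball (0 : ℂ × ℂ) 2 ∧ χ.σ z ∈ χ'.U := by
  have h1 : ∀ᶠ z in 𝓝 y, z ∈ ball (0 : ℂ × ℂ) 2 := isOpen_ball.mem_nhds hy
  have h2 : ∀ᶠ x in 𝓝 (χ.σ y), x ∈ χ'.U := χ'.isOpen_U.mem_nhds hU
  exact h1.and ((χ.σ_an y hy).continuousAt.tendsto.eventually h2)

theorem jac_ne_zero (hX : IsCone X) (χ χ' : Chart X) {p : ℂ × ℂ}
    (hp : p ∈ ball (0 : ℂ × ℂ) 2) (hU : χ.σ p ∈ χ'.U) :
    jac (fun y => χ'.q (χ.σ y)) p ≠ 0 := by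
  obtain ⟨τ, hτ⟩ : ∃ τ : ℂ × ℂ → ℂ × ℂ, τ = fun y => χ'.q (χ.σ y) := ⟨_, rfl⟩
  obtain ⟨η, hη⟩ : ∃ η : ℂ × ℂ → ℂ × ℂ, η = fun y => χ.q (χ'.σ y) := ⟨_, rfl⟩
  obtain ⟨a1, a2, a3, -⟩ := NodeGerm_pt χ χ' hp hU
  have hτa : AnalyticAt ℂ τ p := by
    rw [hτ]
    exact NodeGerm_an χ χ' hp hU
  have hηa : AnalyticAt ℂ η (τ p) := by
    rw [hη, hτ]
    exact NodeGerm_an χ' χ a1 a2
  have hid : ∀ᶠ y in 𝓝 p, η (τ y) = y := by
    filter_upwards [NodeGerm_near χ χ' hp hU] with y hy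
    rw [hη, hτ]
    exact (NodeGerm_pt χ χ' hy.1 hy.2).2.2.1
  have h1 : HasFDerivAt (η ∘ τ) ((fderiv ℂ η (τ p)).comp (fderiv ℂ τ p)) p :=
    hηa.differentiableAt.hasFDerivAt.comp p hτa.differentiableAt.hasFDerivAt
  have h2 : HasFDerivAt (η ∘ τ) (ContinuousLinearMap.id ℂ (ℂ × ℂ)) p :=
    (hasFDerivAt_id p).congr_of_eventuallyEq hid
  have h3 := h1.unique h2
  have h4 : ∀ w : ℂ × ℂ, fderiv ℂ τ p w = 0 → w = 0 := by
    intro w hw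
    have h5 : ((fderiv ℂ η (τ p)).comp (fderiv ℂ τ p)) w = w := by
      rw [h3]
      rfl
    rw [ContinuousLinearMap.comp_apply, hw, map_zero] at h5
    exact h5.symm
  rw [← hτ]
  intro hJ
  unfold jac at hJ
  have e1 : fderiv ℂ τ p ((fderiv ℂ τ p (0, 1)).2, -(fderiv ℂ τ p (1, 0)).2) = 0 := by
    have e : (((fderiv ℂ τ p (0, 1)).2, -(fderiv ℂ τ p (1, 0)).2) : ℂ × ℂ) =
        (fderiv ℂ τ p (0, 1)).2 • ((1 : ℂ), (0 : ℂ)) - (fderiv ℂ τ p (1, 0)).2 • ((0 : ℂ), (1 : ℂ)) := by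
      ext <;> simp
    rw [e, map_sub, map_smul, map_smul]
    ext
    · simp only [Prod.fst_sub, Prod.smul_fst, smul_eq_mul, Prod.fst_zero]
      linear_combination hJ
    · simp only [Prod.snd_sub, Prod.smul_snd, smul_eq_mul, Prod.snd_zero]
      ring
  have e2 : fderiv ℂ τ p ((fderiv ℂ τ p (0, 1)).1, -(fderiv ℂ τ p (1, 0)).1) = 0 := by
    have e : (((fderiv ℂ τ p (0, 1)).1, -(fderiv ℂ τ p (1, 0)).1) : ℂ × ℂ) =
        (fderiv ℂ τ p (0, 1)).1 • ((1 : ℂ), (0 : ℂ)) - (fderiv ℂ τ p (1, 0)).1 • ((0 : ℂ), (1 : ℂ)) := by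
      ext <;> simp
    rw [e, map_sub, map_smul, map_smul]
    ext
    · simp only [Prod.fst_sub, Prod.smul_fst, smul_eq_mul, Prod.fst_zero]
      ring
    · simp only [Prod.snd_sub, Prod.smul_snd, smul_eq_mul, Prod.snd_zero]
      linear_combination -hJ
  have f1 := h4 _ e1
  have f2 := h4 _ e2
  rw [Prod.mk_eq_zero] at f1 f2
  have g1 : fderiv ℂ τ p (1, 0) = 0 := by
    ext
    · simpa using f2.2
    · simpa using f1.2
  have g2 := h4 _ g1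
  simp [Prod.mk_eq_zero] at g2

theorem not_node (hX : IsCone X) (hT : ∀ x ∈ T, ∀ c : ℂ, c ≠ 0 → c • x ∈ T) (χ χ' : Chart X)
    {nd : Bool} (h : HasType T χ nd) (h' : HasType T χ' true) {t₀ : ℂ} (ht₀ : ‖t₀‖ < 2)
    (hnd : nd = true → t₀ ≠ 0) (hU : χ.σ (0, t₀) ∈ χ'.U) : χ'.q (χ.σ (0, t₀)) ≠ 0 := by
  intro h0
  have hp : ((0 : ℂ), t₀) ∈ ball (0 : ℂ × ℂ) 2 := by
    rw [mem_ball, dist_zero_right, Prod.norm_def]
    simpa using ht₀
  obtain ⟨a1, a2, a3, -⟩ := NodeGerm_pt χ χ' hp hU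
  rw [h0] at a1 a2 a3
  -- the two component functions
  have hpath : AnalyticAt ℂ (fun t : ℂ => χ'.q (χ.σ (0, t))) t₀ := by
    have h1 : AnalyticAt ℂ (fun t : ℂ => ((0 : ℂ), t)) t₀ := analyticAt_const.prod analyticAt_id
    exact AnalyticAt.comp (g := fun y => χ'.q (χ.σ y)) (f := fun t : ℂ => ((0 : ℂ), t))
      (NodeGerm_an χ χ' hp hU) h1
  have hu : AnalyticAt ℂ (fun t : ℂ => (χ'.q (χ.σ (0, t))).1) t₀ :=
    AnalyticAt.comp (g := fun x : ℂ × ℂ => x.1) (f := fun t : ℂ => χ'.q (χ.σ (0, t))) analyticAt_fst hpath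
  have hw : AnalyticAt ℂ (fun t : ℂ => (χ'.q (χ.σ (0, t))).2) t₀ :=
    AnalyticAt.comp (g := fun x : ℂ × ℂ => x.2) (f := fun t : ℂ => χ'.q (χ.σ (0, t))) analyticAt_snd hpath
  have htend : Tendsto (fun t : ℂ => ((0 : ℂ), t)) (𝓝 t₀) (𝓝 (0, t₀)) :=
    (continuous_const.prodMk continuous_id).tendsto t₀
  have huw : ∀ᶠ t in 𝓝 t₀, (χ'.q (χ.σ (0, t))).1 = 0 ∨ (χ'.q (χ.σ (0, t))).2 = 0 := by
    filter_upwards [htend.eventually (NodeGerm_near χ χ' hp hU)] with t ht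
    obtain ⟨b1, b2, b3, c, hc, b4⟩ := NodeGerm_pt χ χ' ht.1 ht.2
    have b5 : χ.σ (0, t) ∈ T := (h _ ht.1).2 (Or.inl rfl)
    have b6 : χ'.σ (χ'.q (χ.σ (0, t))) ∈ T := by
      rw [b4]
      exact hT _ b5 c hc
    rcases (h' _ b1).1 b6 with b7 | b7
    · exact Or.inl b7
    · exact Or.inr b7.2
  -- points on the axes of the second chart
  have hax : ∀ᶠ q in 𝓝 (0 : ℂ × ℂ), (q.1 = 0 ∨ q.2 = 0) →
      χ'.q (χ.σ (0, (χ.q (χ'.σ q)).2)) = q := by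
    have hη := (NodeGerm_an χ' χ a1 a2).continuousAt
    have hη2 : ContinuousAt (fun q => (χ.q (χ'.σ q)).2) (0 : ℂ × ℂ) := hη.snd
    have hne : ∀ᶠ q in 𝓝 (0 : ℂ × ℂ), nd = true → (χ.q (χ'.σ q)).2 ≠ 0 := by
      by_cases hn : nd = true
      · have h3 : (χ.q (χ'.σ 0)).2 ≠ 0 := by
          rw [a3]
          exact hnd hn
        exact (hη2.eventually_ne h3).mono fun q hq _ => hq
      · exact Eventually.of_forall fun q hq => absurd hq hn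
    filter_upwards [NodeGerm_near χ' χ a1 a2, hne] with q hq hq2 hq3
    obtain ⟨b1, b2, b3, c, hc, b4⟩ := NodeGerm_pt χ' χ hq.1 hq.2
    have b5 : χ'.σ q ∈ T := (h' _ hq.1).2 (by
      rcases hq3 with h4 | h4
      · exact Or.inl h4
      · exact Or.inr ⟨rfl, h4⟩)
    have b6 : χ.σ (χ.q (χ'.σ q)) ∈ T := by
      rw [b4]
      exact hT _ b5 c hc
    have b7 : (χ.q (χ'.σ q)).1 = 0 := by
      rcases (h _ b1).1 b6 with b8 | b8
      · exact b8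
      · exact absurd b8.2 (hq2 b8.1)
    have b9 : ((0 : ℂ), (χ.q (χ'.σ q)).2) = χ.q (χ'.σ q) := by
      ext
      · exact b7.symm
      · rfl
    rw [b9]
    exact b3
  have hη2 : Tendsto (fun q => (χ.q (χ'.σ q)).2) (𝓝 (0 : ℂ × ℂ)) (𝓝 t₀) := by
    have h2 : ContinuousAt (fun q => (χ.q (χ'.σ q)).2) (0 : ℂ × ℂ) :=
      (NodeGerm_an χ' χ a1 a2).continuousAt.snd
    have h3 := h2.tendsto
    rwa [a3] at h3
  have hx0 : ¬ ∀ᶠ x in 𝓝 (0 : ℂ), x = 0 := by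
    intro h1
    have h2 : ∀ᶠ x in 𝓝[≠] (0 : ℂ), False := by
      filter_upwards [h1.filter_mono nhdsWithin_le_nhds, self_mem_nhdsWithin] with x hx hx'
      exact hx' hx
    rw [eventually_false_iff_eq_bot] at h2
    exact (inferInstance : (𝓝[≠] (0 : ℂ)).NeBot).ne h2
  rcases hu.eventually_eq_zero_or_eventually_ne_zero with h1 | h1
  · have h2 : ∀ᶠ q in 𝓝 (0 : ℂ × ℂ), (q.1 = 0 ∨ q.2 = 0) → q.1 = 0 := by
      filter_upwards [hax, hη2.eventually h1] with q b1 b2 b3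
      rw [b1 b3] at b2
      exact b2
    have h3 : Tendsto (fun x : ℂ => (x, (0 : ℂ))) (𝓝 0) (𝓝 (0 : ℂ × ℂ)) :=
      (continuous_id.prodMk continuous_const).tendsto 0
    exact hx0 ((h3.eventually h2).mono fun x hx => hx (Or.inr rfl))
  · rcases hw.eventually_eq_zero_or_eventually_ne_zero with h1' | h1'
    · have h2 : ∀ᶠ q in 𝓝 (0 : ℂ × ℂ), (q.1 = 0 ∨ q.2 = 0) → q.2 = 0 := by
        filter_upwards [hax, hη2.eventually h1'] with q b1 b2 b3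
        rw [b1 b3] at b2
        exact b2
      have h3 : Tendsto (fun x : ℂ => ((0 : ℂ), x)) (𝓝 0) (𝓝 (0 : ℂ × ℂ)) :=
        (continuous_const.prodMk continuous_id).tendsto 0
      exact hx0 ((h3.eventually h2).mono fun x hx => hx (Or.inl rfl))
    · have h2 : ∀ᶠ x in 𝓝[≠] t₀, False := by
        filter_upwards [h1, h1', huw.filter_mono nhdsWithin_le_nhds] with t b1 b2 b3
        rcases b3 with b3 | b3
        · exact b1 b3
        · exact b2 b3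
      rw [eventually_false_iff_eq_bot] at h2
      exact (inferInstance : (𝓝[≠] t₀).NeBot).ne h2

end Pool.Agent.H14.PP
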