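import Pool.Agent.H14.PP.ChartBasic

/-!
# BPm FormChart: the coefficient of the form in a chart

* `aCoef_analytic`: `Form.analytic` for `φ = χ.σ` (near `p` the points `χ.σ y` are in `X`, hence in
  `K`, `rel_open`).
* `aCoef_ne_zero`: `v = Dσ(p)(1,0)`, `w = Dσ(p)(0,1)` are tangent (`Chart.tan`), and
  `![σ p, v, w]` is linearly independent: if `a σ p + b v + c w = 0` apply `Dq(σ p)`:
  `(b, c) = 0` (`Chart.fderiv_q_self`, `Chart.fderiv_sigma`), then `a = 0` as `σ p ≠ 0`.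
* `continuousAt_ACoef` (exponents are `≥ 0`), `ACoef_pos_iff` (`1 ≤ m`, `σ p ≠ 0`).
* `ACoef_swap`: `Ω x w v = (-1)^m Ω x v w` (`det` with `a = d = 0`, `b = c = 1`).
-/

open Topology Filter Metric

namespace Pool.Agent.H14.PP

open Pool.Agent.H36.BP

variable {N : ℕ} {X K T : Set (EN N)} {m j : ℕ}

private theorem FormChart_ev (hK : IsOpenPart X K) (χ : Chart X) {p : ℂ × ℂ}
    (hp : p ∈ ball (0 : ℂ × ℂ) 2) (hpK : χ.σ p ∈ K) : ∀ᶠ y in 𝓝 p, χ.σ y ∈ K := by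
  have h1 : ∀ᶠ y in 𝓝 p, y ∈ ball (0 : ℂ × ℂ) 2 := isOpen_ball.mem_nhds hp
  have h2 : ∀ᶠ y in 𝓝 p, χ.σ y ∈ X → χ.σ y ∈ K :=
    (χ.σ_an p hp).continuousAt.eventually (hK.rel_open _ hpK)
  filter_upwards [h1, h2] with y hy hy2
  exact hy2 (χ.σ_mem y hy).1

private theorem FormChart_swap (χ : Chart X) {p : ℂ × ℂ} (hp : p ∈ ball (0 : ℂ × ℂ) 2) (v : ℂ × ℂ) :
    fderiv ℂ χ.swap.σ p.swap v = fderiv ℂ χ.σ p v.swap := by
  have h1 : HasFDerivAt χ.σ (fderiv ℂ χ.σ p) ((ContinuousLinearEquiv.prodComm ℂ ℂ ℂ) p.swap) := by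
    have : (ContinuousLinearEquiv.prodComm ℂ ℂ ℂ) p.swap = p := by
      show p.swap.swap = p
      exact Prod.swap_swap p
    rw [this]
    exact (χ.σ_an p hp).differentiableAt.hasFDerivAt
  have h2 := h1.comp p.swap (ContinuousLinearEquiv.prodComm ℂ ℂ ℂ).hasFDerivAt
  have h3 : HasFDerivAt χ.swap.σ ((fderiv ℂ χ.σ p).comp
      ((ContinuousLinearEquiv.prodComm ℂ ℂ ℂ : (ℂ × ℂ) ≃L[ℂ] (ℂ × ℂ)) : (ℂ × ℂ) →L[ℂ] (ℂ × ℂ))) p.swap := h2
  rw [h3.fderiv]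
  rfl

theorem aCoef_analytic (hK : IsOpenPart X K) (Ω : Form K m j) (χ : Chart X) {p : ℂ × ℂ}
    (hp : p ∈ ball (0 : ℂ × ℂ) 2) (hpK : χ.σ p ∈ K) : AnalyticAt ℂ (aCoef Ω χ) p := by
  exact Ω.analytic χ.σ p (χ.σ_an p hp) (FormChart_ev hK χ hp hpK)

theorem aCoef_ne_zero (hX : IsCone X) (hK : IsOpenPart X K) (Ω : Form K m j) (χ : Chart X)
    (hΩ : Ω.NoZeroOff T) {p : ℂ × ℂ} (hp : p ∈ ball (0 : ℂ × ℂ) 2) (hpK : χ.σ p ∈ K)
    (hT : χ.σ p ∉ T) : aCoef Ω χ p ≠ 0 := by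
  refine hΩ (χ.σ p) hpK hT _ _ (χ.tan hK hp hpK _) (χ.tan hK hp hpK _) ?_
  rw [Fintype.linearIndependent_iff]
  intro g hg
  rw [Fin.sum_univ_three] at hg
  simp only [Matrix.cons_val_zero, Matrix.cons_val_one, Matrix.cons_val] at hg
  have h1 := congrArg (fderiv ℂ χ.q (χ.σ p)) hg
  rw [map_add, map_add, map_smul, map_smul, map_smul, χ.fderiv_q_self (χ.σ_mem p hp).2.1,
    χ.fderiv_sigma hp, χ.fderiv_sigma hp, map_zero, smul_zero, zero_add] at h1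
  have h2 : g 1 = 0 := by
    have := congrArg Prod.fst h1
    simpa using this
  have h3 : g 2 = 0 := by
    have := congrArg Prod.snd h1
    simpa using this
  rw [h2, h3, zero_smul, zero_smul, add_zero, add_zero] at hg
  have h4 : g 0 = 0 := (smul_eq_zero.1 hg).resolve_right (χ.sigma_ne_zero hX hp)
  intro i
  fin_cases i
  · exact h4
  · exact h2
  · exact h3

theorem ACoef_nonneg (Ω : Form K m j) (χ : Chart X) (p : ℂ × ℂ) : 0 ≤ ACoef Ω χ p := by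
  unfold ACoef
  positivity

theorem continuousAt_ACoef (hK : IsOpenPart X K) (Ω : Form K m j) (χ : Chart X) {p : ℂ × ℂ}
    (hp : p ∈ ball (0 : ℂ × ℂ) 2) (hpK : χ.σ p ∈ K) : ContinuousAt (ACoef Ω χ) p := by
  unfold ACoef
  refine ContinuousAt.mul ?_ ?_
  · exact (aCoef_analytic hK Ω χ hp hpK).continuousAt.norm.rpow_const (Or.inr (by positivity))
  · exact (χ.σ_an p hp).continuousAt.norm.rpow_const (Or.inr (by positivity))

theorem ACoef_pos_iff (hX : IsCone X) (hm : 1 ≤ m) (Ω : Form K m j) (χ : Chart X) {p : ℂ × ℂ}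
    (hp : p ∈ ball (0 : ℂ × ℂ) 2) : 0 < ACoef Ω χ p ↔ aCoef Ω χ p ≠ 0 := by
  have hσ : 0 < ‖χ.σ p‖ := norm_pos_iff.2 (χ.sigma_ne_zero hX hp)
  have h1 : 0 < ‖χ.σ p‖ ^ ((j : ℝ) / m) := Real.rpow_pos_of_pos hσ _
  have hm' : (1 / (m : ℝ)) ≠ 0 := by
    have : (0 : ℝ) < m := by exact_mod_cast hm
    positivity
  unfold ACoef
  constructor
  · intro h h0
    rw [h0, norm_zero, Real.zero_rpow hm', zero_mul] at h
    exact lt_irrefl _ h
  · intro h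
    exact mul_pos (Real.rpow_pos_of_pos (norm_pos_iff.2 h) _) h1

theorem ACoef_swap (hK : IsOpenPart X K) (Ω : Form K m j) (χ : Chart X) {p : ℂ × ℂ}
    (hp : p ∈ ball (0 : ℂ × ℂ) 2) (hpK : χ.σ p ∈ K) :
    ACoef Ω χ.swap p.swap = ACoef Ω χ p := by
  have hσ : χ.swap.σ p.swap = χ.σ p := by
    show χ.σ p.swap.swap = χ.σ p
    rw [Prod.swap_swap]
  have h1 : aCoef Ω χ.swap p.swap = (-1) ^ m * aCoef Ω χ p := by
    unfold aCoef
    rw [hσ, FormChart_swap χ hp, FormChart_swap χ hp]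
    have h2 := Ω.det (χ.σ p) hpK _ _ (χ.tan hK hp hpK (1, 0)) (χ.tan hK hp hpK (0, 1)) 0 1 1 0
    rw [zero_smul, one_smul, one_smul, zero_smul, zero_add, add_zero] at h2
    have h3 : ((0 : ℂ) * 0 - 1 * 1) = -1 := by ring
    rw [h3] at h2
    exact h2
  unfold ACoef
  rw [h1, hσ, norm_mul, norm_pow, norm_neg, norm_one, one_pow, one_mul]

end Pool.Agent.H14.PP
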