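import Pool.Agent.H14.PP.Defs

/-!
# BPm PieceBasic: the pieces, basic properties

`pN`, `pT`, `pM` (`Defs.lean`): nonnegativity (`M ≥ 0`), homogeneity in the vector, continuity
(`0 ≤ κ ≤ 1/4`: all real powers have nonnegative exponents; `(1 + M‖s‖^(2κ))^e` has a base `≥ 1`),
invariance of `pM true` under exchange of the coordinates.
-/

open Topology Filter Metric

namespace Pool.Agent.H14.PP

private theorem PieceBasic_base {P : Par} (hM : 0 ≤ P.M) (s : ℂ) : 1 ≤ 1 + P.M * ‖s‖ ^ (2 * P.κ) := by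
  have : 0 ≤ P.M * ‖s‖ ^ (2 * P.κ) := mul_nonneg hM (Real.rpow_nonneg (norm_nonneg _) _)
  linarith

theorem pN_nonneg {P : Par} (hM : 0 ≤ P.M) (nd : Bool) (s t s' : ℂ) : 0 ≤ pN nd P s t s' := by
  unfold pN
  have h1 := PieceBasic_base hM s
  have h2 : 0 ≤ (1 + P.M * ‖s‖ ^ (2 * P.κ)) ^ P.e := Real.rpow_nonneg (by linarith) _
  have h3 : 0 ≤ (if nd = true then ‖t‖ ^ (1 - P.κ) * Real.exp (-P.ε * ‖s‖ ^ 2) else 1) := by
    split_ifs
    · exact mul_nonneg (Real.rpow_nonneg (norm_nonneg _) _) (Real.exp_pos _).le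
    · exact zero_le_one
  exact mul_nonneg (mul_nonneg (mul_nonneg h3 (norm_nonneg _)) h2) (Real.exp_pos _).le

theorem pT_nonneg {P : Par} (hM : 0 ≤ P.M) (nd : Bool) (s t t' : ℂ) : 0 ≤ pT nd P s t t' := by
  unfold pT
  split_ifs
  · exact pN_nonneg hM true t s t'
  · exact mul_nonneg (mul_nonneg (Real.rpow_nonneg (norm_nonneg _) _) (norm_nonneg _)) (Real.exp_pos _).le

theorem pM_nonneg {P : Par} (hM : 0 ≤ P.M) (nd : Bool) (p w : ℂ × ℂ) : 0 ≤ pM nd P p w := by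
  exact le_max_of_le_left (pN_nonneg hM nd _ _ _)

private theorem PieceBasic_pN_smul {P : Par} (nd : Bool) (s t s' c : ℂ) :
    pN nd P s t (c * s') = ‖c‖ * pN nd P s t s' := by
  unfold pN
  rw [norm_mul]
  ring

private theorem PieceBasic_pT_smul {P : Par} (nd : Bool) (s t t' c : ℂ) :
    pT nd P s t (c * t') = ‖c‖ * pT nd P s t t' := by
  unfold pT
  split_ifs
  · exact PieceBasic_pN_smul true t s t' c
  · rw [norm_mul]
    ring

theorem pM_smul {P : Par} (nd : Bool) (p w : ℂ × ℂ) (c : ℂ) :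
    pM nd P p (c • w) = ‖c‖ * pM nd P p w := by
  unfold pM
  rw [mul_max_of_nonneg _ _ (norm_nonneg c), ← PieceBasic_pN_smul, ← PieceBasic_pT_smul]
  rfl

theorem pM_swap {P : Par} (p w : ℂ × ℂ) : pM true P p.swap w.swap = pM true P p w := by
  unfold pM pT
  rw [if_pos rfl, if_pos rfl]
  exact max_comm _ _

theorem continuous_pM {P : Par} (hM : 0 ≤ P.M) (hκ : 0 ≤ P.κ) (hκ1 : P.κ ≤ 1 / 4) (nd : Bool) :
    Continuous (fun y : (ℂ × ℂ) × (ℂ × ℂ) => pM nd P y.1 y.2) := by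
  have hN : ∀ nd : Bool, Continuous (fun x : ℂ × ℂ × ℂ => pN nd P x.1 x.2.1 x.2.2) := by
    intro nd
    unfold pN
    have hs : Continuous (fun x : ℂ × ℂ × ℂ => ‖x.1‖) := continuous_fst.norm
    have ht : Continuous (fun x : ℂ × ℂ × ℂ => ‖x.2.1‖) := (continuous_fst.comp continuous_snd).norm
    have hs' : Continuous (fun x : ℂ × ℂ × ℂ => ‖x.2.2‖) := (continuous_snd.comp continuous_snd).norm
    have h1 : Continuous (fun x : ℂ × ℂ × ℂ => ‖x.2.1‖ ^ (1 - P.κ)) :=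
      ht.rpow_const fun _ => Or.inr (by linarith)
    have h2 : Continuous (fun x : ℂ × ℂ × ℂ => ‖x.1‖ ^ (2 * P.κ)) :=
      hs.rpow_const fun _ => Or.inr (by linarith)
    have h3a : Continuous (fun x : ℂ × ℂ × ℂ => 1 + P.M * ‖x.1‖ ^ (2 * P.κ)) :=
      continuous_const.add (continuous_const.mul h2)
    have h3 : Continuous (fun x : ℂ × ℂ × ℂ => (1 + P.M * ‖x.1‖ ^ (2 * P.κ)) ^ P.e) :=
      h3a.rpow_const fun x =>
        Or.inl (ne_of_gt (lt_of_lt_of_le one_pos (PieceBasic_base (P := P) hM x.1)))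
    have h4 : Continuous (fun x : ℂ × ℂ × ℂ => Real.exp (-P.K * ‖x.2.1‖ ^ 2)) :=
      Real.continuous_exp.comp (continuous_const.mul (ht.pow 2))
    have h5 : Continuous (fun x : ℂ × ℂ × ℂ => Real.exp (-P.ε * ‖x.1‖ ^ 2)) :=
      Real.continuous_exp.comp (continuous_const.mul (hs.pow 2))
    cases nd
    · simp only [Bool.false_eq_true, if_false]
      exact ((continuous_const.mul hs').mul h3).mul h4
    · simp only [if_true]
      exact (((h1.mul h5).mul hs').mul h3).mul h4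
  have hT : Continuous (fun x : ℂ × ℂ × ℂ => pT nd P x.1 x.2.1 x.2.2) := by
    unfold pT
    cases nd
    · simp only [Bool.false_eq_true, if_false]
      have hs : Continuous (fun x : ℂ × ℂ × ℂ => ‖x.1‖) := continuous_fst.norm
      have ht : Continuous (fun x : ℂ × ℂ × ℂ => ‖x.2.1‖) := (continuous_fst.comp continuous_snd).norm
      have hs' : Continuous (fun x : ℂ × ℂ × ℂ => ‖x.2.2‖) := (continuous_snd.comp continuous_snd).norm
      have h1 : Continuous (fun x : ℂ × ℂ × ℂ => ‖x.1‖ ^ (1 - P.κ)) :=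
        hs.rpow_const fun _ => Or.inr (by linarith)
      have h5 : Continuous (fun x : ℂ × ℂ × ℂ => Real.exp (-P.ε * ‖x.2.1‖ ^ 2)) :=
        Real.continuous_exp.comp (continuous_const.mul (ht.pow 2))
      exact (h1.mul hs').mul h5
    · simp only [if_true]
      have h6 : Continuous (fun x : ℂ × ℂ × ℂ => ((x.2.1, x.1, x.2.2) : ℂ × ℂ × ℂ)) := by fun_prop
      exact (hN true).comp h6
  unfold pM
  have h7 : Continuous (fun y : (ℂ × ℂ) × (ℂ × ℂ) => ((y.1.1, y.1.2, y.2.1) : ℂ × ℂ × ℂ)) := by fun_prop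
  have h8 : Continuous (fun y : (ℂ × ℂ) × (ℂ × ℂ) => ((y.1.1, y.1.2, y.2.2) : ℂ × ℂ × ℂ)) := by fun_prop
  exact ((hN nd).comp h7).max (hT.comp h8)

private theorem PieceBasic_exp_le {a x : ℝ} (ha : 0 ≤ a) : Real.exp (-a * x ^ 2) ≤ 1 := by
  rw [Real.exp_le_one_iff]
  nlinarith [sq_nonneg x]

private theorem PieceBasic_le_exp {a x : ℝ} (ha : 0 ≤ a) (hx0 : 0 ≤ x) (hx : x ≤ 1) :
    Real.exp (-a) ≤ Real.exp (-a * x ^ 2) := by
  rw [Real.exp_le_exp]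
  have : x ^ 2 ≤ 1 := pow_le_one₀ hx0 hx
  nlinarith

private theorem PieceBasic_rpow_ge {x κ : ℝ} (hx0 : 0 ≤ x) (hx : x ≤ 1) (hκ : 0 ≤ κ) (hκ1 : κ ≤ 1 / 4) :
    x ≤ x ^ (1 - κ) := by
  rcases hx0.eq_or_lt with h | h
  · rw [← h, Real.zero_rpow (by linarith)]
  · have := Real.rpow_le_rpow_of_exponent_ge h hx (show 1 - κ ≤ 1 by linarith)
    rwa [Real.rpow_one] at this

private theorem PieceBasic_rpow_le {x κ : ℝ} (hx0 : 0 ≤ x) (hx : x ≤ 1) (hκ1 : κ ≤ 1 / 4) :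
    x ^ (1 - κ) ≤ 1 := Real.rpow_le_one hx0 hx (by linarith)

private theorem PieceBasic_pow_le {P : Par} (hP : ConvPar P) {s : ℂ} (hs : ‖s‖ ≤ 1) :
    (1 + P.M * ‖s‖ ^ (2 * P.κ)) ^ P.e ≤ 2 := by
  have hM : 0 ≤ P.M := by linarith [hP.M_ge]
  have h1 := PieceBasic_base (P := P) hM s
  have h2 : ‖s‖ ^ (2 * P.κ) ≤ 1 := Real.rpow_le_one (norm_nonneg _) hs (by linarith [hP.κ_pos])
  have h3 : 1 + P.M * ‖s‖ ^ (2 * P.κ) ≤ 1 + P.M := by nlinarith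
  have h4 : (1 + P.M * ‖s‖ ^ (2 * P.κ)) ^ P.e ≤ (1 + P.M) ^ P.e :=
    Real.rpow_le_rpow (by linarith) h3 hP.e_pos.le
  refine h4.trans ?_
  rw [Real.rpow_def_of_pos (by linarith)]
  have h5 : Real.log (1 + P.M) * P.e ≤ 1 / 16 := by
    have := hP.e_log
    have := hP.ε_le
    nlinarith
  have h6 : Real.exp (Real.log (1 + P.M) * P.e) ≤ Real.exp (1 / 16) := Real.exp_le_exp.2 h5
  have h7 : Real.exp (1 / 16) ≤ 2 := by
    have h8 := Real.exp_bound_div_one_sub_of_interval (x := 1 / 16) (by norm_num) (by norm_num)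
    refine h8.trans (by norm_num)
  exact h6.trans h7

private theorem PieceBasic_one_le {P : Par} (hP : ConvPar P) (s : ℂ) :
    1 ≤ (1 + P.M * ‖s‖ ^ (2 * P.κ)) ^ P.e :=
  Real.one_le_rpow (PieceBasic_base (by linarith [hP.M_ge]) s) hP.e_pos.le

private theorem PieceBasic_pN_le {P : Par} (hP : ConvPar P) (nd : Bool) {s t : ℂ} (hs : ‖s‖ ≤ 1) (ht : ‖t‖ ≤ 1)
    (s' : ℂ) : pN nd P s t s' ≤ 2 * ‖s'‖ := by
  unfold pN
  have h1 := PieceBasic_pow_le hP hs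
  have h1' := PieceBasic_one_le hP s
  have h2 : Real.exp (-P.K * ‖t‖ ^ 2) ≤ 1 := PieceBasic_exp_le hP.K_pos.le
  have h3 : (if nd = true then ‖t‖ ^ (1 - P.κ) * Real.exp (-P.ε * ‖s‖ ^ 2) else 1) ≤ 1 := by
    split_ifs
    · exact mul_le_one₀ (PieceBasic_rpow_le (norm_nonneg _) ht hP.κ_le) (Real.exp_pos _).le
        (PieceBasic_exp_le hP.ε_pos.le)
    · exact le_refl _
  have h4 : 0 ≤ (if nd = true then ‖t‖ ^ (1 - P.κ) * Real.exp (-P.ε * ‖s‖ ^ 2) else 1) := by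
    split_ifs
    · exact mul_nonneg (Real.rpow_nonneg (norm_nonneg _) _) (Real.exp_pos _).le
    · exact zero_le_one
  have h5 := norm_nonneg s'
  calc _ ≤ 1 * ‖s'‖ * 2 * 1 := by
        refine mul_le_mul (mul_le_mul (mul_le_mul h3 le_rfl h5 zero_le_one) h1 (by linarith) (by positivity)) h2
          (Real.exp_pos _).le (by positivity)
    _ = 2 * ‖s'‖ := by ring

private theorem PieceBasic_le_pN_true {P : Par} (hP : ConvPar P) {s t : ℂ} (hs : ‖s‖ ≤ 1) (ht : ‖t‖ ≤ 1)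
    (s' : ℂ) : ‖t‖ * ‖s'‖ * Real.exp (-P.K - 1) ≤ pN true P s t s' := by
  unfold pN
  rw [if_pos rfl]
  have h1 := PieceBasic_one_le hP s
  have h2 : Real.exp (-P.K) ≤ Real.exp (-P.K * ‖t‖ ^ 2) := PieceBasic_le_exp hP.K_pos.le (norm_nonneg _) ht
  have h3 : Real.exp (-1) ≤ Real.exp (-P.ε * ‖s‖ ^ 2) := by
    refine le_trans (Real.exp_le_exp.2 ?_) (PieceBasic_le_exp hP.ε_pos.le (norm_nonneg _) hs)
    linarith [hP.ε_le]
  have h4 : ‖t‖ ≤ ‖t‖ ^ (1 - P.κ) := PieceBasic_rpow_ge (norm_nonneg _) ht hP.κ_pos.le hP.κ_le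
  have h5 : Real.exp (-P.K - 1) = Real.exp (-1) * Real.exp (-P.K) := by
    rw [← Real.exp_add]
    congr 1
    ring
  rw [h5]
  have hr : 0 ≤ ‖t‖ ^ (1 - P.κ) := Real.rpow_nonneg (norm_nonneg _) _
  calc ‖t‖ * ‖s'‖ * (Real.exp (-1) * Real.exp (-P.K)) = ‖t‖ * Real.exp (-1) * ‖s'‖ * 1 * Real.exp (-P.K) := by ring
    _ ≤ ‖t‖ ^ (1 - P.κ) * Real.exp (-P.ε * ‖s‖ ^ 2) * ‖s'‖ * (1 + P.M * ‖s‖ ^ (2 * P.κ)) ^ P.e *
        Real.exp (-P.K * ‖t‖ ^ 2) := by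
      gcongr

private theorem PieceBasic_le_pN_false {P : Par} (hP : ConvPar P) {s t : ℂ} (ht : ‖t‖ ≤ 1)
    (s' : ℂ) : ‖s'‖ * Real.exp (-P.K - 1) ≤ pN false P s t s' := by
  unfold pN
  rw [if_neg (by decide)]
  have h1 := PieceBasic_one_le hP s
  have h2 : Real.exp (-P.K) ≤ Real.exp (-P.K * ‖t‖ ^ 2) := PieceBasic_le_exp hP.K_pos.le (norm_nonneg _) ht
  have h5 : Real.exp (-P.K - 1) ≤ Real.exp (-P.K) := Real.exp_le_exp.2 (by linarith)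
  calc ‖s'‖ * Real.exp (-P.K - 1) ≤ ‖s'‖ * Real.exp (-P.K * ‖t‖ ^ 2) :=
        mul_le_mul_of_nonneg_left (h5.trans h2) (norm_nonneg _)
    _ = 1 * ‖s'‖ * 1 * Real.exp (-P.K * ‖t‖ ^ 2) := by ring
    _ ≤ 1 * ‖s'‖ * (1 + P.M * ‖s‖ ^ (2 * P.κ)) ^ P.e * Real.exp (-P.K * ‖t‖ ^ 2) := by gcongr

private theorem PieceBasic_fst {p : ℂ × ℂ} (hp : ‖p‖ ≤ 1) : ‖p.1‖ ≤ 1 := (norm_fst_le p).trans hp

private theorem PieceBasic_snd {p : ℂ × ℂ} (hp : ‖p‖ ≤ 1) : ‖p.2‖ ≤ 1 := (norm_snd_le p).trans hp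

/-- the upper bound -/
theorem pM_le {P : Par} (hP : ConvPar P) (nd : Bool) {p : ℂ × ℂ} (hp : ‖p‖ ≤ 1) (w : ℂ × ℂ) :
    pM nd P p w ≤ 2 * ‖w‖ := by
  have h1 := PieceBasic_fst hp
  have h2 := PieceBasic_snd hp
  have hw1 : ‖w.1‖ ≤ ‖w‖ := norm_fst_le w
  have hw2 : ‖w.2‖ ≤ ‖w‖ := norm_snd_le w
  refine max_le ?_ ?_
  · exact (PieceBasic_pN_le hP nd h1 h2 w.1).trans (by linarith)
  · unfold pT
    split_ifs
    · exact (PieceBasic_pN_le hP true h2 h1 w.2).trans (by linarith)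
    · have h3 : ‖p.1‖ ^ (1 - P.κ) ≤ 1 := PieceBasic_rpow_le (norm_nonneg _) h1 hP.κ_le
      have h4 : Real.exp (-P.ε * ‖p.2‖ ^ 2) ≤ 1 := PieceBasic_exp_le hP.ε_pos.le
      calc ‖p.1‖ ^ (1 - P.κ) * ‖w.2‖ * Real.exp (-P.ε * ‖p.2‖ ^ 2) ≤ 1 * ‖w.2‖ * 1 := by gcongr
        _ ≤ 2 * ‖w‖ := by linarith [norm_nonneg w.2]

/-- the lower bounds -/
theorem le_pM_false {P : Par} (hP : ConvPar P) {p : ℂ × ℂ} (hp : ‖p‖ ≤ 1) (w : ℂ × ℂ) :
    ‖p.1‖ * ‖w‖ * Real.exp (-P.K - 1) ≤ pM false P p w := by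
  have h1 := PieceBasic_fst hp
  have h2 := PieceBasic_snd hp
  have hw : ‖w‖ = max ‖w.1‖ ‖w.2‖ := Prod.norm_def _
  have hE : 0 ≤ Real.exp (-P.K - 1) := (Real.exp_pos _).le
  rcases max_choice ‖w.1‖ ‖w.2‖ with h | h
  · rw [hw, h]
    refine le_max_of_le_left ((le_trans ?_ (PieceBasic_le_pN_false hP h2 w.1)))
    have h3 : ‖p.1‖ * ‖w.1‖ ≤ 1 * ‖w.1‖ := mul_le_mul_of_nonneg_right h1 (norm_nonneg _)
    rw [one_mul] at h3
    exact mul_le_mul_of_nonneg_right h3 hE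
  · rw [hw, h]
    refine le_max_of_le_right ?_
    unfold pT
    rw [if_neg (by decide)]
    have h4 : ‖p.1‖ ≤ ‖p.1‖ ^ (1 - P.κ) := PieceBasic_rpow_ge (norm_nonneg _) h1 hP.κ_pos.le hP.κ_le
    have h5 : Real.exp (-P.K - 1) ≤ Real.exp (-P.ε * ‖p.2‖ ^ 2) := by
      refine le_trans (Real.exp_le_exp.2 ?_) (PieceBasic_le_exp hP.ε_pos.le (norm_nonneg _) h2)
      linarith [hP.ε_le, hP.K_pos]
    have hr : 0 ≤ ‖p.1‖ ^ (1 - P.κ) := Real.rpow_nonneg (norm_nonneg _) _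
    gcongr

theorem le_pM_true {P : Par} (hP : ConvPar P) {p : ℂ × ℂ} (hp : ‖p‖ ≤ 1) (w : ℂ × ℂ) :
    ‖p.1‖ * ‖p.2‖ * ‖w‖ * Real.exp (-P.K - 1) ≤ pM true P p w := by
  have h1 := PieceBasic_fst hp
  have h2 := PieceBasic_snd hp
  have hw : ‖w‖ = max ‖w.1‖ ‖w.2‖ := Prod.norm_def _
  have hE : 0 ≤ Real.exp (-P.K - 1) := (Real.exp_pos _).le
  rcases max_choice ‖w.1‖ ‖w.2‖ with h | h
  · rw [hw, h]
    refine le_max_of_le_left ((le_trans ?_ (PieceBasic_le_pN_true hP h1 h2 w.1)))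
    have h3 : ‖p.1‖ * ‖p.2‖ * ‖w.1‖ ≤ ‖p.2‖ * ‖w.1‖ := by
      have := mul_le_mul_of_nonneg_right h1 (mul_nonneg (norm_nonneg p.2) (norm_nonneg w.1))
      linarith
    exact mul_le_mul_of_nonneg_right h3 hE
  · rw [hw, h]
    refine le_max_of_le_right ?_
    unfold pT
    rw [if_pos rfl]
    refine le_trans ?_ (PieceBasic_le_pN_true hP h2 h1 w.2)
    have h3 : ‖p.1‖ * ‖p.2‖ * ‖w.2‖ ≤ ‖p.1‖ * ‖w.2‖ := by
      have := mul_le_mul_of_nonneg_right h2 (mul_nonneg (norm_nonneg p.1) (norm_nonneg w.2))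
      linarith
    exact mul_le_mul_of_nonneg_right h3 hE

end Pool.Agent.H14.PP
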