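import Pool.Agent.H14.PP.FormChart
import Pool.Agent.H36.BP.SubC

/-!
# BPm SubACoef: lower supports for the coefficient of the form along a curve

`Chart.curve`: near `z₀`, `F z = c z • σ (q (F z))`, so
`ACoef Ω χ (q (F z)) = ‖a (q (F z))‖^(1/m) * (‖F z‖/‖c z‖)^(j/m)`, `a = aCoef Ω χ`, and
`ACoef Ω χ (q (F z)) * ‖F z‖^(-c₀) = ‖a (q (F z))‖^(1/m) * ‖c z‖^(-(j/m)) * ‖F z‖^(j/m - c₀)`.
The first two factors have coefficient `0`: `a ∘ q ∘ F` and `c` are analytic and not zero at `z₀`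
(`Sub.of_holo`, `Sub.rpow`; for the negative power of `‖c‖` use `Sub.of_holo` for `1/c`), the last
has `(j/m - c₀) * fs^2/2` (`Sub.norm_rpow`).
-/

open Topology Filter Metric

namespace Pool.Agent.H14.PP

open Pool.Agent.H36.BP

variable {N : ℕ} {X K T : Set (EN N)} {m j : ℕ}

theorem sub_ACoef (hX : IsCone X) (hK : IsOpenPart X K) (Ω : Form K m j) (χ : Chart X)
    {F : ℂ → EN N} {z₀ : ℂ} (hF : CurveAt K F z₀) (hU : F z₀ ∈ χ.U)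
    (ha : aCoef Ω χ (χ.q (F z₀)) ≠ 0) (c₀ : ℝ) :
    Sub (fun z => ACoef Ω χ (χ.q (F z)) * ‖F z‖ ^ (-c₀)) z₀
      (((j : ℝ) / m - c₀) * (fs (F z₀) (deriv F z₀) ^ 2 / 2)) := by
  have hFX : CurveAt X F z₀ := hF.mono hK.subset
  obtain ⟨hq_an, -, c, hc_an, hc0, hev⟩ := χ.curve hX hFX hU
  obtain ⟨hp, hFz⟩ := hev.self_of_nhds
  have hF0 : F z₀ ≠ 0 := hX.ne_zero hFX.mem
  have hpK : χ.σ (χ.q (F z₀)) ∈ K := by
    have h1 := hK.smul_mem (F z₀) hF.mem (c z₀)⁻¹ (inv_ne_zero hc0)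
    have h2 : (c z₀)⁻¹ • F z₀ = χ.σ (χ.q (F z₀)) := by
      conv_lhs => rw [hFz]
      rw [smul_smul, inv_mul_cancel₀ hc0, one_smul]
    rwa [h2] at h1
  have ha_an : AnalyticAt ℂ (fun z => aCoef Ω χ (χ.q (F z))) z₀ :=
    AnalyticAt.fun_comp (g := aCoef Ω χ) (f := fun z => χ.q (F z)) (aCoef_analytic hK Ω χ hp hpK)
      hq_an
  have h1 : Sub (fun z => ‖aCoef Ω χ (χ.q (F z))‖ ^ (1 / (m : ℝ))) z₀ (1 / (m : ℝ) * 0) :=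
    (Sub.of_holo ha_an ha).rpow (by positivity)
  have h2 : Sub (fun z => ‖(c z)⁻¹‖ ^ ((j : ℝ) / m)) z₀ ((j : ℝ) / m * 0) :=
    (Sub.of_holo (hc_an.fun_inv hc0) (inv_ne_zero hc0)).rpow (by positivity)
  have h3 := Sub.norm_rpow hF.1 hF0 ((j : ℝ) / m - c₀)
  have h4 := (h1.mul h2).mul h3
  have h5 : 1 / (m : ℝ) * 0 + (j : ℝ) / m * 0 +
      ((j : ℝ) / m - c₀) * fs (F z₀) (deriv F z₀) ^ 2 / 2 =
      ((j : ℝ) / m - c₀) * (fs (F z₀) (deriv F z₀) ^ 2 / 2) := by ring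
  rw [h5] at h4
  refine h4.congr ?_
  have hcne : ∀ᶠ z in 𝓝 z₀, c z ≠ 0 := hc_an.continuousAt.eventually_ne hc0
  have hFne : ∀ᶠ z in 𝓝 z₀, F z ≠ 0 := hF.1.continuousAt.eventually_ne hF0
  filter_upwards [hev, hcne, hFne] with z hz hcz hFz0
  have hn : ‖χ.σ (χ.q (F z))‖ = ‖(c z)⁻¹‖ * ‖F z‖ := by
    rw [← norm_smul]
    congr 1
    conv_rhs => rw [hz.2]
    rw [smul_smul, inv_mul_cancel₀ hcz, one_smul]
  have hpos : 0 < ‖F z‖ := norm_pos_iff.mpr hFz0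
  show ‖aCoef Ω χ (χ.q (F z))‖ ^ (1 / (m : ℝ)) * ‖(c z)⁻¹‖ ^ ((j : ℝ) / m) *
      ‖F z‖ ^ ((j : ℝ) / m - c₀) = ACoef Ω χ (χ.q (F z)) * ‖F z‖ ^ (-c₀)
  unfold ACoef
  rw [hn, Real.mul_rpow (norm_nonneg _) (norm_nonneg _), sub_eq_add_neg, Real.rpow_add hpos]
  ring

end Pool.Agent.H14.PP
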