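import Pool.Agent.H14.PP.SubPiece
import Pool.Agent.H14.PP.SubACoef
import Pool.Agent.H14.PP.PieceBasic

/-!
# BPm ConvChart: convexity of the metric of a chart

Let `s z, t z` be the components of `χ.q (F z)` (analytic at `z₀`), `A₀ = (j/m - c₀) fs²/2`, the
coefficient of `ACoef Ω χ (q (F z)) * ‖F z‖^(-c₀)` (`sub_ACoef`; `aCoef ≠ 0` at `z₀` because the
product with `pM` is positive: `ACoef_pos_iff`). One of the two pieces equals `pM` at `z₀`, and
`pM ≥` this piece near `z₀`, so by `Sub.mono` it is enough to treat this piece: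
* `pT ≤ pN`, `pN > 0`: then `s' ≠ 0` and (`nd = true → t ≠ 0`). If `s z₀ = 0`: `sub_pN_cusp` with
  `c = 1 - A₀`. If `s z₀ ≠ 0`: `sub_pN` and the hypothesis `hr` (with `A = A₀`).
* `pN < pT`, `nd = false`: `pT > 0` so `s ≠ 0`, `t' ≠ 0`: coefficient
  `A₀ - ε‖t'‖^2 ≥ 3 ε‖t'‖^2 > 0` (`sub_pT_false`).
* `pN < pT`, `nd = true`: `pT true P s t t' = pN true P t s t'`, the first case with `s` and `t`
  exchanged (`hr` with `(t, s)`; `small true` and the hypotheses are symmetric).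
-/

open Topology Filter Metric

namespace Pool.Agent.H14.PP

open Pool.Agent.H36.BP

variable {N : ℕ} {X K T : Set (EN N)} {m j : ℕ}

private theorem ConvChart_pN_pos {P : Par} (hκ : P.κ ≤ 1 / 4) (nd : Bool) {s t s' : ℂ}
    (h : 0 < pN nd P s t s') : s' ≠ 0 ∧ (nd = true → t ≠ 0) := by
  constructor
  · rintro rfl
    unfold pN at h
    simp at h
  · rintro rfl rfl
    unfold pN at h
    rw [norm_zero, Real.zero_rpow (by linarith)] at h
    simp at h

theorem conv_chart (hX : IsCone X) (hK : IsOpenPart X K) (hm : 1 ≤ m) (Ω : Form K m j)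
    (χ : Chart X) (nd : Bool) {P : Par} (hP : ConvPar P) {r : ℝ}
    (hr : ∀ (nd : Bool) (s t s' t' : ℂ) (A : ℝ), ‖s‖ ≤ 1 → ‖t‖ ≤ 1 →
      small nd (s, t) ≤ r → s ≠ 0 → s' ≠ 0 → (nd = true → t ≠ 0) →
      4 * P.ε * (‖s'‖ ^ 2 + ‖t'‖ ^ 2) ≤ A → pT nd P s t t' ≤ pN nd P s t s' →
      0 < A - P.ε * ‖s'‖ ^ 2 - P.K * ‖t'‖ ^ 2 +
        P.e * P.M * P.κ ^ 2 * ‖s‖ ^ (2 * P.κ - 2) * ‖s'‖ ^ 2 / (1 + P.M * ‖s‖ ^ (2 * P.κ)) ^ 2)
    {c₀ : ℝ} {F : ℂ → EN N} {z₀ : ℂ} (hF : CurveAt K F z₀)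
    (hU : F z₀ ∈ χ.U) (hq : ‖χ.q (F z₀)‖ ≤ 1) (hsm : small nd (χ.q (F z₀)) ≤ r)
    (hE : 4 * P.ε * (‖(deriv (fun z => χ.q (F z)) z₀).1‖ ^ 2 +
      ‖(deriv (fun z => χ.q (F z)) z₀).2‖ ^ 2) ≤
        ((j : ℝ) / m - c₀) * (fs (F z₀) (deriv F z₀) ^ 2 / 2))
    (hpos : 0 < ACoef Ω χ (χ.q (F z₀)) * pM nd P (χ.q (F z₀)) (deriv (fun z => χ.q (F z)) z₀)) :
    ∃ c, 0 < c ∧ Sub (fun z => ACoef Ω χ (χ.q (F z)) *
      pM nd P (χ.q (F z)) (deriv (fun z => χ.q (F z)) z) * ‖F z‖ ^ (-c₀)) z₀ c := by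
  have hM : 0 < P.M := lt_of_lt_of_le one_pos hP.M_ge
  have hκ1 : P.κ < 1 := by linarith [hP.κ_le]
  -- the point
  have hp : χ.q (F z₀) ∈ ball (0 : ℂ × ℂ) 2 := by
    rw [mem_ball_zero_iff]
    linarith
  have hAnn : 0 ≤ ACoef Ω χ (χ.q (F z₀)) := ACoef_nonneg Ω χ _
  have hMnn : 0 ≤ pM nd P (χ.q (F z₀)) (deriv (fun z => χ.q (F z)) z₀) := pM_nonneg hM.le _ _ _
  have hA0 : ACoef Ω χ (χ.q (F z₀)) ≠ 0 := fun h => by rw [h, zero_mul] at hpos; exact lt_irrefl _ hpos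
  have hM0 : pM nd P (χ.q (F z₀)) (deriv (fun z => χ.q (F z)) z₀) ≠ 0 := fun h => by
    rw [h, mul_zero] at hpos; exact lt_irrefl _ hpos
  have hApos : 0 < ACoef Ω χ (χ.q (F z₀)) := lt_of_le_of_ne hAnn (Ne.symm hA0)
  have hMpos : 0 < pM nd P (χ.q (F z₀)) (deriv (fun z => χ.q (F z)) z₀) := lt_of_le_of_ne hMnn (Ne.symm hM0)
  have ha : aCoef Ω χ (χ.q (F z₀)) ≠ 0 := (ACoef_pos_iff hX hm Ω χ hp).1 hApos
  have hA := sub_ACoef hX hK Ω χ hF hU ha c₀
  -- the curve in the chart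
  have hg : AnalyticAt ℂ (fun z => χ.q (F z)) z₀ := (χ.q_an _ hU).comp hF.1
  have hs : AnalyticAt ℂ (fun z => (χ.q (F z)).1) z₀ := analyticAt_fst.comp hg
  have ht : AnalyticAt ℂ (fun z => (χ.q (F z)).2) z₀ := analyticAt_snd.comp hg
  have hder : ∀ᶠ z in 𝓝 z₀, deriv (fun z => χ.q (F z)) z =
      (deriv (fun z => (χ.q (F z)).1) z, deriv (fun z => (χ.q (F z)).2) z) := by
    filter_upwards [hg.eventually_analyticAt] with z hz
    have h1 : HasDerivAt (fun z => χ.q (F z)) (deriv (fun z => χ.q (F z)) z) z := hz.differentiableAt.hasDerivAt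
    have h2 : HasDerivAt (fun z => (χ.q (F z)).1) (deriv (fun z => χ.q (F z)) z).1 z := h1.fst
    have h3 : HasDerivAt (fun z => (χ.q (F z)).2) (deriv (fun z => χ.q (F z)) z).2 z := h1.snd
    rw [h2.deriv, h3.deriv]
  have hder0 := hder.self_of_nhds
  have hs1 : ‖(χ.q (F z₀)).1‖ ≤ 1 := (norm_fst_le _).trans hq
  have ht1 : ‖(χ.q (F z₀)).2‖ ≤ 1 := (norm_snd_le _).trans hq
  rw [hder0] at hMpos hE
  -- it is enough to treat one piece
  have key : ∀ (p : ℂ → ℝ) (E : ℝ), Sub p z₀ E →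
      0 < ((j : ℝ) / m - c₀) * (fs (F z₀) (deriv F z₀) ^ 2 / 2) + E →
      p z₀ = pM nd P (χ.q (F z₀)) (deriv (fun z => (χ.q (F z)).1) z₀, deriv (fun z => (χ.q (F z)).2) z₀) →
      (∀ z, p z ≤ pM nd P (χ.q (F z)) (deriv (fun z => (χ.q (F z)).1) z, deriv (fun z => (χ.q (F z)).2) z)) →
      ∃ c, 0 < c ∧ Sub (fun z => ACoef Ω χ (χ.q (F z)) *
        pM nd P (χ.q (F z)) (deriv (fun z => χ.q (F z)) z) * ‖F z‖ ^ (-c₀)) z₀ c := by
    intro p E h1 h2 h3 h4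
    refine ⟨_, h2, (hA.mul h1).mono ?_ ?_⟩
    · rw [h3, hder0]
      ring
    · filter_upwards [hder] with z hz
      rw [hz]
      have h5 : 0 ≤ ACoef Ω χ (χ.q (F z)) * ‖F z‖ ^ (-c₀) :=
        mul_nonneg (ACoef_nonneg Ω χ _) (by positivity)
      calc ACoef Ω χ (χ.q (F z)) * ‖F z‖ ^ (-c₀) * p z
          ≤ ACoef Ω χ (χ.q (F z)) * ‖F z‖ ^ (-c₀) * pM nd P (χ.q (F z))
            (deriv (fun z => (χ.q (F z)).1) z, deriv (fun z => (χ.q (F z)).2) z) :=
              mul_le_mul_of_nonneg_left (h4 z) h5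
        _ = _ := by ring
  by_cases hc : pT nd P (χ.q (F z₀)).1 (χ.q (F z₀)).2 (deriv (fun z => (χ.q (F z)).2) z₀) ≤
      pN nd P (χ.q (F z₀)).1 (χ.q (F z₀)).2 (deriv (fun z => (χ.q (F z)).1) z₀)
  · -- the normal piece
    have hMe : pM nd P (χ.q (F z₀)) (deriv (fun z => (χ.q (F z)).1) z₀, deriv (fun z => (χ.q (F z)).2) z₀) =
        pN nd P (χ.q (F z₀)).1 (χ.q (F z₀)).2 (deriv (fun z => (χ.q (F z)).1) z₀) := max_eq_left hc
    rw [hMe] at hMpos
    obtain ⟨h1, h2⟩ := ConvChart_pN_pos hP.κ_le nd hMpos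
    by_cases hs0 : (χ.q (F z₀)).1 = 0
    · refine key _ _ (sub_pN_cusp hM hP.e_pos hP.κ_pos hκ1 nd hs ht hs0 h1 h2
        (1 - ((j : ℝ) / m - c₀) * (fs (F z₀) (deriv F z₀) ^ 2 / 2))) (by linarith) hMe.symm ?_
      intro z
      exact le_max_left _ _
    · refine key _ _ (sub_pN hP.ε_pos.le hM hP.e_pos hP.κ_pos hκ1 nd hs ht hs0 h1 h2) ?_ hMe.symm ?_
      · have := hr nd _ _ _ _ _ hs1 ht1 hsm hs0 h1 h2 hE hc
        linarith
      · intro z
        exact le_max_left _ _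
  · -- the tangential piece
    rw [not_le] at hc
    have hMe : pM nd P (χ.q (F z₀)) (deriv (fun z => (χ.q (F z)).1) z₀, deriv (fun z => (χ.q (F z)).2) z₀) =
        pT nd P (χ.q (F z₀)).1 (χ.q (F z₀)).2 (deriv (fun z => (χ.q (F z)).2) z₀) := max_eq_right hc.le
    rw [hMe] at hMpos
    cases nd with
    | false =>
      have h1 : (χ.q (F z₀)).1 ≠ 0 := by
        intro h0
        unfold pT at hMpos
        rw [h0, norm_zero, Real.zero_rpow (by linarith)] at hMpos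
        simp at hMpos
      have h2 : deriv (fun z => (χ.q (F z)).2) z₀ ≠ 0 := by
        intro h0
        unfold pT at hMpos
        rw [h0] at hMpos
        simp at hMpos
      refine key _ _ (sub_pT_false hκ1 hs ht h1 h2) ?_ hMe.symm ?_
      · have h3 : 0 < P.ε * ‖deriv (fun z => (χ.q (F z)).2) z₀‖ ^ 2 :=
          mul_pos hP.ε_pos (pow_pos (norm_pos_iff.2 h2) 2)
        have h4 : 0 ≤ P.ε * ‖deriv (fun z => (χ.q (F z)).1) z₀‖ ^ 2 :=
          mul_nonneg hP.ε_pos.le (by positivity)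
        have h5 := hE
        dsimp only at h5
        linarith
      · intro z
        exact le_max_right _ _
    | true =>
      have hpT : ∀ s t t' : ℂ, pT true P s t t' = pN true P t s t' := fun s t t' => by
        unfold pT
        rw [if_pos rfl]
      rw [hpT] at hMpos hc
      obtain ⟨h1, h2⟩ := ConvChart_pN_pos hP.κ_le true hMpos
      rw [hpT] at hMe
      have hsm' : small true ((χ.q (F z₀)).2, (χ.q (F z₀)).1) ≤ r := by
        have : small true ((χ.q (F z₀)).2, (χ.q (F z₀)).1) = small true (χ.q (F z₀)) := by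
          unfold small
          rw [if_pos rfl, if_pos rfl, mul_comm]
        rw [this]
        exact hsm
      by_cases hs0 : (χ.q (F z₀)).2 = 0
      · refine key _ _ (sub_pN_cusp hM hP.e_pos hP.κ_pos hκ1 true ht hs hs0 h1 h2
          (1 - ((j : ℝ) / m - c₀) * (fs (F z₀) (deriv F z₀) ^ 2 / 2))) (by linarith) hMe.symm ?_
        intro z
        rw [← hpT]
        exact le_max_right _ _
      · refine key _ _ (sub_pN hP.ε_pos.le hM hP.e_pos hP.κ_pos hκ1 true ht hs hs0 h1 h2) ?_ hMe.symm ?_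
        · have hE' : 4 * P.ε * (‖deriv (fun z => (χ.q (F z)).2) z₀‖ ^ 2 +
              ‖deriv (fun z => (χ.q (F z)).1) z₀‖ ^ 2) ≤
                ((j : ℝ) / m - c₀) * (fs (F z₀) (deriv F z₀) ^ 2 / 2) := by
            have := hE
            dsimp only at this
            linarith
          have hc' : pT true P (χ.q (F z₀)).2 (χ.q (F z₀)).1 (deriv (fun z => (χ.q (F z)).1) z₀) ≤
              pN true P (χ.q (F z₀)).2 (χ.q (F z₀)).1 (deriv (fun z => (χ.q (F z)).2) z₀) := by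
            rw [hpT]
            exact hc.le
          have := hr true _ _ _ _ _ ht1 hs1 hsm' hs0 h1 h2 hE' hc'
          linarith
        · intro z
          rw [← hpT]
          exact le_max_right _ _

end Pool.Agent.H14.PP
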