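import Pool.Agent.H14.PP.Defs

/-!
# BPm ConvNum: the numerical inequality behind the convexity

`P` with `ConvPar P`; `c₁ = exp (-K-1)/2`. Claim: there is `r > 0` such that for `‖s‖, ‖t‖ ≤ 1`,
`small nd (s,t) ≤ r`, `s ≠ 0`, `s' ≠ 0`, (`nd = true → t ≠ 0`), `A ≥ 4ε(‖s'‖^2 + ‖t'‖^2)` and
`pT nd P s t t' ≤ pN nd P s t s'`:
`A - ε‖s'‖^2 - K‖t'‖^2 + e M κ^2 ‖s‖^(2κ-2) ‖s'‖^2/(1 + M‖s‖^(2κ))^2 > 0`.

Note `(1 + M‖s‖^(2κ))^e ≤ (1+M)^e ≤ exp (ε/16)` for `‖s‖ ≤ 1` (`e_log`).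
Step 1: `c₁ ‖t'‖ ≤ ‖s‖^(κ-1) ‖s'‖`. If `nd = false`: `pT ≤ pN` gives
`‖s‖^(1-κ) ‖t'‖ exp (-ε) ≤ ‖s'‖ exp (ε/16)`. If `nd = true`:
`‖s‖^(1-κ) ‖t'‖ exp (-ε - K) ≤ ‖t‖^(1-κ) ‖s'‖ exp (ε/16) ≤ ‖s'‖ exp (ε/16)`. In both cases
`‖s‖^(1-κ) ‖t'‖ ≤ exp (K + 17ε/16) ‖s'‖ ≤ 2 exp (K+1) ‖s'‖ = c₁⁻¹ ‖s'‖`, because
`exp (1/16) ≤ 2`, `ε ≤ 1`.
Step 2, case `M‖s‖^(2κ) ≤ 1`: the last term is at least `e M κ^2 (c₁‖t'‖)^2/4 ≥ K ‖t'‖^2` by `main`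
(`‖s‖^(2κ-2)‖s'‖^2 = (‖s‖^(κ-1)‖s'‖)^2`), and `A - ε‖s'‖^2 ≥ 3ε‖s'‖^2 > 0`.
Step 3, case `M‖s‖^(2κ) > 1`: `‖s‖ > s₁ := M^(-1/(2κ))`, `0 < s₁ ≤ 1`. Let `r < s₁`. Then
`nd = true` and `‖t‖ ≤ r/s₁`. From `pT ≤ pN`:
`‖s‖^(1-κ)‖t'‖ exp (-ε-K) ≤ ‖t‖^(1-κ)‖s'‖ exp (ε/16)` so
`‖t'‖ ≤ 2 exp (K+1) (r/s₁)^(1-κ) s₁^(κ-1) ‖s'‖`; choose `r` such that the factor
`η = 2 exp (K+1) (r/s₁^2)^(1-κ)` satisfies `K η^2 ≤ ε`. Then `K‖t'‖^2 ≤ ε‖s'‖^2`, the last term is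
`≥ 0` and `A - ε‖s'‖^2 - ε‖s'‖^2 ≥ 2ε‖s'‖^2 > 0`.
-/

open Topology Filter Metric

namespace Pool.Agent.H14.PP

private theorem ConvNum_up {P : Par} (hP : ConvPar P) {a : ℝ} (ha0 : 0 ≤ a) (ha : a ≤ 1) :
    (1 + P.M * a ^ (2 * P.κ)) ^ P.e ≤ Real.exp (P.ε / 16) := by
  have hM : 0 ≤ P.M := le_trans zero_le_one hP.M_ge
  have h1 : a ^ (2 * P.κ) ≤ 1 := Real.rpow_le_one ha0 ha (by linarith [hP.κ_pos])
  have h0 : 0 ≤ a ^ (2 * P.κ) := Real.rpow_nonneg ha0 _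
  have h2 : P.M * a ^ (2 * P.κ) ≤ P.M := by nlinarith
  have h3 : 0 ≤ P.M * a ^ (2 * P.κ) := mul_nonneg hM h0
  calc (1 + P.M * a ^ (2 * P.κ)) ^ P.e ≤ (1 + P.M) ^ P.e :=
        Real.rpow_le_rpow (by linarith) (by linarith) hP.e_pos.le
    _ = Real.exp (Real.log (1 + P.M) * P.e) := Real.rpow_def_of_pos (by linarith) _
    _ ≤ Real.exp (P.ε / 16) := by
        apply Real.exp_le_exp.mpr
        have := hP.e_log
        linarith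

private theorem ConvNum_lo {P : Par} (hP : ConvPar P) {a : ℝ} (ha0 : 0 ≤ a) :
    1 ≤ (1 + P.M * a ^ (2 * P.κ)) ^ P.e := by
  have hM : 0 ≤ P.M := le_trans zero_le_one hP.M_ge
  have h0 : 0 ≤ a ^ (2 * P.κ) := Real.rpow_nonneg ha0 _
  have h3 : 0 ≤ P.M * a ^ (2 * P.κ) := mul_nonneg hM h0
  exact Real.one_le_rpow (by linarith) hP.e_pos.le

private theorem ConvNum_exp {P : Par} (hP : ConvPar P) :
    Real.exp (P.ε / 16) ≤ 2 * Real.exp (P.K + 1) * (Real.exp (-P.ε) * Real.exp (-P.K)) := by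
  have h1 : Real.exp (1 / 16) ≤ 2 := by
    have h2 : (1 : ℝ) / 16 ≤ Real.log 2 := by
      have := Real.log_two_gt_d9
      linarith
    calc Real.exp (1 / 16) ≤ Real.exp (Real.log 2) := Real.exp_le_exp.mpr h2
      _ = 2 := Real.exp_log (by norm_num)
  have h2 : 2 * Real.exp (P.K + 1) * (Real.exp (-P.ε) * Real.exp (-P.K)) =
      2 * Real.exp (1 - P.ε) := by
    rw [mul_assoc, ← Real.exp_add, ← Real.exp_add]
    congr 2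
    ring
  have h3 : Real.exp (P.ε / 16) ≤ Real.exp (1 / 16) * Real.exp (1 - P.ε) := by
    rw [← Real.exp_add]
    apply Real.exp_le_exp.mpr
    have := hP.ε_le
    linarith
  rw [h2]
  exact h3.trans (mul_le_mul_of_nonneg_right h1 (Real.exp_pos _).le)

private theorem ConvNum_key {P : Par} (hP : ConvPar P) (nd : Bool) {s t s' t' : ℂ} (hs : ‖s‖ ≤ 1)
    (ht : ‖t‖ ≤ 1) (h : pT nd P s t t' ≤ pN nd P s t s') :
    ‖s‖ ^ (1 - P.κ) * ‖t'‖ ≤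
      (if nd = true then ‖t‖ ^ (1 - P.κ) else 1) * (2 * Real.exp (P.K + 1)) * ‖s'‖ := by
  have hsU := ConvNum_up hP (norm_nonneg s) hs
  have htL := ConvNum_lo hP (norm_nonneg t)
  have hsL := ConvNum_lo hP (norm_nonneg s)
  have hex := ConvNum_exp hP
  have hs2 : ‖s‖ ^ 2 ≤ 1 := pow_le_one₀ (norm_nonneg s) hs
  have ht2 : ‖t‖ ^ 2 ≤ 1 := pow_le_one₀ (norm_nonneg t) ht
  have e1 : Real.exp (-P.ε) ≤ Real.exp (-P.ε * ‖t‖ ^ 2) := by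
    apply Real.exp_le_exp.mpr
    nlinarith [hP.ε_pos]
  have e2 : Real.exp (-P.K) ≤ Real.exp (-P.K * ‖s‖ ^ 2) := by
    apply Real.exp_le_exp.mpr
    nlinarith [hP.K_pos]
  have e3 : Real.exp (-P.K * ‖t‖ ^ 2) ≤ 1 := by
    apply Real.exp_le_one_iff.mpr
    nlinarith [hP.K_pos, sq_nonneg ‖t‖]
  have e4 : Real.exp (-P.ε * ‖s‖ ^ 2) ≤ 1 := by
    apply Real.exp_le_one_iff.mpr
    nlinarith [hP.ε_pos, sq_nonneg ‖s‖]
  have e5 : Real.exp (-P.K) ≤ 1 := by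
    apply Real.exp_le_one_iff.mpr
    linarith [hP.K_pos]
  have hS : 0 ≤ ‖s‖ ^ (1 - P.κ) := Real.rpow_nonneg (norm_nonneg s) _
  have hT : 0 ≤ ‖t‖ ^ (1 - P.κ) := Real.rpow_nonneg (norm_nonneg t) _
  have hX : 0 ≤ ‖s‖ ^ (1 - P.κ) * ‖t'‖ := mul_nonneg hS (norm_nonneg t')
  have p1 : 0 < Real.exp (-P.ε) := Real.exp_pos _
  have p2 : 0 < Real.exp (-P.K) := Real.exp_pos _
  have p3 : 0 < Real.exp (-P.K * ‖s‖ ^ 2) := Real.exp_pos _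
  have p4 : 0 < Real.exp (-P.ε * ‖t‖ ^ 2) := Real.exp_pos _
  have p5 : 0 < Real.exp (-P.ε) * Real.exp (-P.K) := mul_pos p1 p2
  have p6 : 0 < Real.exp (P.ε / 16) := Real.exp_pos _
  set Y : ℝ := (if nd = true then ‖t‖ ^ (1 - P.κ) else 1) with hY
  have hY0 : 0 ≤ Y := by
    rw [hY]
    split_ifs
    · exact hT
    · exact zero_le_one
  have hmain : ‖s‖ ^ (1 - P.κ) * ‖t'‖ * (Real.exp (-P.ε) * Real.exp (-P.K)) ≤
      Y * ‖s'‖ * Real.exp (P.ε / 16) := by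
    cases nd with
    | false =>
      simp only [pT, pN, Bool.false_eq_true, if_false] at h
      have hY1 : Y = 1 := by
        rw [hY]
        simp
      rw [hY1]
      calc ‖s‖ ^ (1 - P.κ) * ‖t'‖ * (Real.exp (-P.ε) * Real.exp (-P.K))
          ≤ ‖s‖ ^ (1 - P.κ) * ‖t'‖ * (Real.exp (-P.ε) * 1) :=
            mul_le_mul_of_nonneg_left (mul_le_mul_of_nonneg_left e5 p1.le) hX
        _ ≤ ‖s‖ ^ (1 - P.κ) * ‖t'‖ * Real.exp (-P.ε * ‖t‖ ^ 2) := by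
            rw [mul_one]
            exact mul_le_mul_of_nonneg_left e1 hX
        _ ≤ 1 * ‖s'‖ * (1 + P.M * ‖s‖ ^ (2 * P.κ)) ^ P.e * Real.exp (-P.K * ‖t‖ ^ 2) := h
        _ ≤ 1 * ‖s'‖ * Real.exp (P.ε / 16) * 1 := by
            refine mul_le_mul ?_ e3 (Real.exp_pos _).le (by positivity)
            exact mul_le_mul_of_nonneg_left hsU (by positivity)
        _ = 1 * ‖s'‖ * Real.exp (P.ε / 16) := by ring
    | true =>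
      simp only [pT, pN, if_true] at h
      have hY1 : Y = ‖t‖ ^ (1 - P.κ) := by
        rw [hY]
        simp
      rw [hY1]
      calc ‖s‖ ^ (1 - P.κ) * ‖t'‖ * (Real.exp (-P.ε) * Real.exp (-P.K))
          = ‖s‖ ^ (1 - P.κ) * Real.exp (-P.ε) * ‖t'‖ * 1 * Real.exp (-P.K) := by ring
        _ ≤ ‖s‖ ^ (1 - P.κ) * Real.exp (-P.ε * ‖t‖ ^ 2) * ‖t'‖ *
            (1 + P.M * ‖t‖ ^ (2 * P.κ)) ^ P.e * Real.exp (-P.K * ‖s‖ ^ 2) := by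
            refine mul_le_mul ?_ e2 p2.le (by positivity)
            refine mul_le_mul ?_ htL zero_le_one (by positivity)
            exact mul_le_mul_of_nonneg_right (mul_le_mul_of_nonneg_left e1 hS) (norm_nonneg _)
        _ ≤ ‖t‖ ^ (1 - P.κ) * Real.exp (-P.ε * ‖s‖ ^ 2) * ‖s'‖ *
            (1 + P.M * ‖s‖ ^ (2 * P.κ)) ^ P.e * Real.exp (-P.K * ‖t‖ ^ 2) := h
        _ ≤ ‖t‖ ^ (1 - P.κ) * 1 * ‖s'‖ * Real.exp (P.ε / 16) * 1 := by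
            refine mul_le_mul ?_ e3 (Real.exp_pos _).le (by positivity)
            refine mul_le_mul ?_ hsU (by linarith) (by positivity)
            exact mul_le_mul_of_nonneg_right (mul_le_mul_of_nonneg_left e4 hT) (norm_nonneg _)
        _ = ‖t‖ ^ (1 - P.κ) * ‖s'‖ * Real.exp (P.ε / 16) := by ring
  have h3 : ‖s‖ ^ (1 - P.κ) * ‖t'‖ * (Real.exp (-P.ε) * Real.exp (-P.K)) ≤
      (Y * (2 * Real.exp (P.K + 1)) * ‖s'‖) * (Real.exp (-P.ε) * Real.exp (-P.K)) := by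
    calc _ ≤ _ := hmain
      _ ≤ Y * ‖s'‖ * (2 * Real.exp (P.K + 1) * (Real.exp (-P.ε) * Real.exp (-P.K))) :=
          mul_le_mul_of_nonneg_left hex (mul_nonneg hY0 (norm_nonneg _))
      _ = _ := by ring
  exact le_of_mul_le_mul_right h3 p5

theorem conv_num {P : Par} (hP : ConvPar P) :
    ∃ r : ℝ, 0 < r ∧ r ≤ 1 ∧ ∀ (nd : Bool) (s t s' t' : ℂ) (A : ℝ), ‖s‖ ≤ 1 → ‖t‖ ≤ 1 →
      small nd (s, t) ≤ r → s ≠ 0 → s' ≠ 0 → (nd = true → t ≠ 0) →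
      4 * P.ε * (‖s'‖ ^ 2 + ‖t'‖ ^ 2) ≤ A → pT nd P s t t' ≤ pN nd P s t s' →
      0 < A - P.ε * ‖s'‖ ^ 2 - P.K * ‖t'‖ ^ 2 +
        P.e * P.M * P.κ ^ 2 * ‖s‖ ^ (2 * P.κ - 2) * ‖s'‖ ^ 2 / (1 + P.M * ‖s‖ ^ (2 * P.κ)) ^ 2 := by
  have hM0 : 0 < P.M := lt_of_lt_of_le one_pos hP.M_ge
  have hκ := hP.κ_pos
  have hκ4 := hP.κ_le
  have hε := hP.ε_pos
  have hK := hP.K_pos
  have he := hP.e_pos
  set s₁ : ℝ := P.M⁻¹ ^ (1 / (2 * P.κ)) with hs₁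
  have hs₁0 : 0 < s₁ := Real.rpow_pos_of_pos (inv_pos.mpr hM0) _
  have hs₁1 : s₁ ≤ 1 := Real.rpow_le_one (inv_pos.mpr hM0).le (inv_le_one_of_one_le₀ hP.M_ge)
    (by positivity)
  set E : ℝ := 2 * Real.exp (P.K + 1) with hE
  have hE0 : 0 < E := by positivity
  set δ : ℝ := min (1 / 2) (P.ε / (P.K * E ^ 2)) with hδ
  have hδ0 : 0 < δ := lt_min (by norm_num) (by positivity)
  have hδ1 : δ ≤ 1 / 2 := min_le_left _ _
  have hδ2 : P.K * E ^ 2 * δ ≤ P.ε := by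
    have h1 : δ ≤ P.ε / (P.K * E ^ 2) := min_le_right _ _
    rw [le_div_iff₀ (by positivity)] at h1
    linarith
  have hr0 : 0 < s₁ ^ 2 * δ := by positivity
  have hr1 : s₁ ^ 2 * δ < s₁ := by nlinarith
  refine ⟨s₁ ^ 2 * δ, hr0, by linarith, ?_⟩
  intro nd s t s' t' A hs ht hsm hs0 hs'0 hnd hA hle
  have ha : 0 < ‖s‖ := norm_pos_iff.mpr hs0
  have hσ : 0 < ‖s'‖ := norm_pos_iff.mpr hs'0
  have hτ : 0 ≤ ‖t'‖ := norm_nonneg _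
  have hb : 0 ≤ ‖t‖ := norm_nonneg _
  have hkey := ConvNum_key hP nd hs ht hle
  have hlast : 0 ≤ P.e * P.M * P.κ ^ 2 * ‖s‖ ^ (2 * P.κ - 2) * ‖s'‖ ^ 2 /
      (1 + P.M * ‖s‖ ^ (2 * P.κ)) ^ 2 := by
    have := Real.rpow_nonneg ha.le (2 * P.κ - 2)
    positivity
  have hA2 : 4 * P.ε * ‖s'‖ ^ 2 ≤ A := by
    have : 0 ≤ 4 * P.ε * ‖t'‖ ^ 2 := by positivity
    nlinarith
  have hεσ : 0 < P.ε * ‖s'‖ ^ 2 := by positivity
  by_cases hc : P.M * ‖s‖ ^ (2 * P.κ) ≤ 1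
  · -- step 2
    have hY : (if nd = true then ‖t‖ ^ (1 - P.κ) else 1) ≤ (1 : ℝ) := by
      split_ifs
      · exact Real.rpow_le_one hb ht (by linarith)
      · exact le_rfl
    have h1 : ‖s‖ ^ (1 - P.κ) * ‖t'‖ ≤ E * ‖s'‖ := by
      calc _ ≤ _ := hkey
        _ ≤ 1 * E * ‖s'‖ := by
            refine mul_le_mul_of_nonneg_right (mul_le_mul_of_nonneg_right hY hE0.le) hσ.le
        _ = E * ‖s'‖ := by ring
    have h2 : ‖s‖ ^ (P.κ - 1) * ‖s‖ ^ (1 - P.κ) = 1 := by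
      rw [← Real.rpow_add ha]
      have : P.κ - 1 + (1 - P.κ) = 0 := by ring
      rw [this, Real.rpow_zero]
    have h3 : ‖t'‖ ≤ E * (‖s‖ ^ (P.κ - 1) * ‖s'‖) := by
      have h4 := mul_le_mul_of_nonneg_left h1 (Real.rpow_nonneg ha.le (P.κ - 1))
      calc ‖t'‖ = ‖s‖ ^ (P.κ - 1) * ‖s‖ ^ (1 - P.κ) * ‖t'‖ := by rw [h2, one_mul]
        _ = ‖s‖ ^ (P.κ - 1) * (‖s‖ ^ (1 - P.κ) * ‖t'‖) := by ring
        _ ≤ _ := h4
        _ = _ := by ring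
    have hexp : Real.exp (-P.K - 1) / 2 * E = 1 := by
      rw [hE]
      calc Real.exp (-P.K - 1) / 2 * (2 * Real.exp (P.K + 1)) =
          Real.exp (-P.K - 1) * Real.exp (P.K + 1) := by ring
        _ = Real.exp (-P.K - 1 + (P.K + 1)) := (Real.exp_add _ _).symm
        _ = 1 := by
            have : -P.K - 1 + (P.K + 1) = 0 := by ring
            rw [this, Real.exp_zero]
    set c₁ : ℝ := Real.exp (-P.K - 1) / 2 with hc₁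
    have hc₁0 : 0 < c₁ := by positivity
    have h5 : c₁ * ‖t'‖ ≤ ‖s‖ ^ (P.κ - 1) * ‖s'‖ := by
      calc c₁ * ‖t'‖ ≤ c₁ * (E * (‖s‖ ^ (P.κ - 1) * ‖s'‖)) := mul_le_mul_of_nonneg_left h3 hc₁0.le
        _ = c₁ * E * (‖s‖ ^ (P.κ - 1) * ‖s'‖) := by ring
        _ = _ := by rw [hexp, one_mul]
    have h6 : (c₁ * ‖t'‖) ^ 2 ≤ (‖s‖ ^ (P.κ - 1) * ‖s'‖) ^ 2 :=
      pow_le_pow_left₀ (by positivity) h5 2
    have h7 : (‖s‖ ^ (P.κ - 1)) ^ 2 = ‖s‖ ^ (2 * P.κ - 2) := by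
      rw [← Real.rpow_natCast, ← Real.rpow_mul ha.le]
      congr 1
      push_cast
      ring
    have h8 : (1 + P.M * ‖s‖ ^ (2 * P.κ)) ^ 2 ≤ 4 := by
      have h9 : 0 ≤ P.M * ‖s‖ ^ (2 * P.κ) := mul_nonneg hM0.le (Real.rpow_nonneg ha.le _)
      nlinarith
    have h10 : P.K * ‖t'‖ ^ 2 ≤ P.e * P.M * P.κ ^ 2 * ‖s‖ ^ (2 * P.κ - 2) * ‖s'‖ ^ 2 /
        (1 + P.M * ‖s‖ ^ (2 * P.κ)) ^ 2 := by
      have h11 : 0 < (1 + P.M * ‖s‖ ^ (2 * P.κ)) ^ 2 := by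
        have h9 : 0 ≤ P.M * ‖s‖ ^ (2 * P.κ) := mul_nonneg hM0.le (Real.rpow_nonneg ha.le _)
        positivity
      rw [le_div_iff₀ h11]
      have hm := hP.main
      calc P.K * ‖t'‖ ^ 2 * (1 + P.M * ‖s‖ ^ (2 * P.κ)) ^ 2 ≤ P.K * ‖t'‖ ^ 2 * 4 :=
            mul_le_mul_of_nonneg_left h8 (by positivity)
        _ ≤ P.e * P.M * P.κ ^ 2 * c₁ ^ 2 / 4 * ‖t'‖ ^ 2 * 4 := by
            refine mul_le_mul_of_nonneg_right (mul_le_mul_of_nonneg_right hm (by positivity))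
              (by norm_num)
        _ = P.e * P.M * P.κ ^ 2 * (c₁ * ‖t'‖) ^ 2 := by ring
        _ ≤ P.e * P.M * P.κ ^ 2 * (‖s‖ ^ (P.κ - 1) * ‖s'‖) ^ 2 :=
            mul_le_mul_of_nonneg_left h6 (by positivity)
        _ = P.e * P.M * P.κ ^ 2 * ‖s‖ ^ (2 * P.κ - 2) * ‖s'‖ ^ 2 := by
            rw [mul_pow, h7]
            ring
    linarith
  · -- step 3
    push Not at hc
    have h1 : s₁ < ‖s‖ := by
      have h2 : P.M⁻¹ < ‖s‖ ^ (2 * P.κ) := by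
        rw [inv_lt_iff_one_lt_mul₀ hM0]
        linarith
      have h3 := Real.rpow_lt_rpow (inv_pos.mpr hM0).le h2 (z := 1 / (2 * P.κ)) (by positivity)
      rw [← Real.rpow_mul ha.le] at h3
      have h4 : 2 * P.κ * (1 / (2 * P.κ)) = 1 := by
        field_simp
      rw [h4, Real.rpow_one] at h3
      exact h3
    have hnd' : nd = true := by
      by_contra hn
      have hn2 : nd = false := by simpa using hn
      rw [hn2] at hsm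
      simp only [small, Bool.false_eq_true, if_false] at hsm
      linarith
    subst hnd'
    simp only [small, if_true] at hsm
    have hbr : ‖t‖ ≤ s₁ * δ := by
      have h2 : s₁ * ‖t‖ ≤ s₁ * (s₁ * δ) := by
        calc s₁ * ‖t‖ ≤ ‖s‖ * ‖t‖ := mul_le_mul_of_nonneg_right h1.le hb
          _ ≤ s₁ ^ 2 * δ := hsm
          _ = s₁ * (s₁ * δ) := by ring
      exact le_of_mul_le_mul_left h2 hs₁0
    simp only [if_true] at hkey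
    have h2 : s₁ ^ (1 - P.κ) * ‖t'‖ ≤ s₁ ^ (1 - P.κ) * (δ ^ (1 - P.κ) * E * ‖s'‖) := by
      calc s₁ ^ (1 - P.κ) * ‖t'‖ ≤ ‖s‖ ^ (1 - P.κ) * ‖t'‖ :=
            mul_le_mul_of_nonneg_right (Real.rpow_le_rpow hs₁0.le h1.le (by linarith)) hτ
        _ ≤ ‖t‖ ^ (1 - P.κ) * E * ‖s'‖ := hkey
        _ ≤ (s₁ * δ) ^ (1 - P.κ) * E * ‖s'‖ := by
            refine mul_le_mul_of_nonneg_right (mul_le_mul_of_nonneg_right ?_ hE0.le) hσ.le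
            exact Real.rpow_le_rpow hb hbr (by linarith)
        _ = _ := by
            rw [Real.mul_rpow hs₁0.le hδ0.le]
            ring
    have h3 : ‖t'‖ ≤ δ ^ (1 - P.κ) * E * ‖s'‖ :=
      le_of_mul_le_mul_left h2 (Real.rpow_pos_of_pos hs₁0 _)
    have h4 : ‖t'‖ ^ 2 ≤ (δ ^ (1 - P.κ) * E * ‖s'‖) ^ 2 := pow_le_pow_left₀ hτ h3 2
    have h5 : (δ ^ (1 - P.κ)) ^ 2 ≤ δ := by
      rw [← Real.rpow_natCast, ← Real.rpow_mul hδ0.le]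
      calc δ ^ ((1 - P.κ) * ((2 : ℕ) : ℝ)) ≤ δ ^ (1 : ℝ) := by
            apply Real.rpow_le_rpow_of_exponent_ge hδ0 (by linarith)
            push_cast
            linarith
        _ = δ := Real.rpow_one _
    have h6 : P.K * ‖t'‖ ^ 2 ≤ P.ε * ‖s'‖ ^ 2 := by
      calc P.K * ‖t'‖ ^ 2 ≤ P.K * (δ ^ (1 - P.κ) * E * ‖s'‖) ^ 2 :=
            mul_le_mul_of_nonneg_left h4 hK.le
        _ = P.K * E ^ 2 * (δ ^ (1 - P.κ)) ^ 2 * ‖s'‖ ^ 2 := by ring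
        _ ≤ P.K * E ^ 2 * δ * ‖s'‖ ^ 2 := by
            refine mul_le_mul_of_nonneg_right (mul_le_mul_of_nonneg_left h5 (by positivity))
              (by positivity)
        _ ≤ P.ε * ‖s'‖ ^ 2 := mul_le_mul_of_nonneg_right hδ2 (by positivity)
    linarith

end Pool.Agent.H14.PP
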