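import Pool.Agent.H14.PP.CurveBasic
import Pool.Agent.H36.BP.SubC

/-!
# BPm FarSub: lower supports for the far piece

`rho Q D (F z)^M' * fs (F z) (F' z) * ‖F z‖^(-c₀) =
  ‖Q (F z)‖^M' * ‖F z‖^(-(M' D)) * fs (F z) (F' z) * ‖F z‖^(-c₀)`.
`‖Q (F z)‖` has coefficient `≥ 0`: the norm of an analytic function with values in an inner product
space which does not vanish at `z₀`; lower support `z ↦ ⟪e, Q (F z)⟫`, `e = Q (F z₀)/‖Q (F z₀)‖`
(Cauchy–Schwarz), `M'` factors (`Sub.rpow` or induction);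
`‖F‖^(-(M' D))` has `-(M' D) e^2/2`, `fs` has `-e^2`, `‖F‖^(-c₀)` has `-c₀ e^2/2` (`Sub.norm_rpow`,
`Sub.fs_curve`), `e = fs (F z₀) (F' z₀)`.
-/

open Topology Filter Metric

namespace Pool.Agent.H14.PP

open Pool.Agent.H36.BP

variable {N : ℕ} {W : Type*} [NormedAddCommGroup W] [InnerProductSpace ℂ W]
  {X K T : Set (EN N)} {Q : EN N → W} {D M' : ℕ}

/-- The norm of a holomorphic function with values in an inner product space. -/
private theorem FarSub_norm {G : ℂ → W} {z₀ : ℂ} (hG : AnalyticAt ℂ G z₀) (h0 : G z₀ ≠ 0) :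
    Sub (fun z => ‖G z‖) z₀ 0 := by
  have hn : ‖G z₀‖ ≠ 0 := norm_ne_zero_iff.2 h0
  set e : W := ((‖G z₀‖ : ℂ)⁻¹) • G z₀ with he
  have hen : ‖e‖ = 1 := by
    rw [he, norm_smul, norm_inv, Complex.norm_real, norm_norm, inv_mul_cancel₀ hn]
  have hk : AnalyticAt ℂ (fun z => (inner ℂ e (G z) : ℂ)) z₀ := by
    have h1 : AnalyticAt ℂ (fun w : W => innerSL ℂ e w) (G z₀) := (innerSL ℂ e).analyticAt _
    exact h1.comp hG
  have hk0 : ‖(inner ℂ e (G z₀) : ℂ)‖ = ‖G z₀‖ := by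
    rw [he, inner_smul_left, inner_self_eq_norm_sq_to_K, norm_mul, norm_pow]
    simp only [map_inv₀, norm_inv]
    rw [RCLike.norm_conj]
    simp only [Complex.norm_real, norm_norm, Complex.coe_algebraMap]
    field_simp
  have hkne : (inner ℂ e (G z₀) : ℂ) ≠ 0 := by
    rw [← norm_ne_zero_iff, hk0]
    exact hn
  refine (Sub.of_holo hk hkne).mono hk0 (Filter.Eventually.of_forall fun z => ?_)
  calc ‖(inner ℂ e (G z) : ℂ)‖ ≤ ‖e‖ * ‖G z‖ := norm_inner_le_norm _ _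
    _ = ‖G z‖ := by rw [hen, one_mul]

theorem sub_far (hX : IsCone X) (hQ : ∀ x, AnalyticAt ℂ Q x) {F : ℂ → EN N} {z₀ : ℂ}
    (hF : CurveAt X F z₀) (h0 : 0 < rho Q D (F z₀)) (h1 : 0 < fs (F z₀) (deriv F z₀)) {c₀ : ℝ}
    (hc₀ : 0 ≤ c₀) :
    Sub (fun z => rho Q D (F z) ^ M' * fs (F z) (deriv F z) * ‖F z‖ ^ (-c₀)) z₀
      (-((M' * D + 2 + c₀) * (fs (F z₀) (deriv F z₀) ^ 2 / 2))) := by
  have hF0 : F z₀ ≠ 0 := hX.ne_zero hF.mem
  have hQ0 : Q (F z₀) ≠ 0 := by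
    intro h
    rw [rho, h, norm_zero, zero_div] at h0
    exact lt_irrefl _ h0
  have hQF : AnalyticAt ℂ (fun z => Q (F z)) z₀ := (hQ (F z₀)).comp hF.1
  have s1 : Sub (fun z => ‖Q (F z)‖ ^ (M' : ℝ)) z₀ ((M' : ℝ) * 0) :=
    (FarSub_norm hQF hQ0).rpow (Nat.cast_nonneg M')
  have s2 := Sub.norm_rpow hF.1 hF0 (-((M' : ℝ) * D + c₀))
  have s3 := Sub.fs_curve hF.1 h1
  have s := (s1.mul s2).mul s3
  refine (s.congr ?_).anti (le_of_eq (by ring))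
  filter_upwards [hF.2] with z hz
  have hz0 : 0 < ‖F z‖ := norm_pos_iff.2 (hX.ne_zero hz)
  rw [rho, div_pow, ← pow_mul, Real.rpow_natCast]
  have e1 : -((M' : ℝ) * D + c₀) = -((D * M' : ℕ) : ℝ) + -c₀ := by
    push_cast
    ring
  rw [e1, Real.rpow_add hz0, Real.rpow_neg hz0.le, Real.rpow_natCast]
  field_simp

end Pool.Agent.H14.PP
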