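import Pool.Agent.H14.PP.GDef

/-!
# BPm GRules: the metric, homogeneity, invariance, vanishing along `T`

* `GG_smul`: every piece is homogeneous (`fs_smul_right`, `pM_smul`, linearity of `fderiv`),
  `Real.mul_iSup_of_nonneg`.
* `GG_scale`: every piece is invariant (`fs_inv`, `rho_smul`, `smul_U`, `q_smul`,
  `Chart.fderiv_q_smul`, `IsCone.smul_mem` (for `c` and `c⁻¹`, so membership in `X` and `U` is
  equivalent)).
* `GG_zero`: let `F` be a curve in `T` near `z₀`, `x = F z₀`. The far piece vanishes: `Q x = 0`, so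
  `rho = 0` and `M' ≥ 1`. Near piece `i` (at `x` with `x ∈ U`, `‖q x‖ ≤ 1`): `s, t` the components of
  `q ∘ F`, analytic at `z₀`, `fderiv ℂ q x (F' z₀) = (s', t')` (`Chart.curve`). Near `z₀`,
  `F z = c z • σ (q (F z)) ∈ T`, `T` is a cone (`IsEq.smul_mem`), so `σ (q (F z)) ∈ T`
  and by `HasType` `s z = 0` (or `nd = true` and `t z = 0`). If `nd = false`: `s = 0` near `z₀`, so
  `s' = 0` and `pN = 0`, `pT = ‖0‖^(1-κ) * .. = 0`. If `nd = true`: if `t z₀ ≠ 0` then `s = 0` near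
  `z₀`, same conclusion; if `s z₀ ≠ 0` then `t = 0` near `z₀`, symmetric; if `s z₀ = t z₀ = 0` then both
  pieces contain the factor `0^(1-κ) = 0`.
-/

open Topology Filter Metric

namespace Pool.Agent.H14.PP

open Pool.Agent.H36.BP

variable {N : ℕ} {W : Type*} [NormedAddCommGroup W] [InnerProductSpace ℂ W]
  {X K T : Set (EN N)} {m j : ℕ} {Ω : Form K m j} {n : ℕ} {χ : Fin n → Chart X}
  {nd : Fin n → Bool} {P : Par} {Q : EN N → W} {D M' : ℕ} {δ c₁ : ℝ}

private theorem GRules_piece_smul (k : Option (Fin n)) (x v : EN N) (c : ℂ) :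
    pieceG Ω χ nd P Q D M' δ c₁ k x (c • v) = ‖c‖ * pieceG Ω χ nd P Q D M' δ c₁ k x v := by
  cases k with
  | none =>
    simp only [pieceG]
    rw [fs_smul_right]
    ring
  | some i =>
    simp only [pieceG, nearG]
    split_ifs
    · rw [map_smul, pM_smul]
      ring
    · ring

theorem GG_smul (x v : EN N) (c : ℂ) :
    GG Ω χ nd P Q D M' δ c₁ x (c • v) = ‖c‖ * GG Ω χ nd P Q D M' δ c₁ x v := by
  unfold GG
  rw [Real.mul_iSup_of_nonneg (norm_nonneg c)]
  exact iSup_congr fun k => GRules_piece_smul k x v c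

private theorem GRules_piece_scale (hX : IsCone X) (hQ : IsEq X T Q D) {x : EN N} (hx : x ∈ X)
    (v : EN N) {c : ℂ} (a : ℂ) (hc : c ≠ 0) (k : Option (Fin n)) :
    pieceG Ω χ nd P Q D M' δ c₁ k (c • x) (c • v + a • x) =
      pieceG Ω χ nd P Q D M' δ c₁ k x v := by
  cases k with
  | none =>
    simp only [pieceG]
    rw [rho_smul hQ.smul hc, fs_inv (hX.ne_zero hx) v hc a]
  | some i =>
    simp only [pieceG, nearG]
    rw [rho_smul hQ.smul hc]
    by_cases hU : x ∈ (χ i).U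
    · have hU' : c • x ∈ (χ i).U := (χ i).smul_U x hU c hc
      have hX' : c • x ∈ X := hX.smul_mem x hx c hc
      rw [(χ i).q_smul x hU c hc, (χ i).fderiv_q_smul hU v hc a]
      simp only [hU, hU', hX', hx]
    · have hU' : c • x ∉ (χ i).U := by
        intro h
        apply hU
        have h1 := (χ i).smul_U _ h c⁻¹ (inv_ne_zero hc)
        rwa [smul_smul, inv_mul_cancel₀ hc, one_smul] at h1
      rw [if_neg fun h => hU' h.2.1, if_neg fun h => hU h.2.1]

theorem GG_scale (hX : IsCone X) (hQ : IsEq X T Q D) {x : EN N} (hx : x ∈ X) (v : EN N) {c : ℂ}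
    (a : ℂ) (hc : c ≠ 0) : GG Ω χ nd P Q D M' δ c₁ (c • x) (c • v + a • x) =
      GG Ω χ nd P Q D M' δ c₁ x v := by
  unfold GG
  exact iSup_congr fun k => GRules_piece_scale hX hQ hx v a hc k

private theorem GRules_pN_zero (nd : Bool) (P : Par) (s t : ℂ) : pN nd P s t 0 = 0 := by
  unfold pN
  rw [norm_zero, mul_zero, zero_mul, zero_mul]

private theorem GRules_pN_zero' {P : Par} (hκ : P.κ ≤ 1 / 4) (s s' : ℂ) : pN true P s 0 s' = 0 := by
  have h1 : (1 : ℝ) - P.κ ≠ 0 := by linarith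
  unfold pN
  rw [if_pos rfl, norm_zero, Real.zero_rpow h1, zero_mul, zero_mul, zero_mul, zero_mul]

/-- the piece vanishes along a curve in `T` -/
private theorem GRules_pM_zero {nd : Bool} {P : Par} (hκ : P.κ ≤ 1 / 4) {s t : ℂ → ℂ} {z₀ : ℂ}
    (hs : AnalyticAt ℂ s z₀) (ht : AnalyticAt ℂ t z₀)
    (h : ∀ᶠ z in 𝓝 z₀, s z = 0 ∨ (nd = true ∧ t z = 0)) :
    pM nd P (s z₀, t z₀) (deriv s z₀, deriv t z₀) = 0 := by
  have key0 : ∀ u : ℂ → ℂ, (∀ᶠ z in 𝓝 z₀, u z = 0) → u z₀ = 0 ∧ deriv u z₀ = 0 := by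
    intro u hu
    refine ⟨hu.self_of_nhds, ?_⟩
    have h1 : u =ᶠ[𝓝 z₀] fun _ => (0 : ℂ) := hu
    rw [h1.deriv_eq, deriv_const]
  have h1κ : (1 : ℝ) - P.κ ≠ 0 := by linarith
  cases nd with
  | false =>
    have h1 : ∀ᶠ z in 𝓝 z₀, s z = 0 := by
      filter_upwards [h] with z hz
      rcases hz with hz | ⟨hz, -⟩
      · exact hz
      · exact absurd hz (by decide)
    obtain ⟨e1, e2⟩ := key0 s h1
    unfold pM
    simp only
    rw [e1, e2, GRules_pN_zero]
    unfold pT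
    rw [if_neg (by decide), norm_zero, Real.zero_rpow h1κ, zero_mul, zero_mul, max_self]
  | true =>
    have hpT : ∀ a b d : ℂ, pT true P a b d = pN true P b a d := by
      intro a b d
      unfold pT
      rw [if_pos rfl]
    by_cases ht0 : t z₀ = 0
    · by_cases hs0 : s z₀ = 0
      · unfold pM
        simp only
        rw [hpT, hs0, ht0, GRules_pN_zero' hκ, GRules_pN_zero' hκ, max_self]
      · have h1 : ∀ᶠ z in 𝓝 z₀, t z = 0 := by
          filter_upwards [h, hs.continuousAt.eventually_ne hs0] with z hz hz'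
          rcases hz with hz | ⟨-, hz⟩
          · exact absurd hz hz'
          · exact hz
        obtain ⟨e1, e2⟩ := key0 t h1
        unfold pM
        simp only
        rw [hpT, e1, e2, GRules_pN_zero' hκ, GRules_pN_zero, max_self]
    · have h1 : ∀ᶠ z in 𝓝 z₀, s z = 0 := by
        filter_upwards [h, ht.continuousAt.eventually_ne ht0] with z hz hz'
        rcases hz with hz | ⟨-, hz⟩
        · exact hz
        · exact absurd hz hz'
      obtain ⟨e1, e2⟩ := key0 s h1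
      unfold pM
      simp only
      rw [hpT, e1, e2, GRules_pN_zero' hκ, GRules_pN_zero, max_self]

private theorem GRules_near_zero (hX : IsCone X) (hQ : IsEq X T Q D) (hκ : P.κ ≤ 1 / 4)
    (hT : ∀ i, HasType T (χ i) (nd i)) {F : ℂ → EN N} {z₀ : ℂ} (hF : CurveAt T F z₀) (i : Fin n) :
    nearG Ω χ nd P Q D δ i (F z₀) (deriv F z₀) = 0 := by
  unfold nearG
  split_ifs with hcond
  · obtain ⟨-, hU, -, -⟩ := hcond
    have hTX : T ⊆ X := fun y hy => ((hQ.mem_iff y).mp hy).1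
    obtain ⟨h1, h2, c, hc, hc0, h3⟩ := (χ i).curve hX (hF.mono hTX) hU
    have hs : AnalyticAt ℂ (fun z => ((χ i).q (F z)).1) z₀ := by
      have h4 : AnalyticAt ℂ (fun p : ℂ × ℂ => p.1) ((fun z => (χ i).q (F z)) z₀) := analyticAt_fst
      exact AnalyticAt.comp (g := fun p : ℂ × ℂ => p.1) (f := fun z => (χ i).q (F z)) h4 h1
    have ht : AnalyticAt ℂ (fun z => ((χ i).q (F z)).2) z₀ := by
      have h4 : AnalyticAt ℂ (fun p : ℂ × ℂ => p.2) ((fun z => (χ i).q (F z)) z₀) := analyticAt_snd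
      exact AnalyticAt.comp (g := fun p : ℂ × ℂ => p.2) (f := fun z => (χ i).q (F z)) h4 h1
    have h5 : ∀ᶠ z in 𝓝 z₀, ((χ i).q (F z)).1 = 0 ∨ (nd i = true ∧ ((χ i).q (F z)).2 = 0) := by
      filter_upwards [h3, hc.continuousAt.eventually_ne hc0, hF.2] with z hz hcz hzT
      obtain ⟨hz1, hz2⟩ := hz
      apply (hT i _ hz1).mp
      have h6 := hQ.smul_mem hX hzT (inv_ne_zero hcz)
      rw [hz2, smul_smul, inv_mul_cancel₀ hcz, one_smul] at h6
      exact h6
    have h7 : fderiv ℂ (χ i).q (F z₀) (deriv F z₀) =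
        (deriv (fun z => ((χ i).q (F z)).1) z₀, deriv (fun z => ((χ i).q (F z)).2) z₀) := by
      rw [← h2]
      have hd : HasDerivAt (fun z => (χ i).q (F z)) (deriv (fun z => (χ i).q (F z)) z₀) z₀ :=
        h1.differentiableAt.hasDerivAt
      ext
      · exact (hasFDerivAt_fst.comp_hasDerivAt z₀ hd).deriv.symm
      · exact (hasFDerivAt_snd.comp_hasDerivAt z₀ hd).deriv.symm
    have h8 := GRules_pM_zero hκ hs ht h5
    rw [h7]
    have h9 : (χ i).q (F z₀) = (((χ i).q (F z₀)).1, ((χ i).q (F z₀)).2) := rfl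
    rw [h9, h8, mul_zero]
  · rfl

theorem GG_zero (hX : IsCone X) (hQ : IsEq X T Q D) (hM' : 1 ≤ M') (hκ : P.κ ≤ 1 / 4)
    (hT : ∀ i, HasType T (χ i) (nd i)) {F : ℂ → EN N} {z₀ : ℂ} (hF : CurveAt T F z₀) :
    GG Ω χ nd P Q D M' δ c₁ (F z₀) (deriv F z₀) = 0 := by
  obtain ⟨k, hk⟩ := exists_GG_eq (Ω := Ω) (χ := χ) (nd := nd) (P := P) (Q := Q) (D := D)
    (M' := M') (δ := δ) (c₁ := c₁) (F z₀) (deriv F z₀)
  rw [hk]
  cases k with
  | none =>
    simp only [pieceG]
    have h1 : Q (F z₀) = 0 := ((hQ.mem_iff _).mp hF.mem).2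
    have h2 : rho Q D (F z₀) = 0 := by
      unfold rho
      rw [h1, norm_zero, zero_div]
    rw [h2, zero_pow (by omega), zero_mul]
  | some i =>
    simp only [pieceG]
    rw [GRules_near_zero hX hQ hκ hT hF i, mul_zero]

end Pool.Agent.H14.PP
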