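import Pool.Agent.H14.PP.GDef
import Pool.Agent.H14.PP.ChartClosed

/-!
# BPm GUsc: the metric is upper semicontinuous

A finite maximum (`exists_GG_eq`): it is enough to show for every `k`: if
`pieceG k x v < a` then `pieceG k y w < a` for `(y, w)` near `(x, v)`, `y ∈ K`.
Far piece: continuous (`continuousAt_rho`, `continuousAt_fs`, `x ≠ 0`). Near piece `i`:
* if `x ∈ U`, `‖q x‖ ≤ 1`, `rho x ≤ δ`: the formula
  `φ (y, v') = c₁ ACoef Ω (χ i) (q y) * pM (nd i) P (q y) (fderiv ℂ q y v')` is continuous at `(x, v)`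
  (`continuousAt_ACoef` at `q x`, `‖q x‖ < 2`, `σ (q x) ∈ K` by `Chart.sigma_mem_iff`;
  `continuous_pM`; `q` is analytic at `x`, so `y ↦ fderiv ℂ q y` is continuous at `x`), and
  `pieceG (some i) ≤ φ` everywhere (`φ ≥ 0`), with equality at `(x, v)`.
* otherwise the set `S = {y ∈ X | y ∈ U, ‖q y‖ ≤ 1, rho y ≤ δ}` is closed in `X` (`Chart.isClosed`
  with `r = 1`, `continuousAt_rho`) and does not contain `x`, so the piece is `0` for all
  `y ∈ X` close to `x`, as it is at `x`.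
-/

open Topology Filter Metric

namespace Pool.Agent.H14.PP

open Pool.Agent.H36.BP

variable {N : ℕ} {W : Type*} [NormedAddCommGroup W] [InnerProductSpace ℂ W]
  {X K T : Set (EN N)} {m j : ℕ} {Ω : Form K m j} {n : ℕ} {χ : Fin n → Chart X}
  {nd : Fin n → Bool} {P : Par} {Q : EN N → W} {D M' : ℕ} {δ c₁ : ℝ}

private theorem GUsc_far (hX : IsCone X) (hK : IsOpenPart X K) (hQ : IsEq X T Q D) {x : EN N}
    (hx : x ∈ K) (v : EN N) {a : ℝ} (ha : rho Q D x ^ M' * fs x v < a) :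
    ∀ᶠ p : EN N × EN N in 𝓝 (x, v), rho Q D p.1 ^ M' * fs p.1 p.2 < a := by
  have hx0 : x ≠ 0 := hX.ne_zero (hK.subset hx)
  have h1 : ContinuousAt (fun p : EN N × EN N => rho Q D p.1) (x, v) :=
    ContinuousAt.comp (g := rho Q D) (f := fun p : EN N × EN N => p.1)
      (continuousAt_rho hQ.analytic hx0) continuousAt_fst
  have h2 : ContinuousAt (fun p : EN N × EN N => rho Q D p.1 ^ M' * fs p.1 p.2) (x, v) :=
    (h1.pow M').mul (continuousAt_fs hx0 v)
  exact h2.eventually (gt_mem_nhds ha)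

omit [InnerProductSpace ℂ W] in
private theorem GUsc_zero {i : Fin n} {y : EN N} (h : ¬ (y ∈ X ∧ y ∈ (χ i).U ∧ ‖(χ i).q y‖ ≤ 1 ∧
    rho Q D y ≤ δ)) (w : EN N) : nearG Ω χ nd P Q D δ i y w = 0 := by
  unfold nearG
  rw [if_neg h]

private theorem GUsc_near (hX : IsCone X) (hK : IsOpenPart X K) (hQ : IsEq X T Q D)
    (hP : ConvPar P) (hc₁ : 0 ≤ c₁) (i : Fin n) {x : EN N} (hx : x ∈ K) (v : EN N) {a : ℝ}
    (ha0 : 0 < a) (ha : c₁ * nearG Ω χ nd P Q D δ i x v < a) :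
    ∀ᶠ p : EN N × EN N in 𝓝 (x, v), c₁ * nearG Ω χ nd P Q D δ i p.1 p.2 < a := by
  have hxX : x ∈ X := hK.subset hx
  have hx0 : x ≠ 0 := hX.ne_zero hxX
  have hM : 0 ≤ P.M := by
    have := hP.M_ge
    linarith
  have hfst : Tendsto (fun p : EN N × EN N => p.1) (𝓝 (x, v)) (𝓝 x) := continuousAt_fst
  by_cases hS : x ∈ insert (0 : EN N) {x | x ∈ X ∧ x ∈ (χ i).U ∧ ‖(χ i).q x‖ ≤ 1}
  · obtain ⟨-, hU, hq⟩ : x ∈ X ∧ x ∈ (χ i).U ∧ ‖(χ i).q x‖ ≤ 1 := hS.resolve_left hx0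
    by_cases hρ : rho Q D x ≤ δ
    · rw [nearG_of_mem hxX hU hq hρ] at ha
      have hb : (χ i).q x ∈ ball (0 : ℂ × ℂ) 2 := by
        rw [mem_ball_zero_iff]
        linarith
      have hσK : (χ i).σ ((χ i).q x) ∈ K :=
        (Chart.sigma_mem_iff (χ i) hxX hU (S := K) hK.smul_mem).2 hx
      have hqc : ContinuousAt (fun p : EN N × EN N => (χ i).q p.1) (x, v) :=
        ContinuousAt.comp (g := (χ i).q) (f := fun p : EN N × EN N => p.1)
          ((χ i).q_an x hU).continuousAt continuousAt_fst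
      have hA : ContinuousAt (fun p : EN N × EN N => ACoef Ω (χ i) ((χ i).q p.1)) (x, v) :=
        ContinuousAt.comp (g := ACoef Ω (χ i)) (f := fun p : EN N × EN N => (χ i).q p.1)
          (continuousAt_ACoef hK Ω (χ i) hb hσK) hqc
      have hD : ContinuousAt (fun p : EN N × EN N => fderiv ℂ (χ i).q p.1 p.2) (x, v) := by
        have h1 : ContinuousAt (fun p : EN N × EN N => fderiv ℂ (χ i).q p.1) (x, v) :=
          ContinuousAt.comp (g := fderiv ℂ (χ i).q) (f := fun p : EN N × EN N => p.1)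
            ((χ i).q_an x hU).fderiv.continuousAt continuousAt_fst
        exact h1.clm_apply continuousAt_snd
      have hpM : ContinuousAt (fun p : EN N × EN N =>
          pM (nd i) P ((χ i).q p.1) (fderiv ℂ (χ i).q p.1 p.2)) (x, v) := by
        have h1 := continuous_pM hM hP.κ_pos.le hP.κ_le (nd i)
        exact ContinuousAt.comp
          (g := fun y : (ℂ × ℂ) × (ℂ × ℂ) => pM (nd i) P y.1 y.2)
          (f := fun p : EN N × EN N => ((χ i).q p.1, fderiv ℂ (χ i).q p.1 p.2))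
          h1.continuousAt (hqc.prodMk hD)
      have hφ : ContinuousAt (fun p : EN N × EN N => c₁ * (ACoef Ω (χ i) ((χ i).q p.1) *
          pM (nd i) P ((χ i).q p.1) (fderiv ℂ (χ i).q p.1 p.2))) (x, v) :=
        continuousAt_const.mul (hA.mul hpM)
      filter_upwards [hφ.eventually (gt_mem_nhds ha)] with p hp
      refine lt_of_le_of_lt (mul_le_mul_of_nonneg_left ?_ hc₁) hp
      by_cases h : p.1 ∈ X ∧ p.1 ∈ (χ i).U ∧ ‖(χ i).q p.1‖ ≤ 1 ∧ rho Q D p.1 ≤ δ
      · rw [nearG_of_mem h.1 h.2.1 h.2.2.1 h.2.2.2]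
      · rw [GUsc_zero h]
        exact mul_nonneg (ACoef_nonneg _ _ _) (pM_nonneg hM _ _ _)
    · push Not at hρ
      have h1 : ∀ᶠ y in 𝓝 x, δ < rho Q D y :=
        (continuousAt_rho hQ.analytic hx0).eventually (lt_mem_nhds hρ)
      filter_upwards [hfst.eventually h1] with p hp
      rw [GUsc_zero (fun h => absurd h.2.2.2 (not_le.2 hp)), mul_zero]
      exact ha0
  · have h1 : ∀ᶠ y in 𝓝 x, y ∉ insert (0 : EN N) {x | x ∈ X ∧ x ∈ (χ i).U ∧ ‖(χ i).q x‖ ≤ 1} :=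
      (Chart.isClosed hX (χ i) zero_le_one one_lt_two).isOpen_compl.mem_nhds hS
    filter_upwards [hfst.eventually h1] with p hp
    rw [GUsc_zero (fun h => hp (Or.inr ⟨h.1, h.2.1, h.2.2.1⟩)), mul_zero]
    exact ha0

theorem GG_usc (hX : IsCone X) (hK : IsOpenPart X K) (hQ : IsEq X T Q D) (hP : ConvPar P)
    (hc₁ : 0 ≤ c₁) {x : EN N} (hx : x ∈ K) (v : EN N) {a : ℝ}
    (ha : GG Ω χ nd P Q D M' δ c₁ x v < a) :
    ∀ᶠ p : EN N × EN N in 𝓝 (x, v), p.1 ∈ K → GG Ω χ nd P Q D M' δ c₁ p.1 p.2 < a := by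
  have ha0 : 0 < a := lt_of_le_of_lt (GG_nonneg x v) ha
  have hk : ∀ k, ∀ᶠ p : EN N × EN N in 𝓝 (x, v), pieceG Ω χ nd P Q D M' δ c₁ k p.1 p.2 < a := by
    intro k
    have h1 : pieceG Ω χ nd P Q D M' δ c₁ k x v < a := lt_of_le_of_lt (pieceG_le_GG k x v) ha
    match k with
    | none => exact GUsc_far hX hK hQ hx v h1
    | some i => exact GUsc_near hX hK hQ hP hc₁ i hx v ha0 h1
  filter_upwards [Filter.eventually_all.2 hk] with p hp _
  obtain ⟨k, hk'⟩ := exists_GG_eq (Ω := Ω) (χ := χ) (nd := nd) (P := P) (Q := Q) (D := D)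
    (M' := M') (δ := δ) (c₁ := c₁) p.1 p.2
  rw [hk']
  exact hp k

end Pool.Agent.H14.PP
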