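import Pool.Agent.H14.PP.PieceBasic
import Pool.Agent.H14.PP.FormChart

/-!
# BPm GDef: the metric

`nearG i` is the metric of the chart `χ i`, restricted to `‖q‖ ≤ 1`, `rho ≤ δ`;
`pieceG none` is the far piece, `pieceG (some i) = c₁ * nearG i`, `GG` the maximum of the pieces (a
supremum over the finite nonempty type `Option (Fin n)`).
-/

open Topology Filter Metric

namespace Pool.Agent.H14.PP

open Pool.Agent.H36.BP

variable {N : ℕ} {W : Type*} [NormedAddCommGroup W] [InnerProductSpace ℂ W]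
  {X K T : Set (EN N)} {m j : ℕ}

section defs

variable (Ω : Form K m j) {n : ℕ} (χ : Fin n → Chart X) (nd : Fin n → Bool) (P : Par)
  (Q : EN N → W) (D M' : ℕ) (δ c₁ : ℝ)

open Classical in
/-- The metric of the chart `i`. -/
noncomputable def nearG (i : Fin n) (x v : EN N) : ℝ :=
  if x ∈ X ∧ x ∈ (χ i).U ∧ ‖(χ i).q x‖ ≤ 1 ∧ rho Q D x ≤ δ then
    ACoef Ω (χ i) ((χ i).q x) * pM (nd i) P ((χ i).q x) (fderiv ℂ (χ i).q x v)
  else 0

/-- The pieces. -/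
noncomputable def pieceG (k : Option (Fin n)) (x v : EN N) : ℝ :=
  match k with
  | none => rho Q D x ^ M' * fs x v
  | some i => c₁ * nearG Ω χ nd P Q D δ i x v

/-- The metric. -/
noncomputable def GG (x v : EN N) : ℝ := ⨆ k, pieceG Ω χ nd P Q D M' δ c₁ k x v

end defs

variable {Ω : Form K m j} {n : ℕ} {χ : Fin n → Chart X} {nd : Fin n → Bool} {P : Par}
  {Q : EN N → W} {D M' : ℕ} {δ c₁ : ℝ}

theorem pieceG_le_GG (k : Option (Fin n)) (x v : EN N) :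
    pieceG Ω χ nd P Q D M' δ c₁ k x v ≤ GG Ω χ nd P Q D M' δ c₁ x v :=
  le_ciSup (f := fun k => pieceG Ω χ nd P Q D M' δ c₁ k x v) (Set.finite_range _).bddAbove k

theorem exists_GG_eq (x v : EN N) :
    ∃ k, GG Ω χ nd P Q D M' δ c₁ x v = pieceG Ω χ nd P Q D M' δ c₁ k x v := by
  obtain ⟨k, hk⟩ := exists_eq_ciSup_of_finite (f := fun k => pieceG Ω χ nd P Q D M' δ c₁ k x v)
  exact ⟨k, hk.symm⟩

theorem nearG_of_mem {i : Fin n} {x : EN N} (h1 : x ∈ X) (h2 : x ∈ (χ i).U)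
    (h3 : ‖(χ i).q x‖ ≤ 1) (h4 : rho Q D x ≤ δ) (v : EN N) : nearG Ω χ nd P Q D δ i x v =
      ACoef Ω (χ i) ((χ i).q x) * pM (nd i) P ((χ i).q x) (fderiv ℂ (χ i).q x v) := by
  unfold nearG
  rw [if_pos ⟨h1, h2, h3, h4⟩]

theorem mem_of_nearG_pos {i : Fin n} {x v : EN N} (h : 0 < nearG Ω χ nd P Q D δ i x v) :
    x ∈ X ∧ x ∈ (χ i).U ∧ ‖(χ i).q x‖ ≤ 1 ∧ rho Q D x ≤ δ := by
  unfold nearG at h
  split_ifs at h with h1
  · exact h1
  · exact absurd h (lt_irrefl 0)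

theorem nearG_nonneg (hM : 0 ≤ P.M) (i : Fin n) (x v : EN N) :
    0 ≤ nearG Ω χ nd P Q D δ i x v := by
  unfold nearG
  split_ifs
  · exact mul_nonneg (ACoef_nonneg _ _ _) (pM_nonneg hM _ _ _)
  · exact le_rfl

theorem GG_nonneg (x v : EN N) : 0 ≤ GG Ω χ nd P Q D M' δ c₁ x v :=
  (mul_nonneg (pow_nonneg (rho_nonneg _ _ _) _) (fs_nonneg x v)).trans
    (pieceG_le_GG (Ω := Ω) (χ := χ) (nd := nd) (P := P) (Q := Q) (D := D) (M' := M') (δ := δ)
      (c₁ := c₁) none x v)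

end Pool.Agent.H14.PP
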