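import Pool.Agent.H14.PP.ChartBasic
import Pool.Agent.H62.BP.MinMod

/-!
# BPm RhoChart: the equations of `T` in a chart

(i) `p ↦ Q (σ p)` is analytic on the bidisc of radius `2` and vanishes for `p.1 = 0` (there
`σ p ∈ T`). Its derivative is bounded on the closed bidisc of radius `1` (compact, convex), so
`‖Q (σ (s,t))‖ = ‖Q (σ (s,t)) - Q (σ (0,t))‖ ≤ C ‖s‖`; `‖σ‖` is bounded below. Same for `p.2` if
`nd = true`. (`Pool.Agent.H62.BP.upper_smooth` treats the scalar case.)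
(ii) Compactness: on the compact set `{p | ‖p‖ ≤ 1, small nd p ≥ r}` the continuous function
`rho Q D (σ p)` is positive (`σ p ∉ T`, `mem_iff`), hence at least some `δ' > 0`; `δ = δ'/2` (if the
set is empty any `δ` works).
-/

open Topology Filter Metric

namespace Pool.Agent.H14.PP

open Pool.Agent.H36.BP

variable {N : ℕ} {W : Type*} [NormedAddCommGroup W] [InnerProductSpace ℂ W]
  {X K T : Set (EN N)} {Q : EN N → W} {D : ℕ}

private theorem RhoChart_sub {p : ℂ × ℂ} (hp : p ∈ closedBall (0 : ℂ × ℂ) 1) :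
    p ∈ ball (0 : ℂ × ℂ) 2 := by
  rw [mem_closedBall_zero_iff] at hp
  rw [mem_ball_zero_iff]
  linarith

private theorem RhoChart_lip (hQ : IsEq X T Q D) (χ : Chart X) :
    ∃ L : ℝ, 0 ≤ L ∧ ∀ p ∈ closedBall (0 : ℂ × ℂ) 1, ∀ p' ∈ closedBall (0 : ℂ × ℂ) 1,
      ‖Q (χ.σ p) - Q (χ.σ p')‖ ≤ L * ‖p - p'‖ := by
  have hloc : LocallyLipschitzOn (closedBall (0 : ℂ × ℂ) 1) (fun p => Q (χ.σ p)) := by
    intro p hp
    have h1 : AnalyticAt ℂ (fun p => Q (χ.σ p)) p :=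
      AnalyticAt.fun_comp (g := Q) (f := χ.σ) (hQ.analytic _) (χ.σ_an p (RhoChart_sub hp))
    obtain ⟨L, s, hs, hL⟩ := h1.hasStrictFDerivAt.exists_lipschitzOnWith
    exact ⟨L, s, mem_nhdsWithin_of_mem_nhds hs, hL⟩
  obtain ⟨L, hL⟩ := hloc.exists_lipschitzOnWith_of_compact (isCompact_closedBall _ _)
  exact ⟨L, L.2, fun p hp p' hp' => lipschitzOnWith_iff_norm_sub_le.mp hL hp hp'⟩

private theorem RhoChart_low (hX : IsCone X) (χ : Chart X) :
    ∃ c : ℝ, 0 < c ∧ ∀ p ∈ closedBall (0 : ℂ × ℂ) 1, c ≤ ‖χ.σ p‖ := by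
  have hc : ContinuousOn (fun p => ‖χ.σ p‖) (closedBall (0 : ℂ × ℂ) 1) := fun p hp =>
    (χ.σ_an p (RhoChart_sub hp)).continuousAt.norm.continuousWithinAt
  obtain ⟨p₀, hp₀, hmin⟩ := (isCompact_closedBall (0 : ℂ × ℂ) 1).exists_isMinOn
    ⟨0, mem_closedBall_self zero_le_one⟩ hc
  exact ⟨‖χ.σ p₀‖, norm_pos_iff.mpr (χ.sigma_ne_zero hX (RhoChart_sub hp₀)), fun p hp => hmin hp⟩

theorem rho_chart_le (hX : IsCone X) (hQ : IsEq X T Q D) (χ : Chart X) {nd : Bool}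
    (h : HasType T χ nd) :
    ∃ C : ℝ, 1 ≤ C ∧ ∀ p ∈ closedBall (0 : ℂ × ℂ) 1,
      rho Q D (χ.σ p) ≤ C * ‖p.1‖ ∧ (nd = true → rho Q D (χ.σ p) ≤ C * ‖p.2‖) := by
  obtain ⟨L, hL0, hL⟩ := RhoChart_lip hQ χ
  obtain ⟨c, hc, hlow⟩ := RhoChart_low hX χ
  have hcD : 0 < c ^ D := pow_pos hc D
  have key : ∀ p ∈ closedBall (0 : ℂ × ℂ) 1, ∀ p' ∈ closedBall (0 : ℂ × ℂ) 1, χ.σ p' ∈ T →
      rho Q D (χ.σ p) ≤ max 1 (L / c ^ D) * ‖p - p'‖ := by
    intro p hp p' hp' hT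
    have h1 := hL p hp p' hp'
    rw [((hQ.mem_iff _).mp hT).2, sub_zero] at h1
    have h2 : c ^ D ≤ ‖χ.σ p‖ ^ D := pow_le_pow_left₀ hc.le (hlow p hp) D
    calc rho Q D (χ.σ p) = ‖Q (χ.σ p)‖ / ‖χ.σ p‖ ^ D := rfl
      _ ≤ (L * ‖p - p'‖) / c ^ D := div_le_div₀ (by positivity) h1 hcD h2
      _ = L / c ^ D * ‖p - p'‖ := by ring
      _ ≤ max 1 (L / c ^ D) * ‖p - p'‖ :=
        mul_le_mul_of_nonneg_right (le_max_right _ _) (norm_nonneg _)
  refine ⟨max 1 (L / c ^ D), le_max_left _ _, fun p hp => ⟨?_, fun hnd => ?_⟩⟩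
  · have hp' : ((0, p.2) : ℂ × ℂ) ∈ closedBall (0 : ℂ × ℂ) 1 := by
      rw [mem_closedBall_zero_iff, Prod.norm_def] at hp ⊢
      simpa using (le_max_right _ _).trans hp
    have h1 := key p hp (0, p.2) hp' ((h _ (RhoChart_sub hp')).mpr (Or.inl rfl))
    have h2 : ‖p - (0, p.2)‖ = ‖p.1‖ := by
      rw [Prod.norm_def]
      simp
    rwa [h2] at h1
  · have hp' : ((p.1, 0) : ℂ × ℂ) ∈ closedBall (0 : ℂ × ℂ) 1 := by
      rw [mem_closedBall_zero_iff, Prod.norm_def] at hp ⊢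
      simpa using (le_max_left _ _).trans hp
    have h1 := key p hp (p.1, 0) hp' ((h _ (RhoChart_sub hp')).mpr (Or.inr ⟨hnd, rfl⟩))
    have h2 : ‖p - (p.1, 0)‖ = ‖p.2‖ := by
      rw [Prod.norm_def]
      simp
    rwa [h2] at h1

private theorem RhoChart_cont (nd : Bool) : Continuous (small nd) := by
  unfold small
  cases nd
  · simpa using continuous_fst.norm
  · have h : Continuous fun p : ℂ × ℂ => ‖p.1‖ * ‖p.2‖ := by fun_prop
    simpa using h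

theorem small_of_rho (hX : IsCone X) (hQ : IsEq X T Q D) (χ : Chart X) {nd : Bool}
    (h : HasType T χ nd) {r : ℝ} (hr : 0 < r) :
    ∃ δ : ℝ, 0 < δ ∧ ∀ p ∈ closedBall (0 : ℂ × ℂ) 1, rho Q D (χ.σ p) ≤ δ → small nd p ≤ r := by
  obtain ⟨S, hS⟩ : ∃ S : Set (ℂ × ℂ), S = closedBall (0 : ℂ × ℂ) 1 ∩ {p | r ≤ small nd p} :=
    ⟨_, rfl⟩
  have hSc : IsCompact S := by
    rw [hS]
    exact (isCompact_closedBall _ _).inter_right (isClosed_le continuous_const (RhoChart_cont nd))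
  have hpos : ∀ p ∈ S, 0 < rho Q D (χ.σ p) := by
    intro p hp
    rw [hS] at hp
    have hp2 : r ≤ small nd p := hp.2
    have hb := RhoChart_sub hp.1
    have hne := χ.sigma_ne_zero hX hb
    refine lt_of_le_of_ne (rho_nonneg _ _ _) fun h0 => ?_
    have hQ0 : Q (χ.σ p) = 0 := (rho_eq_zero_iff hne).mp h0.symm
    have hT : χ.σ p ∈ T := (hQ.mem_iff _).mpr ⟨(χ.σ_mem p hb).1, hQ0⟩
    rcases (h p hb).mp hT with h1 | ⟨h1, h2⟩
    · have h3 : small nd p = 0 := by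
        unfold small
        rw [h1, norm_zero, zero_mul, ite_self]
      linarith
    · have h3 : small nd p = 0 := by
        unfold small
        rw [if_pos h1, h2, norm_zero, mul_zero]
      linarith
  have hcont : ContinuousOn (fun p => rho Q D (χ.σ p)) S := by
    intro p hp
    rw [hS] at hp
    have hb := RhoChart_sub hp.1
    have h1 : ContinuousAt (rho Q D) (χ.σ p) := continuousAt_rho hQ.analytic (χ.sigma_ne_zero hX hb)
    exact (ContinuousAt.comp (f := χ.σ) (g := rho Q D) h1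
      (χ.σ_an p hb).continuousAt).continuousWithinAt
  have hout : ∀ p ∈ closedBall (0 : ℂ × ℂ) 1, p ∉ S → small nd p ≤ r := by
    intro p hp hpS
    by_contra hcon
    push Not at hcon
    exact hpS (by rw [hS]; exact ⟨hp, hcon.le⟩)
  rcases S.eq_empty_or_nonempty with he | hne
  · exact ⟨1, one_pos, fun p hp _ => hout p hp (by rw [he]; exact Set.notMem_empty p)⟩
  · obtain ⟨p₀, hp₀, hmin⟩ := hSc.exists_isMinOn hne hcont
    have h0 := hpos p₀ hp₀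
    refine ⟨rho Q D (χ.σ p₀) / 2, by linarith, fun p hp hle => hout p hp fun hpS => ?_⟩
    have h1 : rho Q D (χ.σ p₀) ≤ rho Q D (χ.σ p) := hmin hpS
    linarith

end Pool.Agent.H14.PP
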