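import Pool.Agent.H14.PP.PieceBasic
import Pool.Agent.H14.PP.FormChart
import Pool.Agent.H14.PP.RhoChart

/-!
# BPm NearBounds: upper and lower bounds for the metric near `T`

`b` analytic on the bidisc with `b = gD d^(m-1) * aCoef` on `{σ p ∈ K}` (`PoleBound`). For
`‖p‖ ≤ 1`: `small nd p ≤ ‖gD d p‖ ≤ 1` (`gD d p` is a product of some of the coordinates; if
`d.2 = true` then `nd = true`; if `nd = false` and `d.1 = true` it is `p.1`, `small = ‖p.1‖`).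
* Upper bound (`ACoef_le`): `‖aCoef p‖ = ‖b p‖/‖gD d p‖^(m-1) ≤ A/‖gD d p‖^(m-1)`, so
  `ACoef p ≤ C ‖gD d p‖^(-((m-1)/m))` (`‖σ‖` bounded above on the closed bidisc).
* `near_upper`: hence `ACoef p ≤ C small^(-1)`, `rho^2 ≤ C^2 small` (`rho_chart_le`: if `nd = true`
  `rho ≤ C ‖p.1‖, C ‖p.2‖`; if `nd = false` `rho ≤ C ‖p.1‖` and `‖p.1‖^2 ≤ ‖p.1‖`), and
  `pM ≤ 2 ‖w‖` (`pM_le`). If `small nd p = 0` then `rho = 0` and the left side is `0`.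
* `near_lower`: `b p ≠ 0` if `σ p ∉ T` (then `σ p ∈ K`, `gD ≠ 0` because `σ p ∈ K` means no
  `D`-coordinate vanishes, `aCoef_ne_zero`), that is if `p.1 ≠ 0` and (`nd = true → p.2 ≠ 0`). So
  `‖b p‖ ≥ c small^k` (`Pool.Agent.H62.BP.lower_smooth`, `lower_node`), `‖aCoef p‖ ≥ ‖b p‖`,
  `ACoef p ≥ c' small^k` (`small ≤ 1`, `‖σ‖` bounded below, `1 ≤ m`), and
  `pM nd P p w ≥ small nd p * ‖w‖ * exp (-K-1)` (`le_pM_false`, `le_pM_true`). Finally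
  `small ≥ rho^2/C^2`: `M₀ = 2 (k + 1)`.
-/

open Topology Filter Metric

namespace Pool.Agent.H14.PP

open Pool.Agent.H36.BP

variable {N : ℕ} {W : Type*} [NormedAddCommGroup W] [InnerProductSpace ℂ W]
  {X K T : Set (EN N)} {Q : EN N → W} {D m j : ℕ}

/-- the closed bidisc is contained in the bidisc of radius two -/
private theorem NearBounds_mem {p : ℂ × ℂ} (hp : p ∈ closedBall (0 : ℂ × ℂ) 1) :
    p ∈ ball (0 : ℂ × ℂ) 2 ∧ ‖p‖ ≤ 1 ∧ ‖p.1‖ ≤ 1 ∧ ‖p.2‖ ≤ 1 := by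
  have h : ‖p‖ ≤ 1 := by simpa using hp
  have h1 : ‖p.1‖ ≤ 1 := (norm_fst_le p).trans h
  have h2 : ‖p.2‖ ≤ 1 := (norm_snd_le p).trans h
  refine ⟨?_, h, h1, h2⟩
  rw [mem_ball_zero_iff]
  linarith

private theorem NearBounds_sigma (hX : IsCone X) (χ : Chart X) : ∃ a A : ℝ, 0 < a ∧ 0 < A ∧
    ∀ p ∈ closedBall (0 : ℂ × ℂ) 1, a ≤ ‖χ.σ p‖ ∧ ‖χ.σ p‖ ≤ A := by
  have hc : IsCompact (closedBall (0 : ℂ × ℂ) 1) := isCompact_closedBall _ _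
  have hcont : ContinuousOn (fun p => ‖χ.σ p‖) (closedBall (0 : ℂ × ℂ) 1) := by
    intro p hp
    exact ((χ.σ_an p (NearBounds_mem hp).1).continuousAt.norm).continuousWithinAt
  have hne : (closedBall (0 : ℂ × ℂ) 1).Nonempty := ⟨0, mem_closedBall_self zero_le_one⟩
  obtain ⟨p0, hp0, hmin⟩ := hc.exists_isMinOn hne hcont
  obtain ⟨p1, hp1, hmax⟩ := hc.exists_isMaxOn hne hcont
  have h0 : 0 < ‖χ.σ p0‖ := norm_pos_iff.2 (χ.sigma_ne_zero hX (NearBounds_mem hp0).1)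
  have h1 : 0 < ‖χ.σ p1‖ := norm_pos_iff.2 (χ.sigma_ne_zero hX (NearBounds_mem hp1).1)
  exact ⟨‖χ.σ p0‖, ‖χ.σ p1‖, h0, h1, fun p hp => ⟨hmin hp, hmax hp⟩⟩

private theorem NearBounds_gD (χ : Chart X) {d : Bool × Bool} (hd : DType K χ d) {p : ℂ × ℂ}
    (hp : p ∈ closedBall (0 : ℂ × ℂ) 1) (hpK : χ.σ p ∈ K) : 0 < ‖gD d p‖ ∧ ‖gD d p‖ ≤ 1 := by
  obtain ⟨hp2, -, h1, h2⟩ := NearBounds_mem hp
  have h3 : ¬ ((d.1 = true ∧ p.1 = 0) ∨ (d.2 = true ∧ p.2 = 0)) := fun h => (hd p hp2).2 h hpK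
  rw [not_or] at h3
  have e1 : (if d.1 = true then p.1 else 1) ≠ 0 ∧ ‖(if d.1 = true then p.1 else 1)‖ ≤ 1 := by
    split_ifs with h
    · exact ⟨fun h0 => h3.1 ⟨h, h0⟩, h1⟩
    · exact ⟨one_ne_zero, by rw [norm_one]⟩
  have e2 : (if d.2 = true then p.2 else 1) ≠ 0 ∧ ‖(if d.2 = true then p.2 else 1)‖ ≤ 1 := by
    split_ifs with h
    · exact ⟨fun h0 => h3.2 ⟨h, h0⟩, h2⟩
    · exact ⟨one_ne_zero, by rw [norm_one]⟩
  unfold gD
  refine ⟨norm_pos_iff.2 (mul_ne_zero e1.1 e2.1), ?_⟩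
  rw [norm_mul]
  exact mul_le_one₀ e1.2 (norm_nonneg _) e2.2

private theorem NearBounds_small {nd : Bool} {d : Bool × Bool} (hdn : d.2 = true → nd = true)
    {p : ℂ × ℂ} (hp : p ∈ closedBall (0 : ℂ × ℂ) 1) :
    0 ≤ small nd p ∧ small nd p ≤ ‖gD d p‖ ∧ small nd p ≤ 1 := by
  obtain ⟨-, -, h1, h2⟩ := NearBounds_mem hp
  obtain ⟨d1, d2⟩ := d
  have n1 := norm_nonneg p.1
  have n2 := norm_nonneg p.2
  unfold small gD
  dsimp only at hdn ⊢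
  cases nd with
  | true =>
    rw [if_pos rfl, norm_mul]
    refine ⟨mul_nonneg n1 n2, ?_, mul_le_one₀ h1 n2 h2⟩
    refine mul_le_mul ?_ ?_ n2 (norm_nonneg _)
    · split_ifs
      · exact le_rfl
      · rw [norm_one]; exact h1
    · split_ifs
      · exact le_rfl
      · rw [norm_one]; exact h2
  | false =>
    have hd2 : d2 = false := by
      cases d2 with
      | true => exact absurd (hdn rfl) (by simp)
      | false => rfl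
    subst hd2
    simp only [Bool.false_eq_true, if_false, mul_one]
    refine ⟨n1, ?_, h1⟩
    split_ifs
    · exact le_rfl
    · rw [norm_one]; exact h1

theorem ACoef_le (hX : IsCone X) (hm : 1 ≤ m) (Ω : Form K m j) (hΩ : Ω.PoleBound X) (χ : Chart X)
    {d : Bool × Bool} (hd : DType K χ d) : ∃ C : ℝ, 0 < C ∧
      ∀ p ∈ closedBall (0 : ℂ × ℂ) 1, χ.σ p ∈ K →
        ACoef Ω χ p ≤ C * ‖gD d p‖ ^ (-(((m : ℝ) - 1) / m)) := by
  obtain ⟨a, A, ha, hA, hσ⟩ := NearBounds_sigma hX χ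
  obtain ⟨b, hb, hbe⟩ := hΩ χ d hd
  have hbc : ContinuousOn b (closedBall (0 : ℂ × ℂ) 1) := fun p hp =>
    (hb p (NearBounds_mem hp).1).continuousAt.continuousWithinAt
  obtain ⟨B, hB⟩ := (isCompact_closedBall (0 : ℂ × ℂ) 1).exists_bound_of_continuousOn hbc
  have hB0 : 0 < |B| + 1 := by positivity
  have hm0 : (0 : ℝ) < m := by exact_mod_cast hm
  refine ⟨(|B| + 1) ^ (1 / (m : ℝ)) * A ^ ((j : ℝ) / m), by positivity, fun p hp hpK => ?_⟩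
  obtain ⟨hg0, hg1⟩ := NearBounds_gD χ hd hp hpK
  have h1 : ‖b p‖ = ‖gD d p‖ ^ (m - 1) * ‖aCoef Ω χ p‖ := by
    rw [hbe p (NearBounds_mem hp).1 hpK, norm_mul, norm_pow]
  have hgm : 0 < ‖gD d p‖ ^ (m - 1) := by positivity
  have h2 : ‖aCoef Ω χ p‖ ≤ (|B| + 1) / ‖gD d p‖ ^ (m - 1) := by
    rw [le_div_iff₀ hgm, mul_comm, ← h1]
    exact (hB p hp).trans ((le_abs_self B).trans (by linarith))
  have h3 : ‖aCoef Ω χ p‖ ^ (1 / (m : ℝ)) ≤ (|B| + 1) ^ (1 / (m : ℝ)) * ‖gD d p‖ ^ (-(((m : ℝ) - 1) / m)) := by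
    refine (Real.rpow_le_rpow (norm_nonneg _) h2 (by positivity)).trans (le_of_eq ?_)
    rw [Real.div_rpow hB0.le hgm.le, ← Real.rpow_natCast, ← Real.rpow_mul (norm_nonneg _),
      Real.rpow_neg (norm_nonneg _), div_eq_mul_inv]
    congr 3
    rw [Nat.cast_sub hm, Nat.cast_one]
    ring
  have h4 : ‖χ.σ p‖ ^ ((j : ℝ) / m) ≤ A ^ ((j : ℝ) / m) :=
    Real.rpow_le_rpow (norm_nonneg _) (hσ p hp).2 (by positivity)
  unfold ACoef
  calc ‖aCoef Ω χ p‖ ^ (1 / (m : ℝ)) * ‖χ.σ p‖ ^ ((j : ℝ) / m)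
      ≤ ((|B| + 1) ^ (1 / (m : ℝ)) * ‖gD d p‖ ^ (-(((m : ℝ) - 1) / m))) * A ^ ((j : ℝ) / m) :=
        mul_le_mul h3 h4 (by positivity) (by positivity)
    _ = _ := by ring

private theorem NearBounds_rho (hX : IsCone X) (hQ : IsEq X T Q D) (χ : Chart X) {nd : Bool}
    (h : HasType T χ nd) : ∃ C : ℝ, 0 < C ∧ ∀ p ∈ closedBall (0 : ℂ × ℂ) 1,
      0 ≤ rho Q D (χ.σ p) ∧ rho Q D (χ.σ p) ^ 2 ≤ C * small nd p := by
  obtain ⟨C, hC, hr⟩ := rho_chart_le hX hQ χ h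
  refine ⟨C ^ 2, by positivity, fun p hp => ?_⟩
  obtain ⟨-, -, h1, h2⟩ := NearBounds_mem hp
  have h0 : 0 ≤ rho Q D (χ.σ p) := by unfold rho; positivity
  refine ⟨h0, ?_⟩
  obtain ⟨r1, r2⟩ := hr p hp
  have n1 := norm_nonneg p.1
  have n2 := norm_nonneg p.2
  unfold small
  split_ifs with hnd
  · have r3 := r2 hnd
    calc rho Q D (χ.σ p) ^ 2 = rho Q D (χ.σ p) * rho Q D (χ.σ p) := sq _
      _ ≤ (C * ‖p.1‖) * (C * ‖p.2‖) := mul_le_mul r1 r3 h0 (by positivity)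
      _ = C ^ 2 * (‖p.1‖ * ‖p.2‖) := by ring
  · calc rho Q D (χ.σ p) ^ 2 = rho Q D (χ.σ p) * rho Q D (χ.σ p) := sq _
      _ ≤ (C * ‖p.1‖) * (C * ‖p.1‖) := mul_le_mul r1 r1 h0 (by positivity)
      _ = C ^ 2 * (‖p.1‖ * ‖p.1‖) := by ring
      _ ≤ C ^ 2 * (‖p.1‖ * 1) := by gcongr
      _ = C ^ 2 * ‖p.1‖ := by ring

theorem near_upper (hX : IsCone X) (hQ : IsEq X T Q D) (hm : 1 ≤ m) (Ω : Form K m j)
    (hΩ : Ω.PoleBound X) (χ : Chart X) {P : Par} (hP : ConvPar P) {nd : Bool} {d : Bool × Bool}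
    (h : HasType T χ nd) (hd : DType K χ d) (hdn : d.2 = true → nd = true) :
    ∃ C : ℝ, 0 < C ∧ ∀ p ∈ closedBall (0 : ℂ × ℂ) 1, χ.σ p ∈ K → ∀ w,
      rho Q D (χ.σ p) ^ 2 * (ACoef Ω χ p * pM nd P p w) ≤ C * ‖w‖ := by
  obtain ⟨C1, hC1, hA⟩ := ACoef_le hX hm Ω hΩ χ hd
  obtain ⟨C2, hC2, hr⟩ := NearBounds_rho hX hQ χ h
  have hm0 : (0 : ℝ) < m := by exact_mod_cast hm
  have hm1 : (1 : ℝ) ≤ m := by exact_mod_cast hm
  refine ⟨C2 * C1 * 2, by positivity, fun p hp hpK w => ?_⟩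
  obtain ⟨hg0, hg1⟩ := NearBounds_gD χ hd hp hpK
  obtain ⟨hs0, hsg, hs1⟩ := NearBounds_small hdn hp
  obtain ⟨hr0, hr2⟩ := hr p hp
  have h1 : ACoef Ω χ p ≤ C1 * ‖gD d p‖⁻¹ := by
    refine (hA p hp hpK).trans (mul_le_mul_of_nonneg_left ?_ hC1.le)
    rw [← Real.rpow_neg_one]
    refine Real.rpow_le_rpow_of_exponent_ge hg0 hg1 ?_
    rw [neg_le_neg_iff, div_le_one hm0]
    linarith
  have h2 : rho Q D (χ.σ p) ^ 2 ≤ C2 * ‖gD d p‖ := hr2.trans (mul_le_mul_of_nonneg_left hsg hC2.le)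
  have h3 : pM nd P p w ≤ 2 * ‖w‖ := pM_le hP nd (NearBounds_mem hp).2.1 w
  have h4 : 0 ≤ pM nd P p w := pM_nonneg (zero_le_one.trans hP.M_ge) nd p w
  have h5 : 0 ≤ ACoef Ω χ p := ACoef_nonneg Ω χ p
  have hgi : 0 ≤ ‖gD d p‖⁻¹ := inv_nonneg.2 hg0.le
  calc rho Q D (χ.σ p) ^ 2 * (ACoef Ω χ p * pM nd P p w)
      ≤ (C2 * ‖gD d p‖) * ((C1 * ‖gD d p‖⁻¹) * (2 * ‖w‖)) := by
        refine mul_le_mul h2 (mul_le_mul h1 h3 h4 (by positivity)) (by positivity) (by positivity)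
    _ = C2 * C1 * 2 * ‖w‖ * (‖gD d p‖ * ‖gD d p‖⁻¹) := by ring
    _ = C2 * C1 * 2 * ‖w‖ := by rw [mul_inv_cancel₀ hg0.ne', mul_one]

private theorem NearBounds_b (hX : IsCone X) (hK : IsOpenPart X K) (hKT : ∀ x ∈ X, x ∉ K → x ∈ T)
    (Ω : Form K m j) (hΩ : Ω.NoZeroOff T) (χ : Chart X) {nd : Bool} {d : Bool × Bool}
    (h : HasType T χ nd) (hd : DType K χ d) {b : ℂ × ℂ → ℂ}
    (hb : ∀ p ∈ ball (0 : ℂ × ℂ) 2, AnalyticAt ℂ b p)
    (hbe : ∀ p ∈ ball (0 : ℂ × ℂ) 2, χ.σ p ∈ K → b p = gD d p ^ (m - 1) * aCoef Ω χ p) :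
    ∃ (c : ℝ) (k : ℕ), 0 < c ∧ ∀ p ∈ closedBall (0 : ℂ × ℂ) 1, c * small nd p ^ k ≤ ‖b p‖ := by
  have hball : ∀ s t : ℂ, ‖s‖ < 2 → ‖t‖ < 2 → (s, t) ∈ ball (0 : ℂ × ℂ) 2 := by
    intro s t hs ht
    rw [mem_ball_zero_iff, Prod.norm_def]
    exact max_lt hs ht
  have hne : ∀ p ∈ ball (0 : ℂ × ℂ) 2, ¬ (p.1 = 0 ∨ (nd = true ∧ p.2 = 0)) → b p ≠ 0 := by
    intro p hp hp0
    have hT : χ.σ p ∉ T := fun hT => hp0 ((h p hp).1 hT)
    have hpK : χ.σ p ∈ K := by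
      by_contra hpK
      exact hT (hKT _ (χ.σ_mem p hp).1 hpK)
    rw [hbe p hp hpK]
    refine mul_ne_zero (pow_ne_zero _ ?_) (aCoef_ne_zero hX hK Ω χ hΩ hp hpK hT)
    have h3 : ¬ ((d.1 = true ∧ p.1 = 0) ∨ (d.2 = true ∧ p.2 = 0)) := fun h' => (hd p hp).2 h' hpK
    rw [not_or] at h3
    unfold gD
    refine mul_ne_zero ?_ ?_
    · split_ifs with h'
      · exact fun h0 => h3.1 ⟨h', h0⟩
      · exact one_ne_zero
    · split_ifs with h'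
      · exact fun h0 => h3.2 ⟨h', h0⟩
      · exact one_ne_zero
  cases nd with
  | true =>
    obtain ⟨c, k, hc, -, hck⟩ := Pool.Agent.H62.BP.lower_node (a := b)
      (fun s t hs ht => hb _ (hball s t hs ht))
      (fun s t hs ht hs0 ht0 => hne _ (hball s t hs ht) (by
        rintro (h' | ⟨-, h'⟩)
        · exact hs0 h'
        · exact ht0 h'))
    refine ⟨c, k, hc, fun p hp => ?_⟩
    obtain ⟨-, -, h1, h2⟩ := NearBounds_mem hp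
    have := hck p.1 p.2 h1 h2
    unfold small
    rw [if_pos rfl]
    exact this
  | false =>
    obtain ⟨c, k, hc, hck⟩ := Pool.Agent.H62.BP.lower_smooth (a := b)
      (fun s t hs ht => hb _ (hball s t (hs.trans_lt one_lt_two) (ht.trans_lt one_lt_two)))
      (fun s t hs ht hs0 => hne _ (hball s t (hs.trans_lt one_lt_two) (ht.trans_lt one_lt_two)) (by
        rintro (h' | ⟨h', -⟩)
        · exact hs0 h'
        · exact absurd h' (by simp)))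
    refine ⟨c, k, hc, fun p hp => ?_⟩
    obtain ⟨-, -, h1, h2⟩ := NearBounds_mem hp
    have := hck p.1 p.2 h1 h2
    unfold small
    rw [if_neg (by simp)]
    exact this

theorem near_lower (hX : IsCone X) (hK : IsOpenPart X K) (hKT : ∀ x ∈ X, x ∉ K → x ∈ T)
    (hQ : IsEq X T Q D) (hm : 1 ≤ m) (Ω : Form K m j) (hΩ : Ω.NoZeroOff T)
    (hΩ' : Ω.PoleBound X) (χ : Chart X) {P : Par} (hP : ConvPar P) {nd : Bool} {d : Bool × Bool}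
    (h : HasType T χ nd) (hd : DType K χ d) (hdn : d.2 = true → nd = true) :
    ∃ (M₀ : ℕ) (c : ℝ), 0 < c ∧ ∀ p ∈ closedBall (0 : ℂ × ℂ) 1, χ.σ p ∈ K → ∀ w,
      c * rho Q D (χ.σ p) ^ M₀ * ‖w‖ ≤ ACoef Ω χ p * pM nd P p w := by
  obtain ⟨a, A, ha, hA, hσ⟩ := NearBounds_sigma hX χ
  obtain ⟨b, hb, hbe⟩ := hΩ' χ d hd
  obtain ⟨c0, k, hc0, hck⟩ := NearBounds_b hX hK hKT Ω hΩ χ h hd hb hbe
  obtain ⟨C2, hC2, hr⟩ := NearBounds_rho hX hQ χ h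
  have hm0 : (0 : ℝ) < m := by exact_mod_cast hm
  have hm1 : (1 : ℝ) ≤ m := by exact_mod_cast hm
  have hc1 : 0 < c0 ^ (1 / (m : ℝ)) * a ^ ((j : ℝ) / m) := by positivity
  refine ⟨2 * (k + 1), c0 ^ (1 / (m : ℝ)) * a ^ ((j : ℝ) / m) * Real.exp (-P.K - 1) / C2 ^ (k + 1),
    by positivity, fun p hp hpK w => ?_⟩
  obtain ⟨hg0, hg1⟩ := NearBounds_gD χ hd hp hpK
  obtain ⟨hs0, hsg, hs1⟩ := NearBounds_small hdn hp
  obtain ⟨hr0, hr2⟩ := hr p hp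
  have hp1 := (NearBounds_mem hp).2.1
  have hsk0 : 0 ≤ small nd p ^ k := pow_nonneg hs0 k
  have hsk1 : small nd p ^ k ≤ 1 := pow_le_one₀ hs0 hs1
  -- lower bound of the coefficient
  have e1 : c0 * small nd p ^ k ≤ ‖aCoef Ω χ p‖ := by
    refine (hck p hp).trans ?_
    rw [hbe p (NearBounds_mem hp).1 hpK, norm_mul, norm_pow]
    exact mul_le_of_le_one_left (norm_nonneg _) (pow_le_one₀ hg0.le hg1)
  have e2 : c0 ^ (1 / (m : ℝ)) * small nd p ^ k ≤ ‖aCoef Ω χ p‖ ^ (1 / (m : ℝ)) := by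
    refine le_trans ?_ (Real.rpow_le_rpow (by positivity) e1 (by positivity))
    rw [Real.mul_rpow hc0.le hsk0]
    refine mul_le_mul_of_nonneg_left ?_ (by positivity)
    rcases hsk0.eq_or_lt with h0 | h0
    · rw [← h0]
      exact Real.rpow_nonneg le_rfl _
    · calc small nd p ^ k = (small nd p ^ k) ^ (1 : ℝ) := (Real.rpow_one _).symm
        _ ≤ (small nd p ^ k) ^ (1 / (m : ℝ)) := by
          refine Real.rpow_le_rpow_of_exponent_ge h0 hsk1 ?_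
          rw [div_le_one hm0]
          exact hm1
  have e3 : a ^ ((j : ℝ) / m) ≤ ‖χ.σ p‖ ^ ((j : ℝ) / m) :=
    Real.rpow_le_rpow ha.le (hσ p hp).1 (by positivity)
  have e4 : c0 ^ (1 / (m : ℝ)) * small nd p ^ k * a ^ ((j : ℝ) / m) ≤ ACoef Ω χ p := by
    unfold ACoef
    exact mul_le_mul e2 e3 (by positivity) (by positivity)
  -- lower bound of the piece
  have e5 : small nd p * ‖w‖ * Real.exp (-P.K - 1) ≤ pM nd P p w := by
    cases nd with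
    | true =>
      have := le_pM_true hP hp1 w
      unfold small
      rw [if_pos rfl]
      exact this
    | false =>
      have := le_pM_false hP hp1 w
      unfold small
      rw [if_neg (by simp)]
      exact this
  have e6 : rho Q D (χ.σ p) ^ (2 * (k + 1)) ≤ C2 ^ (k + 1) * small nd p ^ (k + 1) := by
    rw [pow_mul, ← mul_pow]
    exact pow_le_pow_left₀ (by positivity) hr2 _
  have e7 : 0 ≤ ACoef Ω χ p := ACoef_nonneg Ω χ p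
  have hCk : 0 < C2 ^ (k + 1) := by positivity
  calc c0 ^ (1 / (m : ℝ)) * a ^ ((j : ℝ) / m) * Real.exp (-P.K - 1) / C2 ^ (k + 1) *
        rho Q D (χ.σ p) ^ (2 * (k + 1)) * ‖w‖
      ≤ c0 ^ (1 / (m : ℝ)) * a ^ ((j : ℝ) / m) * Real.exp (-P.K - 1) / C2 ^ (k + 1) *
        (C2 ^ (k + 1) * small nd p ^ (k + 1)) * ‖w‖ := by gcongr
    _ = (c0 ^ (1 / (m : ℝ)) * small nd p ^ k * a ^ ((j : ℝ) / m)) *
          (small nd p * ‖w‖ * Real.exp (-P.K - 1)) := by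
        rw [pow_succ (small nd p) k]
        field_simp
    _ ≤ ACoef Ω χ p * pM nd P p w := mul_le_mul e4 e5 (by positivity) e7

end Pool.Agent.H14.PP
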