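import Pool.Agent.H14.PP.FormChart

/-!
# BPm FormTrans: transformation of the coefficient of the form

`χ, χ'` charts, `‖p‖ < 2`, `χ.σ p ∈ K`, `χ.σ p ∈ χ'.U`, `τ = χ'.q ∘ χ.σ`. For `y` near `p`,
`χ.σ y ∈ X ∩ χ'.U`, so `χ.σ y = c y • χ'.σ (τ y)` with `c y ≠ 0`, `c` analytic near `p`
(`c y = ⟪e, χ.σ y⟫/⟪e, χ'.σ (τ y)⟫`, `e = χ'.σ (τ p)`).
Let `x' = χ'.σ (τ p)`, `v₁ = Dχ'.σ(τ p)(1,0)`, `v₂ = Dχ'.σ(τ p)(0,1)`,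
`Dτ(p)(1,0) = (l, c₁)`, `Dτ(p)(0,1) = (b, m₁)`. Then
`Dχ.σ(p)(1,0) = c_s x' + c (l v₁ + c₁ v₂)`, `Dχ.σ(p)(0,1) = c_t x' + c (b v₁ + m₁ v₂)`
(`c = c p`, `c_s, c_t` the partial derivatives).
`scale` (with the tangent vectors `l v₁ + c₁ v₂ + (c_s/c) x'` and `b v₁ + m₁ v₂ + (c_t/c) x'`; they are
tangent: derivatives at `0` of `z ↦ exp (z c_s/c) • χ'.σ (τ p + z (l, c₁))`, which is in `K` near `0`),
`add_smul` and `det` give `c^j * aCoef Ω χ p = (l m₁ - c₁ b)^m * aCoef Ω χ' (τ p)`, so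
`‖aCoef Ω χ p‖ = ‖jac‖^m ‖aCoef Ω χ' (τ p)‖ / ‖c‖^j`, and `‖χ.σ p‖ = ‖c‖ ‖x'‖`:
`ACoef Ω χ p = ‖jac‖ * ACoef Ω χ' (τ p)` (take `m`-th roots, `1 ≤ m`).
-/

open Topology Filter Metric

namespace Pool.Agent.H14.PP

open Pool.Agent.H36.BP

variable {N : ℕ} {X K T : Set (EN N)} {m j : ℕ}

private theorem FormTrans_tan_smul (hK : IsOpenPart X K) {x v : EN N} (h : Tan K x v) {c : ℂ}
    (hc : c ≠ 0) : Tan K (c • x) (c • v) := by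
  obtain ⟨F, hF, hF0, hFd⟩ := h
  refine ⟨fun z => c • F z, ⟨AnalyticAt.fun_smul analyticAt_const hF.1, ?_⟩, ?_, ?_⟩
  · filter_upwards [hF.2] with z hz
    exact hK.smul_mem _ hz c hc
  · show c • F 0 = c • x
    rw [hF0]
  · have h1 : HasDerivAt (fun z => c • F z) (c • deriv F 0) 0 :=
      hF.1.differentiableAt.hasDerivAt.const_smul c
    rw [h1.deriv, hFd]

/-- The lift: `χ.σ y = c y • χ'.σ (τ y)` near `p`, with `c` differentiable at `p`. -/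
private theorem FormTrans_lift (hX : IsCone X) (χ χ' : Chart X) {p : ℂ × ℂ}
    (hp : p ∈ ball (0 : ℂ × ℂ) 2) (hU : χ.σ p ∈ χ'.U) :
    ∃ (c : ℂ) (c' : (ℂ × ℂ) →L[ℂ] ℂ), c ≠ 0 ∧ χ'.q (χ.σ p) ∈ ball (0 : ℂ × ℂ) 2 ∧
      χ.σ p = c • χ'.σ (χ'.q (χ.σ p)) ∧
      ∀ w : ℂ × ℂ, fderiv ℂ χ.σ p w =
        c • fderiv ℂ χ'.σ (χ'.q (χ.σ p)) (fderiv ℂ (fun y => χ'.q (χ.σ y)) p w) +
          c' w • χ'.σ (χ'.q (χ.σ p)) := by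
  obtain ⟨hτ, c0, hc0, hx⟩ := χ'.surj (χ.σ p) (χ.σ_mem p hp).1 hU
  set x' : EN N := χ'.σ (χ'.q (χ.σ p)) with hx'
  have hx'0 : x' ≠ 0 := χ'.sigma_ne_zero hX hτ
  have hin : inner ℂ x' x' ≠ 0 := by
    rw [Ne, inner_self_eq_zero]
    exact hx'0
  have hτan : AnalyticAt ℂ (fun y => χ'.q (χ.σ y)) p :=
    AnalyticAt.comp (g := χ'.q) (f := χ.σ) (χ'.q_an _ hU) (χ.σ_an p hp)
  have hσ'an : AnalyticAt ℂ (fun y => χ'.σ (χ'.q (χ.σ y))) p :=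
    AnalyticAt.comp (g := χ'.σ) (f := fun y => χ'.q (χ.σ y)) (χ'.σ_an _ hτ) hτan
  have hnum : AnalyticAt ℂ (fun y => innerSL ℂ x' (χ.σ y)) p :=
    AnalyticAt.comp (g := fun v => innerSL ℂ x' v) (f := χ.σ)
      ((innerSL ℂ x').analyticAt _) (χ.σ_an p hp)
  have hden : AnalyticAt ℂ (fun y => innerSL ℂ x' (χ'.σ (χ'.q (χ.σ y)))) p :=
    AnalyticAt.comp (g := fun v => innerSL ℂ x' v) (f := fun y => χ'.σ (χ'.q (χ.σ y)))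
      ((innerSL ℂ x').analyticAt _) hσ'an
  have hden0 : innerSL ℂ x' (χ'.σ (χ'.q (χ.σ p))) ≠ 0 := by
    rw [← hx', innerSL_apply_apply]
    exact hin
  let C : ℂ × ℂ → ℂ := fun y => innerSL ℂ x' (χ.σ y) / innerSL ℂ x' (χ'.σ (χ'.q (χ.σ y)))
  have hC : AnalyticAt ℂ C p := hnum.div hden hden0
  have hCp : C p = c0 := by
    show innerSL ℂ x' (χ.σ p) / innerSL ℂ x' (χ'.σ (χ'.q (χ.σ p))) = c0
    rw [div_eq_iff hden0]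
    conv_lhs => rw [hx]
    rw [map_smul, smul_eq_mul]
  have hev : ∀ᶠ y in 𝓝 p, χ.σ y = C y • χ'.σ (χ'.q (χ.σ y)) := by
    have h1 : ∀ᶠ y in 𝓝 p, y ∈ ball (0 : ℂ × ℂ) 2 := isOpen_ball.mem_nhds hp
    have h2 : ∀ᶠ y in 𝓝 p, χ.σ y ∈ χ'.U :=
      (χ.σ_an p hp).continuousAt.eventually (χ'.isOpen_U.mem_nhds hU)
    have h3 : ∀ᶠ y in 𝓝 p, innerSL ℂ x' (χ'.σ (χ'.q (χ.σ y))) ≠ 0 :=
      hden.continuousAt.eventually_ne hden0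
    filter_upwards [h1, h2, h3] with y hy1 hy2 hy3
    obtain ⟨-, b, hb, hxb⟩ := χ'.surj (χ.σ y) (χ.σ_mem y hy1).1 hy2
    have h4 : C y = b := by
      show innerSL ℂ x' (χ.σ y) / innerSL ℂ x' (χ'.σ (χ'.q (χ.σ y))) = b
      rw [div_eq_iff hy3]
      conv_lhs => rw [hxb]
      rw [map_smul, smul_eq_mul]
    rw [h4]
    exact hxb
  refine ⟨c0, fderiv ℂ C p, hc0, hτ, hx, fun w => ?_⟩
  have hD1 : HasFDerivAt (fun y => χ'.σ (χ'.q (χ.σ y)))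
      ((fderiv ℂ χ'.σ (χ'.q (χ.σ p))).comp (fderiv ℂ (fun y => χ'.q (χ.σ y)) p)) p :=
    HasFDerivAt.comp (g := χ'.σ) (f := fun y => χ'.q (χ.σ y)) p
      (χ'.σ_an _ hτ).differentiableAt.hasFDerivAt hτan.differentiableAt.hasFDerivAt
  have hD2 : HasFDerivAt (fun y => C y • χ'.σ (χ'.q (χ.σ y)))
      (C p • ((fderiv ℂ χ'.σ (χ'.q (χ.σ p))).comp (fderiv ℂ (fun y => χ'.q (χ.σ y)) p)) +
        (fderiv ℂ C p).smulRight (χ'.σ (χ'.q (χ.σ p)))) p :=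
    hC.differentiableAt.hasFDerivAt.smul hD1
  have hD3 : HasFDerivAt χ.σ
      (C p • ((fderiv ℂ χ'.σ (χ'.q (χ.σ p))).comp (fderiv ℂ (fun y => χ'.q (χ.σ y)) p)) +
        (fderiv ℂ C p).smulRight (χ'.σ (χ'.q (χ.σ p)))) p :=
    hD2.congr_of_eventuallyEq hev
  rw [hD3.fderiv, hCp]
  rfl

private theorem FormTrans_pair (L : (ℂ × ℂ) →L[ℂ] EN N) (w : ℂ × ℂ) :
    L w = w.1 • L (1, 0) + w.2 • L (0, 1) := by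
  rw [← map_smul, ← map_smul, ← map_add]
  congr 1
  ext
  · simp
  · simp

private theorem FormTrans_coef (hX : IsCone X) (hK : IsOpenPart X K) (Ω : Form K m j)
    (χ χ' : Chart X) {p : ℂ × ℂ} (hp : p ∈ ball (0 : ℂ × ℂ) 2) (hpK : χ.σ p ∈ K)
    (hU : χ.σ p ∈ χ'.U) :
    ∃ c : ℂ, c ≠ 0 ∧ χ.σ p = c • χ'.σ (χ'.q (χ.σ p)) ∧
      c ^ j * aCoef Ω χ p =
        jac (fun y => χ'.q (χ.σ y)) p ^ m * aCoef Ω χ' (χ'.q (χ.σ p)) := by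
  obtain ⟨c, c', hc, hτ, hx, hD⟩ := FormTrans_lift hX χ χ' hp hU
  refine ⟨c, hc, hx, ?_⟩
  have hx'K : χ'.σ (χ'.q (χ.σ p)) ∈ K := by
    have h1 := hK.smul_mem _ hpK c⁻¹ (inv_ne_zero hc)
    rw [hx, smul_smul, inv_mul_cancel₀ hc, one_smul] at h1
    exact h1
  set x' : EN N := χ'.σ (χ'.q (χ.σ p)) with hx'
  set A : ℂ × ℂ := fderiv ℂ (fun y => χ'.q (χ.σ y)) p (1, 0) with hA
  set B : ℂ × ℂ := fderiv ℂ (fun y => χ'.q (χ.σ y)) p (0, 1) with hB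
  have htA : Tan K x' (fderiv ℂ χ'.σ (χ'.q (χ.σ p)) A) := χ'.tan hK hτ hx'K A
  have htB : Tan K x' (fderiv ℂ χ'.σ (χ'.q (χ.σ p)) B) := χ'.tan hK hτ hx'K B
  have hV : fderiv ℂ χ.σ p (1, 0) =
      c • fderiv ℂ χ'.σ (χ'.q (χ.σ p)) A + (c' (1, 0) * c⁻¹) • (c • x') := by
    rw [hD (1, 0), smul_smul, mul_assoc, inv_mul_cancel₀ hc, mul_one]
  have hW : fderiv ℂ χ.σ p (0, 1) =
      c • fderiv ℂ χ'.σ (χ'.q (χ.σ p)) B + (c' (0, 1) * c⁻¹) • (c • x') := by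
    rw [hD (0, 1), smul_smul, mul_assoc, inv_mul_cancel₀ hc, mul_one]
  have hcx : c • x' ∈ K := hK.smul_mem _ hx'K c hc
  have h1 := Ω.add_smul (c • x') hcx _ _ (FormTrans_tan_smul hK htA hc)
    (FormTrans_tan_smul hK htB hc) (c' (1, 0) * c⁻¹) (c' (0, 1) * c⁻¹)
  have h2 := Ω.scale x' hx'K _ _ htA htB c hc
  have h3 := Ω.det x' hx'K _ _ (χ'.tan hK hτ hx'K (1, 0)) (χ'.tan hK hτ hx'K (0, 1))
    A.1 A.2 B.1 B.2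
  rw [← FormTrans_pair, ← FormTrans_pair] at h3
  have h4 : aCoef Ω χ p = Ω.toFun (c • x') (c • fderiv ℂ χ'.σ (χ'.q (χ.σ p)) A)
      (c • fderiv ℂ χ'.σ (χ'.q (χ.σ p)) B) := by
    rw [← h1, ← hV, ← hW, ← hx]
    rfl
  rw [h4, h2, h3]
  have h5 : jac (fun y => χ'.q (χ.σ y)) p = A.1 * B.2 - A.2 * B.1 := by
    show A.1 * B.2 - B.1 * A.2 = _
    ring
  rw [h5]
  rfl

theorem ACoef_trans (hX : IsCone X) (hK : IsOpenPart X K) (hm : 1 ≤ m) (Ω : Form K m j)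
    (χ χ' : Chart X) {p : ℂ × ℂ} (hp : p ∈ ball (0 : ℂ × ℂ) 2) (hpK : χ.σ p ∈ K)
    (hU : χ.σ p ∈ χ'.U) :
    ACoef Ω χ p = ‖jac (fun y => χ'.q (χ.σ y)) p‖ * ACoef Ω χ' (χ'.q (χ.σ p)) := by
  obtain ⟨c, hc, hx, hcoef⟩ := FormTrans_coef hX hK Ω χ χ' hp hpK hU
  have hmR : (0 : ℝ) < (m : ℝ) := by exact_mod_cast hm
  have hcn : 0 < ‖c‖ := norm_pos_iff.2 hc
  have hnorm : ‖c‖ ^ j * ‖aCoef Ω χ p‖ =
      ‖jac (fun y => χ'.q (χ.σ y)) p‖ ^ m * ‖aCoef Ω χ' (χ'.q (χ.σ p))‖ := by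
    have h1 := congrArg norm hcoef
    rw [norm_mul, norm_mul, norm_pow, norm_pow] at h1
    exact h1
  have hroot : (‖c‖ ^ j * ‖aCoef Ω χ p‖) ^ (1 / (m : ℝ)) =
      (‖jac (fun y => χ'.q (χ.σ y)) p‖ ^ m * ‖aCoef Ω χ' (χ'.q (χ.σ p))‖) ^ (1 / (m : ℝ)) := by
    rw [hnorm]
  rw [Real.mul_rpow (by positivity) (norm_nonneg _), Real.mul_rpow (by positivity) (norm_nonneg _),
    ← Real.rpow_natCast ‖c‖ j, ← Real.rpow_natCast ‖jac (fun y => χ'.q (χ.σ y)) p‖ m,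
    ← Real.rpow_mul hcn.le, ← Real.rpow_mul (norm_nonneg _)] at hroot
  have h1 : (m : ℝ) * (1 / (m : ℝ)) = 1 := by
    field_simp
  have h2 : (j : ℝ) * (1 / (m : ℝ)) = (j : ℝ) / m := by ring
  rw [h1, h2, Real.rpow_one] at hroot
  unfold ACoef
  have h3 : ‖χ.σ p‖ = ‖c‖ * ‖χ'.σ (χ'.q (χ.σ p))‖ := by
    conv_lhs => rw [hx]
    rw [norm_smul]
  rw [h3, Real.mul_rpow hcn.le (norm_nonneg _)]
  calc ‖aCoef Ω χ p‖ ^ (1 / (m : ℝ)) * (‖c‖ ^ ((j : ℝ) / m) * ‖χ'.σ (χ'.q (χ.σ p))‖ ^ ((j : ℝ) / m))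
      = (‖c‖ ^ ((j : ℝ) / m) * ‖aCoef Ω χ p‖ ^ (1 / (m : ℝ))) *
          ‖χ'.σ (χ'.q (χ.σ p))‖ ^ ((j : ℝ) / m) := by ring
    _ = ‖jac (fun y => χ'.q (χ.σ y)) p‖ * ‖aCoef Ω χ' (χ'.q (χ.σ p))‖ ^ (1 / (m : ℝ)) *
          ‖χ'.σ (χ'.q (χ.σ p))‖ ^ ((j : ℝ) / m) := by rw [hroot]
    _ = _ := by ring

end Pool.Agent.H14.PP
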