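import Pool.Agent.H14.PP.TECompact
import Pool.Agent.H14.PP.Dom
import Pool.Agent.H14.PP.PieceBasic
import Pool.Agent.H14.PP.FormTrans

/-!
# BPm NearDom: comparison of the metrics of two charts

Let `C, r` be as in `exists_transition`, `r₁` as in `dom`, `r' = min r r₁` and less than `1`.
`p` with `‖p‖ = 1` and `small (nd i) p ≤ r'`: there is an orientation `b` (`b = true` only if
`nd i = true`) such that `p₁ = ori b p` has `‖p₁.2‖ = 1`, `‖p₁.1‖ ≤ r'`. With `χ₁ = (χ i).orient b`,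
`χ₂ = (χ k).orient b'` from `exists_transition`, `τ = χ₂.q ∘ χ₁.σ`, the matrix entries of
`fderiv ℂ τ p₁`, `A = ACoef Ω χ₁ p₁`, `A' = ACoef Ω χ₂ (τ p₁)` (`ACoef_trans`) apply `dom`.
Finally go back to the charts without orientation: `ACoef_swap`, `pM_swap`,
`τ = ori b' ∘ ((χ k).q ∘ (χ i).σ) ∘ ori b`, so
`fderiv ℂ τ (ori b p) (ori b w) = ori b' (fderiv ℂ ((χ k).q ∘ (χ i).σ) p w)` (`ori` is linear). For
`ACoef_swap` of `χ k` one needs `(χ k).σ (q') ∈ K`, `q' = (χ k).q ((χ i).σ p)`: a nonzero multiple of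
`(χ i).σ p ∈ K` (`Chart.sigma_mem_iff`).
-/

open Topology Filter Metric

namespace Pool.Agent.H14.PP

open Pool.Agent.H36.BP

variable {N : ℕ} {X K T : Set (EN N)} {m j : ℕ}

private theorem nearDom_ori_ori (b : Bool) (p : ℂ × ℂ) : ori b (ori b p) = p := by
  cases b
  · simp [ori]
  · simp [ori]

private theorem nearDom_norm_ori (b : Bool) (p : ℂ × ℂ) : ‖ori b p‖ = ‖p‖ := by
  cases b
  · simp [ori]
  · simp only [ori, if_true, Prod.norm_def, Prod.fst_swap, Prod.snd_swap]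
    exact max_comm _ _

private theorem nearDom_orient_sigma (b : Bool) (χ : Chart X) (p : ℂ × ℂ) :
    (χ.orient b).σ p = χ.σ (ori b p) := by
  cases b
  · rfl
  · rfl

private theorem nearDom_orient_q (b : Bool) (χ : Chart X) (x : EN N) :
    (χ.orient b).q x = ori b (χ.q x) := by
  cases b
  · rfl
  · rfl

private theorem nearDom_orient_U (b : Bool) (χ : Chart X) : (χ.orient b).U = χ.U := by
  cases b
  · rfl
  · rfl

private theorem nearDom_ACoef (hK : IsOpenPart X K) (Ω : Form K m j) (b : Bool) (χ : Chart X)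
    {p : ℂ × ℂ} (hp : p ∈ ball (0 : ℂ × ℂ) 2) (hpK : χ.σ p ∈ K) :
    ACoef Ω (χ.orient b) (ori b p) = ACoef Ω χ p := by
  cases b
  · rfl
  · exact ACoef_swap hK Ω χ hp hpK

private theorem nearDom_pM (P : Par) (b nd : Bool) (hb : b = true → nd = true) (p w : ℂ × ℂ) :
    pM nd P (ori b p) (ori b w) = pM nd P p w := by
  cases b
  · rfl
  · have h := hb rfl
    subst h
    exact pM_swap p w

private noncomputable def nearDomL (b : Bool) : ℂ × ℂ →L[ℂ] ℂ × ℂ :=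
  if b = true then (ContinuousLinearMap.snd ℂ ℂ ℂ).prod (ContinuousLinearMap.fst ℂ ℂ ℂ)
  else ContinuousLinearMap.id ℂ (ℂ × ℂ)

private theorem nearDomL_apply (b : Bool) (p : ℂ × ℂ) : nearDomL b p = ori b p := by
  cases b
  · simp [nearDomL, ori]
  · simp [nearDomL, ori, Prod.swap]

private theorem nearDom_fderiv (b b' : Bool) (χ χ' : Chart X) {p : ℂ × ℂ}
    (hp : p ∈ ball (0 : ℂ × ℂ) 2) (hU : χ.σ p ∈ χ'.U) (w : ℂ × ℂ) :
    fderiv ℂ (fun y => (χ'.orient b').q ((χ.orient b).σ y)) (ori b p) (ori b w) =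
      ori b' (fderiv ℂ (fun y => χ'.q (χ.σ y)) p w) := by
  have hd : DifferentiableAt ℂ (fun y => χ'.q (χ.σ y)) p :=
    ((χ'.q_an _ hU).differentiableAt).comp p ((χ.σ_an p hp).differentiableAt)
  have h1 : HasFDerivAt (fun y => χ'.q (χ.σ y)) (fderiv ℂ (fun y => χ'.q (χ.σ y)) p)
      (nearDomL b (ori b p)) := by
    rw [nearDomL_apply, nearDom_ori_ori]
    exact hd.hasFDerivAt
  have h2 : HasFDerivAt (fun y => χ'.q (χ.σ (nearDomL b y)))
      ((fderiv ℂ (fun y => χ'.q (χ.σ y)) p).comp (nearDomL b)) (ori b p) :=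
    h1.comp (ori b p) (nearDomL b).hasFDerivAt
  have h3 : HasFDerivAt (fun y => nearDomL b' (χ'.q (χ.σ (nearDomL b y))))
      ((nearDomL b').comp ((fderiv ℂ (fun y => χ'.q (χ.σ y)) p).comp (nearDomL b))) (ori b p) :=
    (nearDomL b').hasFDerivAt.comp (ori b p) h2
  have h4 : (fun y => (χ'.orient b').q ((χ.orient b).σ y)) =
      fun y => nearDomL b' (χ'.q (χ.σ (nearDomL b y))) := by
    funext y
    rw [nearDom_orient_q, nearDom_orient_sigma, nearDomL_apply, nearDomL_apply]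
  rw [h4, h3.fderiv]
  simp only [ContinuousLinearMap.comp_apply, nearDomL_apply, nearDom_ori_ori]

private theorem nearDom_apply (L : ℂ × ℂ →L[ℂ] ℂ × ℂ) (w : ℂ × ℂ) :
    L w = ((L (1, 0)).1 * w.1 + (L (0, 1)).1 * w.2, (L (1, 0)).2 * w.1 + (L (0, 1)).2 * w.2) := by
  have h : w = w.1 • ((1 : ℂ), (0 : ℂ)) + w.2 • ((0 : ℂ), (1 : ℂ)) := by
    ext
    · simp
    · simp
  have h2 : L w = w.1 • L (1, 0) + w.2 • L (0, 1) := by
    conv_lhs => rw [h]
    rw [map_add, map_smul, map_smul]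
  rw [h2]
  ext
  · simp only [Prod.fst_add, Prod.smul_fst, smul_eq_mul]
    ring
  · simp only [Prod.snd_add, Prod.smul_snd, smul_eq_mul]
    ring

/-- the choice of the orientation -/
private theorem nearDom_orientation (nd : Bool) {p : ℂ × ℂ} {s : ℝ} (hp : ‖p‖ = 1)
    (hs : small nd p ≤ s) (hs1 : s < 1) :
    ∃ b : Bool, (b = true → nd = true) ∧ ‖(ori b p).2‖ = 1 ∧ ‖(ori b p).1‖ ≤ s := by
  have hmax : max ‖p.1‖ ‖p.2‖ = 1 := by rw [← hp, Prod.norm_def]
  cases nd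
  · have h1 : ‖p.1‖ ≤ s := by simpa [small] using hs
    refine ⟨false, fun h => h, ?_, ?_⟩
    · rcases max_choice ‖p.1‖ ‖p.2‖ with h | h
      · rw [h] at hmax
        linarith
      · rw [h] at hmax
        simpa [ori] using hmax
    · simpa [ori] using h1
  · have h1 : ‖p.1‖ * ‖p.2‖ ≤ s := by simpa [small] using hs
    rcases max_choice ‖p.1‖ ‖p.2‖ with h | h
    · rw [h] at hmax
      refine ⟨true, fun _ => rfl, ?_, ?_⟩
      · simpa [ori] using hmax
      · rw [hmax, one_mul] at h1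
        simpa [ori] using h1
    · rw [h] at hmax
      refine ⟨false, fun _ => rfl, ?_, ?_⟩
      · simpa [ori] using hmax
      · rw [hmax, mul_one] at h1
        simpa [ori] using h1

theorem near_dom (hX : IsCone X) (hK : IsOpenPart X K) (hm : 1 ≤ m) (Ω : Form K m j) {n : ℕ}
    (χ : Fin n → Chart X) (nd : Fin n → Bool) {C r : ℝ} (hC : 1 ≤ C) (hr : 0 < r)
    (htr : ∀ (i : Fin n) (b : Bool), (b = true → nd i = true) →
      ∀ p : ℂ × ℂ, ‖p.2‖ = 1 → ‖p.1‖ ≤ r →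
        ∃ (k : Fin n) (b' : Bool), (b' = true → nd k = true) ∧
          Transition C ((χ i).orient b) ((χ k).orient b') (nd k) p)
    {P : Par} (hP : DomPar C P) :
    ∃ r' : ℝ, 0 < r' ∧ ∀ (i : Fin n) (p w : ℂ × ℂ), ‖p‖ = 1 → small (nd i) p ≤ r' →
      (χ i).σ p ∈ K → 0 < ACoef Ω (χ i) p * pM (nd i) P p w →
      ∃ k, (χ i).σ p ∈ (χ k).U ∧ ‖(χ k).q ((χ i).σ p)‖ < 1 / 2 ∧
        ACoef Ω (χ i) p * pM (nd i) P p w <
          ACoef Ω (χ k) ((χ k).q ((χ i).σ p)) * pM (nd k) P ((χ k).q ((χ i).σ p))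
            (fderiv ℂ (fun y => (χ k).q ((χ i).σ y)) p w) := by
  obtain ⟨r₁, hr₁, hr₁1, hdom⟩ := dom hC hP
  refine ⟨min (min r r₁) (1 / 2), lt_min (lt_min hr hr₁) (by norm_num), ?_⟩
  intro i p w hp hsm hpK hpos
  obtain ⟨b, hb, hb2, hb1⟩ := nearDom_orientation (nd i) hp hsm
    (lt_of_le_of_lt (min_le_right _ _) (by norm_num))
  have hbr : ‖(ori b p).1‖ ≤ r := hb1.trans ((min_le_left _ _).trans (min_le_left _ _))
  have hbr₁ : ‖(ori b p).1‖ ≤ r₁ := hb1.trans ((min_le_left _ _).trans (min_le_right _ _))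
  obtain ⟨k, b', hb', hU, hn, hTE, hnd⟩ := htr i b hb (ori b p) hb2 hbr
  have hpb : p ∈ ball (0 : ℂ × ℂ) 2 := by
    rw [mem_ball_zero_iff, hp]
    norm_num
  have hpb' : ori b p ∈ ball (0 : ℂ × ℂ) 2 := by
    rw [mem_ball_zero_iff, nearDom_norm_ori, hp]
    norm_num
  have hσ : ((χ i).orient b).σ (ori b p) = (χ i).σ p := by
    rw [nearDom_orient_sigma, nearDom_ori_ori]
  have hU' : (χ i).σ p ∈ (χ k).U := by
    rw [hσ, nearDom_orient_U] at hU
    exact hU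
  have hn' : ‖(χ k).q ((χ i).σ p)‖ < 1 / 2 := by
    rw [hσ, nearDom_orient_q, nearDom_norm_ori] at hn
    exact hn
  have hqb : (χ k).q ((χ i).σ p) ∈ ball (0 : ℂ × ℂ) 2 := by
    rw [mem_ball_zero_iff]
    linarith
  have hpX : (χ i).σ p ∈ X := hK.subset hpK
  have hqK : (χ k).σ ((χ k).q ((χ i).σ p)) ∈ K :=
    ((χ k).sigma_mem_iff hpX hU' hK.smul_mem).mpr hpK
  have hA : ACoef Ω ((χ i).orient b) (ori b p) = ACoef Ω (χ i) p :=
    nearDom_ACoef hK Ω b (χ i) hpb hpK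
  have hA' : ACoef Ω ((χ k).orient b') (ori b' ((χ k).q ((χ i).σ p))) =
      ACoef Ω (χ k) ((χ k).q ((χ i).σ p)) :=
    nearDom_ACoef hK Ω b' (χ k) hqb hqK
  have hq : ((χ k).orient b').q (((χ i).orient b).σ (ori b p)) =
      ori b' ((χ k).q ((χ i).σ p)) := by
    rw [hσ, nearDom_orient_q]
  have htrans := ACoef_trans hX hK hm Ω ((χ i).orient b) ((χ k).orient b') hpb'
    (by rw [hσ]; exact hpK) hU
  have hmain := hdom (nd i) (nd k) (ori b p) (ori b w)
    (((χ k).orient b').q (((χ i).orient b).σ (ori b p)))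
    _ _ _ _ (ACoef Ω ((χ i).orient b) (ori b p))
    (ACoef Ω ((χ k).orient b') (((χ k).orient b').q (((χ i).orient b).σ (ori b p))))
    hbr₁ hb2 hn.le hnd hTE (ACoef_nonneg _ _ _) htrans
    (by rw [hA, nearDom_pM P b (nd i) hb]; exact hpos)
  rw [← nearDom_apply, hA, nearDom_pM P b (nd i) hb, nearDom_fderiv b b' (χ i) (χ k) hpb hU', hq,
    hA', nearDom_pM P b' (nd k) hb'] at hmain
  exact ⟨k, hU', hn', hmain⟩

end Pool.Agent.H14.PP
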