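import Pool.Agent.H14.PP.Defs

/-!
# BPm Params: choice of the parameters

Given `C ≥ 1`, `ε₁ > 0`, `κ₁ > 0`: `ε = min ε₁ 1`; `κ = min (min (1/4) κ₁) (ε/(8 (1 + log C)))`; `K > 0` with
`16 C^4 e^2 ≤ exp (3K/4)`; then `M ≥ 1` so large that with `e = ε/(16 log (1 + M))`:
`K ≤ e M κ^2 (exp (-K-1)/2)^2/4`, possible because `M/log (1+M) → ∞`.
-/

open Topology Filter Metric

namespace Pool.Agent.H14.PP

theorem exists_params {C ε₁ κ₁ : ℝ} (hC : 1 ≤ C) (hε₁ : 0 < ε₁) (hκ₁ : 0 < κ₁) :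
    ∃ P : Par, P.ε ≤ ε₁ ∧ P.κ ≤ κ₁ ∧ DomPar C P ∧ ConvPar P := by
  have hC0 : 0 < C := by linarith
  have hlogC : 0 ≤ Real.log C := Real.log_nonneg hC
  obtain ⟨ε, hε, hε1, hεε₁⟩ : ∃ ε : ℝ, 0 < ε ∧ ε ≤ 1 ∧ ε ≤ ε₁ :=
    ⟨min ε₁ 1, lt_min hε₁ one_pos, min_le_right _ _, min_le_left _ _⟩
  obtain ⟨κ, hκ, hκ4, hκκ₁, hκC⟩ : ∃ κ : ℝ, 0 < κ ∧ κ ≤ 1 / 4 ∧ κ ≤ κ₁ ∧ κ ≤ ε / (8 * (1 + Real.log C)) := by
    have h1 : 0 < ε / (8 * (1 + Real.log C)) := by positivity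
    refine ⟨min (min (1 / 4) κ₁) (ε / (8 * (1 + Real.log C))), ?_, ?_, ?_, ?_⟩
    · exact lt_min (lt_min (by norm_num) hκ₁) h1
    · exact (min_le_left _ _).trans (min_le_left _ _)
    · exact (min_le_left _ _).trans (min_le_right _ _)
    · exact min_le_right _ _
  have hκlog : κ * Real.log C ≤ ε / 8 := by
    have h1 : 0 < 8 * (1 + Real.log C) := by positivity
    rw [le_div_iff₀ h1] at hκC
    have h2 : 0 ≤ κ := hκ.le
    nlinarith
  obtain ⟨K, hK, hKe⟩ : ∃ K : ℝ, 0 < K ∧ 16 * C ^ 4 * Real.exp 2 ≤ Real.exp (3 * K / 4) := by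
    have h1 : 1 < 16 * C ^ 4 * Real.exp 2 := by
      have h2 : 1 ≤ C ^ 4 := one_le_pow₀ hC
      have h3 : 1 ≤ Real.exp 2 := Real.one_le_exp (by norm_num)
      nlinarith [mul_le_mul h2 h3 zero_le_one (by positivity)]
    have h2 : 0 < Real.log (16 * C ^ 4 * Real.exp 2) := Real.log_pos h1
    refine ⟨4 / 3 * Real.log (16 * C ^ 4 * Real.exp 2), by positivity, ?_⟩
    have h3 : 3 * (4 / 3 * Real.log (16 * C ^ 4 * Real.exp 2)) / 4 = Real.log (16 * C ^ 4 * Real.exp 2) := by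
      ring
    rw [h3, Real.exp_log (by linarith)]
  have hc : 0 < ε * κ ^ 2 * (Real.exp (-K - 1) / 2) ^ 2 / (64 * K) := by positivity
  obtain ⟨M, hM, hlogM⟩ : ∃ M : ℝ, 1 ≤ M ∧
      Real.log (1 + M) ≤ ε * κ ^ 2 * (Real.exp (-K - 1) / 2) ^ 2 / (64 * K) * M := by
    have h := Real.isLittleO_log_id_atTop.def (half_pos hc)
    obtain ⟨x, hx, hx2⟩ := (h.and (eventually_ge_atTop (2 : ℝ))).exists
    refine ⟨x - 1, by linarith, ?_⟩
    have e1 : 1 + (x - 1) = x := by ring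
    rw [e1]
    have e2 : |Real.log x| ≤ ε * κ ^ 2 * (Real.exp (-K - 1) / 2) ^ 2 / (64 * K) / 2 * |x| := by
      simpa only [Real.norm_eq_abs, id_eq] using hx
    rw [abs_of_nonneg (by linarith : (0 : ℝ) ≤ x)] at e2
    have e3 := (le_abs_self _).trans e2
    have e4 : ε * κ ^ 2 * (Real.exp (-K - 1) / 2) ^ 2 / (64 * K) / 2 * x ≤
        ε * κ ^ 2 * (Real.exp (-K - 1) / 2) ^ 2 / (64 * K) * (x - 1) := by
      have e5 : x / 2 ≤ x - 1 := by linarith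
      have e6 := mul_le_mul_of_nonneg_left e5 hc.le
      calc _ = ε * κ ^ 2 * (Real.exp (-K - 1) / 2) ^ 2 / (64 * K) * (x / 2) := by ring
        _ ≤ _ := e6
    exact e3.trans e4
  have hlog0 : 0 < Real.log (1 + M) := Real.log_pos (by linarith)
  have hlogne : Real.log (1 + M) ≠ 0 := hlog0.ne'
  have he : ε / (16 * Real.log (1 + M)) * Real.log (1 + M) = ε / 16 := by
    field_simp
  have hmain : K ≤ ε / (16 * Real.log (1 + M)) * M * κ ^ 2 * (Real.exp (-K - 1) / 2) ^ 2 / 4 := by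
    have h1 : Real.log (1 + M) * (64 * K) ≤ ε * κ ^ 2 * (Real.exp (-K - 1) / 2) ^ 2 * M := by
      have h2 := mul_le_mul_of_nonneg_right hlogM (by positivity : (0 : ℝ) ≤ 64 * K)
      calc Real.log (1 + M) * (64 * K) ≤ _ := h2
        _ = ε * κ ^ 2 * (Real.exp (-K - 1) / 2) ^ 2 * M := by
          field_simp
    have h3 : ε / (16 * Real.log (1 + M)) * M * κ ^ 2 * (Real.exp (-K - 1) / 2) ^ 2 / 4 =
        ε * κ ^ 2 * (Real.exp (-K - 1) / 2) ^ 2 * M / (64 * Real.log (1 + M)) := by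
      field_simp
      norm_num
    rw [h3, le_div_iff₀ (by positivity)]
    calc K * (64 * Real.log (1 + M)) = Real.log (1 + M) * (64 * K) := by ring
      _ ≤ _ := h1
  have hepos : 0 < ε / (16 * Real.log (1 + M)) := by positivity
  refine ⟨⟨ε, κ, K, M, ε / (16 * Real.log (1 + M))⟩, hεε₁, hκκ₁, ?_, ?_⟩
  · exact ⟨hε, hε1, hκ, hκ4, hκlog, hK, hKe, hM, hepos, he.le⟩
  · exact ⟨hε, hε1, hκ, hκ4, hK, hM, hepos, he.le, hmain⟩

end Pool.Agent.H14.PP
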