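import Pool.Agent.H14.PP.Cover
import Pool.Agent.H14.PP.NearDom
import Pool.Agent.H14.PP.ConvNum
import Pool.Agent.H14.PP.ConvChart
import Pool.Agent.H14.PP.Params
import Pool.Agent.H14.PP.NearBounds
import Pool.Agent.H14.PP.GRules
import Pool.Agent.H14.PP.GUsc
import Pool.Agent.H14.PP.FarSub
import Pool.Agent.H14.PP.LimNear
import Pool.Agent.H14.PP.ChartFs

/-!
# The metric theorem
-/

open Topology Filter Metric

namespace Pool.Agent.H14.PP

open Pool.Agent.H36.BP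

variable {N : ℕ} {W : Type*} [NormedAddCommGroup W] [InnerProductSpace ℂ W]
  {X K T : Set (EN N)} {m j : ℕ} {Q : EN N → W} {D : ℕ}

/-- a common upper bound -/
lemma exists_ub {n : ℕ} (f : Fin n → ℝ) : ∃ C : ℝ, 1 ≤ C ∧ ∀ i, f i ≤ C := by
  refine ⟨1 + ∑ i, |f i|, ?_, fun i => ?_⟩
  · have : 0 ≤ ∑ i, |f i| := Finset.sum_nonneg fun i _ => abs_nonneg _
    linarith
  · have h1 : |f i| ≤ ∑ i, |f i| :=
      Finset.single_le_sum (f := fun i => |f i|) (fun i _ => abs_nonneg _) (Finset.mem_univ i)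
    have h2 := le_abs_self (f i)
    linarith

/-- a common positive lower bound -/
lemma exists_lb {n : ℕ} (f : Fin n → ℝ) (hf : ∀ i, 0 < f i) :
    ∃ c : ℝ, 0 < c ∧ c ≤ 1 ∧ ∀ i, c ≤ f i := by
  obtain ⟨C, hC, hCf⟩ := exists_ub fun i => (f i)⁻¹
  refine ⟨C⁻¹, by positivity, inv_le_one_of_one_le₀ hC, fun i => ?_⟩
  exact inv_le_of_inv_le₀ (hf i) (hCf i)

/-- a common upper bound for natural numbers -/
lemma exists_nat_ub {n : ℕ} (f : Fin n → ℕ) : ∃ M : ℕ, ∀ i, f i ≤ M :=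
  ⟨Finset.univ.sup f, fun i => Finset.le_sup (Finset.mem_univ i)⟩

section chart

variable {Ω : Form K m j} {n : ℕ} {χ : Fin n → Chart X} {nd : Fin n → Bool} {P : Par}
  {M' : ℕ} {δ c₁ : ℝ}

/-- upper bound of the near metrics -/
lemma near_fs_upper (hX : IsCone X) (hK : IsOpenPart X K) (hQ : IsEq X T Q D) (hm : 1 ≤ m)
    (hΩ : Ω.PoleBound X) (hP : ConvPar P) {d : Fin n → Bool × Bool}
    (h : ∀ i, HasType T (χ i) (nd i)) (hd : ∀ i, DType K (χ i) (d i))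
    (hdn : ∀ i, (d i).2 = true → nd i = true) {CE : ℝ}
    (hCE : ∀ i, ∀ x ∈ X, x ∈ (χ i).U → ‖(χ i).q x‖ ≤ 1 → ∀ v,
      ‖fderiv ℂ (χ i).q x v‖ ≤ CE * fs x v) :
    ∃ C : ℝ, 0 < C ∧ ∀ (δ : ℝ) (i : Fin n), ∀ x ∈ K, ∀ v,
      rho Q D x ^ 2 * nearG Ω χ nd P Q D δ i x v ≤ C * fs x v := by
  choose CN hCN hup using fun i => near_upper hX hQ hm Ω hΩ (χ i) hP (h i) (hd i) (hdn i)
  obtain ⟨C, hC1, hC⟩ := exists_ub CN
  obtain ⟨CE', hCE1, hCE'⟩ : ∃ CE', 1 ≤ CE' ∧ CE ≤ CE' := ⟨max CE 1, le_max_right _ _,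
    le_max_left _ _⟩
  refine ⟨C * CE', by positivity, fun δ i x hx v => ?_⟩
  have hfs := fs_nonneg x v
  by_cases hmem : x ∈ X ∧ x ∈ (χ i).U ∧ ‖(χ i).q x‖ ≤ 1 ∧ rho Q D x ≤ δ
  · obtain ⟨h1, h2, h3, h4⟩ := hmem
    rw [nearG_of_mem h1 h2 h3 h4]
    have h5 := hup i ((χ i).q x) (by simpa using h3)
      (((χ i).sigma_mem_iff h1 h2 hK.smul_mem).mpr hx) (fderiv ℂ (χ i).q x v)
    rw [(χ i).rho_sigma hQ.smul h1 h2] at h5
    refine h5.trans ?_
    have h6 := hCE i x h1 h2 h3 v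
    have h7 : CE * fs x v ≤ CE' * fs x v := by gcongr
    calc CN i * ‖fderiv ℂ (χ i).q x v‖ ≤ C * (CE' * fs x v) := by
          have := hC i
          have := (hCN i).le
          gcongr
          exact h6.trans h7
      _ = C * CE' * fs x v := by ring
  · have h5 : nearG Ω χ nd P Q D δ i x v = 0 := by
      unfold nearG
      rw [if_neg hmem]
    rw [h5, mul_zero]
    positivity

/-- lower bound of the near metrics along curves -/
lemma near_fs_lower (hX : IsCone X) (hK : IsOpenPart X K) (hKT : ∀ x ∈ X, x ∉ K → x ∈ T)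
    (hQ : IsEq X T Q D) (hm : 1 ≤ m) (hΩ : Ω.NoZeroOff T)
    (hΩ' : Ω.PoleBound X) (hP : ConvPar P) {d : Fin n → Bool × Bool}
    (h : ∀ i, HasType T (χ i) (nd i)) (hd : ∀ i, DType K (χ i) (d i))
    (hdn : ∀ i, (d i).2 = true → nd i = true) {CE : ℝ}
    (hCE : ∀ i, ∀ (F : ℂ → EN N) (z₀ : ℂ), CurveAt X F z₀ → F z₀ ∈ (χ i).U →
      ‖(χ i).q (F z₀)‖ ≤ 1 →
        fs (F z₀) (deriv F z₀) ≤ CE * ‖deriv (fun z => (χ i).q (F z)) z₀‖) :
    ∃ (M₀ : ℕ) (c : ℝ), 0 < c ∧ ∀ (δ : ℝ), δ ≤ 1 → ∀ (i : Fin n) (F : ℂ → EN N) (z₀ : ℂ),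
      CurveAt K F z₀ → F z₀ ∈ (χ i).U → ‖(χ i).q (F z₀)‖ ≤ 1 → rho Q D (F z₀) ≤ δ →
      c * rho Q D (F z₀) ^ M₀ * fs (F z₀) (deriv F z₀) ≤
        nearG Ω χ nd P Q D δ i (F z₀) (deriv F z₀) := by
  choose Ms cs hcs hlow using fun i =>
    near_lower hX hK hKT hQ hm Ω hΩ hΩ' (χ i) hP (h i) (hd i) (hdn i)
  obtain ⟨M₀, hM₀⟩ := exists_nat_ub Ms
  obtain ⟨c, hc, -, hcc⟩ := exists_lb cs hcs
  obtain ⟨CE', hCE1, hCE'⟩ : ∃ CE', 1 ≤ CE' ∧ CE ≤ CE' := ⟨max CE 1, le_max_right _ _,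
    le_max_left _ _⟩
  have hCE0 : 0 < CE' := by linarith
  refine ⟨M₀, c / CE', by positivity, fun δ hδ i F z₀ hF hU hq hρ => ?_⟩
  have hFX : CurveAt X F z₀ := hF.mono hK.subset
  have hρ0 := rho_nonneg Q D (F z₀)
  rw [nearG_of_mem hFX.mem hU hq hρ]
  have h5 := hlow i ((χ i).q (F z₀)) (by simpa using hq)
    (((χ i).sigma_mem_iff hFX.mem hU hK.smul_mem).mpr hF.mem) (fderiv ℂ (χ i).q (F z₀) (deriv F z₀))
  rw [(χ i).rho_sigma hQ.smul hFX.mem hU] at h5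
  refine le_trans ?_ h5
  obtain ⟨-, h6, -⟩ := (χ i).curve hX hFX hU
  rw [← h6]
  have h7 := hCE i F z₀ hFX hU hq
  have h8 : fs (F z₀) (deriv F z₀) ≤ CE' * ‖deriv (fun z => (χ i).q (F z)) z₀‖ :=
    h7.trans (by gcongr)
  have h9 : rho Q D (F z₀) ^ M₀ ≤ rho Q D (F z₀) ^ Ms i :=
    pow_le_pow_of_le_one hρ0 (hρ.trans hδ) (hM₀ i)
  calc c / CE' * rho Q D (F z₀) ^ M₀ * fs (F z₀) (deriv F z₀)
      ≤ c / CE' * rho Q D (F z₀) ^ M₀ * (CE' * ‖deriv (fun z => (χ i).q (F z)) z₀‖) := by gcongr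
    _ = c * rho Q D (F z₀) ^ M₀ * ‖deriv (fun z => (χ i).q (F z)) z₀‖ := by field_simp
    _ ≤ cs i * rho Q D (F z₀) ^ Ms i * ‖deriv (fun z => (χ i).q (F z)) z₀‖ := by
        have h10 := hcc i
        have h11 := (hcs i).le
        have h12 : 0 ≤ ‖deriv (fun z => (χ i).q (F z)) z₀‖ := norm_nonneg _
        have h13 := pow_nonneg hρ0 (Ms i)
        have h14 := pow_nonneg hρ0 M₀
        exact mul_le_mul_of_nonneg_right (mul_le_mul h10 h9 h14 h11) h12

/-- at the boundary of a chart another chart has a larger metric -/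
lemma near_boundary (hX : IsCone X) (hK : IsOpenPart X K) (hQ : IsEq X T Q D) {r' : ℝ}
    (hdom : ∀ (i : Fin n) (p w : ℂ × ℂ), ‖p‖ = 1 → small (nd i) p ≤ r' →
      (χ i).σ p ∈ K → 0 < ACoef Ω (χ i) p * pM (nd i) P p w →
      ∃ k, (χ i).σ p ∈ (χ k).U ∧ ‖(χ k).q ((χ i).σ p)‖ < 1 / 2 ∧
        ACoef Ω (χ i) p * pM (nd i) P p w <
          ACoef Ω (χ k) ((χ k).q ((χ i).σ p)) * pM (nd k) P ((χ k).q ((χ i).σ p))
            (fderiv ℂ (fun y => (χ k).q ((χ i).σ y)) p w))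
    {δ : ℝ} (hsm : ∀ i, ∀ p ∈ closedBall (0 : ℂ × ℂ) 1, rho Q D ((χ i).σ p) ≤ δ →
      small (nd i) p ≤ r')
    {i : Fin n} {F : ℂ → EN N} {z₀ : ℂ} (hF : CurveAt K F z₀)
    (hpos : 0 < nearG Ω χ nd P Q D δ i (F z₀) (deriv F z₀))
    (hq : ‖(χ i).q (F z₀)‖ = 1) :
    ∃ k, nearG Ω χ nd P Q D δ i (F z₀) (deriv F z₀) <
      nearG Ω χ nd P Q D δ k (F z₀) (deriv F z₀) := by
  have hFX : CurveAt X F z₀ := hF.mono hK.subset
  obtain ⟨h1, h2, h3, h4⟩ := mem_of_nearG_pos hpos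
  rw [nearG_of_mem h1 h2 h3 h4] at hpos ⊢
  have hρσ := (χ i).rho_sigma hQ.smul h1 h2
  have hσK := ((χ i).sigma_mem_iff h1 h2 hK.smul_mem).mpr hF.mem
  obtain ⟨k, hk1, hk2, hk3⟩ := hdom i ((χ i).q (F z₀)) _ hq
    (hsm i _ (by simpa using h3) (by rw [hρσ]; exact h4)) hσK hpos
  refine ⟨k, ?_⟩
  obtain ⟨hqan, hqd, c, hc, hc0, hev⟩ := (χ i).curve hX hFX h2
  obtain ⟨hball, hFz⟩ := hev.self_of_nhds
  -- `F z₀` is in the chart `k`
  have hUk : F z₀ ∈ (χ k).U := by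
    rw [hFz]
    exact (χ k).smul_U _ hk1 _ hc0
  have hqk : (χ k).q (F z₀) = (χ k).q ((χ i).σ ((χ i).q (F z₀))) := by
    conv_lhs => rw [hFz]
    exact (χ k).q_smul _ hk1 _ hc0
  have hqk1 : ‖(χ k).q (F z₀)‖ ≤ 1 := by
    rw [hqk]
    linarith
  rw [nearG_of_mem h1 hUk hqk1 h4, hqk]
  refine lt_of_lt_of_eq hk3 ?_
  congr 2
  -- the derivative
  have hev2 : (fun z => (χ k).q (F z)) =ᶠ[𝓝 z₀]
      fun z => (χ k).q ((χ i).σ ((χ i).q (F z))) := by
    have h5 : ∀ᶠ z in 𝓝 z₀, F z ∈ (χ k).U :=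
      hF.1.continuousAt.eventually ((χ k).isOpen_U.mem_nhds hUk)
    have h6 : ∀ᶠ z in 𝓝 z₀, c z ≠ 0 := hc.continuousAt.eventually_ne hc0
    filter_upwards [hev, h5, h6] with z h7 h8 h9
    obtain ⟨h10, h11⟩ := h7
    have h12 : (χ i).σ ((χ i).q (F z)) = (c z)⁻¹ • F z := by
      conv_rhs => rw [h11]
      rw [smul_smul, inv_mul_cancel₀ h9, one_smul]
    rw [h12, (χ k).q_smul _ h8 _ (inv_ne_zero h9)]
  obtain ⟨-, hqkd, -⟩ := (χ k).curve hX hFX hUk
  rw [← hqkd, hev2.deriv_eq, ← hqd]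
  have hτ : DifferentiableAt ℂ (fun y => (χ k).q ((χ i).σ y)) ((χ i).q (F z₀)) := by
    refine (AnalyticAt.fun_comp ?_ ((χ i).σ_an _ hball)).differentiableAt
    exact (χ k).q_an _ hk1
  exact (fderiv_comp_deriv (f := fun z => (χ i).q (F z)) z₀ hτ hqan.differentiableAt).symm

end chart

theorem exists_metric (hX : IsCone X) (hK : IsOpenPart X K) (hKT : ∀ x ∈ X, x ∉ K → x ∈ T)
    (hQ : IsEq X T Q D) (hT : IsNodal X K T) (hm : 1 ≤ m) (hj : 1 ≤ j) (Ω : Form K m j)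
    (hΩ : Ω.NoZeroOff T) (hΩ' : Ω.PoleBound X)
    (hur : ∀ (l : Filter ℕ), l.NeBot → ∀ (F : ℕ → ℂ → EN N) (H : ℂ → EN N) (k : ℕ) (z₀ : ℂ)
      (s : ℝ), 0 < s → (∀ᶠ n in l, Curve K (Metric.ball z₀ s) (F n)) →
      DifferentiableOn ℂ H (Metric.ball z₀ s) →
      TendstoLocallyUniformlyOn F (fun z => (z - z₀) ^ k • H z) l (Metric.ball z₀ s) → H z₀ ≠ 0 →
      H z₀ ∉ K → ∀ᶠ z in 𝓝 z₀, H z ∉ K) :
    ∃ (M' : ℕ) (c₀ C : ℝ) (G : EN N → EN N → ℝ), MetricData K (K ∩ T) G (rho Q D) M' c₀ C := by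
  classical
  obtain ⟨n, χ, nd, d, hty, hdt, hdn, δ₀, hδ₀, hcov⟩ := exists_atlas hX hQ hT
  have hTX : T ⊆ X := fun x hx => ((hQ.mem_iff x).mp hx).1
  have hcovT : ∀ x ∈ T, ∃ i, x ∈ (χ i).U ∧ ‖(χ i).q x‖ < 1 / 2 := by
    intro x hx
    refine hcov x (hTX hx) ?_
    rw [(rho_eq_zero_iff (hX.ne_zero (hTX hx))).mpr ((hQ.mem_iff x).mp hx).2]
    exact hδ₀.le
  obtain ⟨CT, rT, hCT, hrT, htr⟩ :=
    exists_transition hX (fun x hx c hc => hQ.smul_mem hX hx hc) χ nd hty hcovT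
  choose CEs hCEs1 hCEs2 hCEs3 using fun i => (χ i).exists_fs_bound hX
  obtain ⟨CE, hCE1, hCE⟩ := exists_ub CEs
  have hCE0 : 0 < CE := by linarith
  have hfs1 : ∀ i, ∀ x ∈ X, x ∈ (χ i).U → ‖(χ i).q x‖ ≤ 1 → ∀ v,
      ‖fderiv ℂ (χ i).q x v‖ ≤ CE * fs x v := fun i x hx hU hq v =>
    (hCEs2 i x hx hU hq v).trans (mul_le_mul_of_nonneg_right (hCE i) (fs_nonneg x v))
  have hfs2 : ∀ i, ∀ (F : ℂ → EN N) (z₀ : ℂ), CurveAt X F z₀ → F z₀ ∈ (χ i).U →
      ‖(χ i).q (F z₀)‖ ≤ 1 →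
        fs (F z₀) (deriv F z₀) ≤ CE * ‖deriv (fun z => (χ i).q (F z)) z₀‖ :=
    fun i F z₀ hF hU hq => (hCEs3 i F z₀ hF hU hq).trans
      (mul_le_mul_of_nonneg_right (hCE i) (norm_nonneg _))
  have hm0 : (0 : ℝ) < m := by exact_mod_cast hm
  have hj0 : (0 : ℝ) < j := by exact_mod_cast hj
  set c₀ : ℝ := (j : ℝ) / m / 2 with hc₀
  have hc₀pos : 0 < c₀ := by positivity
  obtain ⟨P, hPε, hPκ, hPD, hPC⟩ := exists_params (C := CT) (ε₁ := c₀ / (16 * CE ^ 2))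
    (κ₁ := 1 / (2 * m)) hCT (by positivity) (by positivity)
  have hκm : P.κ < 1 / (m : ℝ) := by
    refine hPκ.trans_lt ?_
    apply one_div_lt_one_div_of_lt hm0
    linarith
  have hM0 : 0 ≤ P.M := by
    have := hPC.M_ge
    linarith
  obtain ⟨r₁, hr₁, hdom⟩ := near_dom hX hK hm Ω χ nd hCT hrT htr hPD
  obtain ⟨r₂, hr₂, -, hconv⟩ := conv_num hPC
  choose δs hδs hδs2 using fun i => small_of_rho hX hQ (χ i) (hty i) (lt_min hr₁ hr₂)
  obtain ⟨δ₂, hδ₂, hδ₂1, hδ₂s⟩ := exists_lb δs hδs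
  set δ : ℝ := min δ₂ δ₀ with hδdef
  have hδ : 0 < δ := lt_min hδ₂ hδ₀
  have hδ1 : δ ≤ 1 := (min_le_left _ _).trans hδ₂1
  have hsm : ∀ i, ∀ p ∈ closedBall (0 : ℂ × ℂ) 1, rho Q D ((χ i).σ p) ≤ δ →
      small (nd i) p ≤ min r₁ r₂ := fun i p hp h =>
    hδs2 i p hp ((h.trans (min_le_left _ _)).trans (hδ₂s i))
  obtain ⟨CN, hCN, hup⟩ := near_fs_upper (P := P) hX hK hQ hm hΩ' hPC hty hdt hdn hfs1
  obtain ⟨M₀, c, hc, hlow⟩ := near_fs_lower hX hK hKT hQ hm hΩ hΩ' hPC hty hdt hdn hfs2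
  set M' : ℕ := M₀ + 1 with hM'
  have hM'1 : 1 ≤ M' := by omega
  set c₁ : ℝ := δ ^ (M' + 2) / (2 * CN) with hc₁
  have hc₁pos : 0 < c₁ := by positivity
  set δ₁ : ℝ := min δ (c₁ * c) with hδ₁
  have hδ₁pos : 0 < δ₁ := lt_min hδ (by positivity)
  set CC : ℝ := (M' * D + 2 + c₀) / (2 * δ₁ ^ (2 * M')) with hCC
  have hCC0 : 0 ≤ CC := by positivity
  refine ⟨M', c₀, CC, GG Ω χ nd P Q D M' δ c₁, ?_⟩
  refine
    { ne := fun x hx => hX.ne_zero (hK.subset hx)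
      smul := hK.smul_mem
      c₀_pos := hc₀pos
      C_nonneg := hCC0
      nonneg := fun x _ v => GG_nonneg x v
      usc := fun x hx v a ha => GG_usc hX hK hQ hPC hc₁pos.le hx v ha
      inv := fun x hx v c a hc => GG_scale hX hQ (hK.subset hx) v a hc
      hom := fun x _ v c => GG_smul x v c
      zero := ?_
      sub := ?_
      ρ_nonneg := fun x _ => rho_nonneg Q D x
      lower := fun x _ v => pieceG_le_GG (Ω := Ω) (χ := χ) (nd := nd) (P := P) (Q := Q) (D := D)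
        (M' := M') (δ := δ) (c₁ := c₁) none x v
      ρ_zero := ?_
      rel_open := ?_
      hur := hur
      lim := ?_ }
  · intro F z₀ hF hev
    exact GG_zero hX hQ hM'1 hPC.κ_le hty ⟨hF, hev.mono fun z hz => hz.2.2⟩
  · intro F z₀ hF hev hpos
    have hCK : CurveAt K F z₀ := ⟨hF, hev⟩
    have hCX : CurveAt X F z₀ := hCK.mono hK.subset
    set G := GG Ω χ nd P Q D M' δ c₁ with hG
    obtain ⟨k, hk⟩ := exists_GG_eq (Ω := Ω) (χ := χ) (nd := nd) (P := P) (Q := Q) (D := D)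
      (M' := M') (δ := δ) (c₁ := c₁) (F z₀) (deriv F z₀)
    have hGz : mt G F z₀ = GG Ω χ nd P Q D M' δ c₁ (F z₀) (deriv F z₀) := rfl
    have hle : ∀ k z, pieceG Ω χ nd P Q D M' δ c₁ k (F z) (deriv F z) ≤ mt G F z :=
      fun k z => pieceG_le_GG k _ _
    have hrc : ContinuousAt (fun z => rho Q D (F z)) z₀ :=
      ContinuousAt.comp (g := rho Q D) (continuousAt_rho hQ.analytic (hX.ne_zero hCX.mem))
        hF.continuousAt
    match k, hk with
    | none, hk =>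
      have hk' : mt G F z₀ = rho Q D (F z₀) ^ M' * fs (F z₀) (deriv F z₀) := hGz.trans hk
      have hfs0 := fs_nonneg (F z₀) (deriv F z₀)
      have hρ0 := rho_nonneg Q D (F z₀)
      have hfspos : 0 < fs (F z₀) (deriv F z₀) := by
        rcases hfs0.lt_or_eq with h | h
        · exact h
        · rw [hk', ← h, mul_zero] at hpos
          exact absurd hpos (lt_irrefl 0)
      have hρpos : 0 < rho Q D (F z₀) := by
        rcases hρ0.lt_or_eq with h | h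
        · exact h
        · rw [hk', ← h, zero_pow (by omega), zero_mul] at hpos
          exact absurd hpos (lt_irrefl 0)
      have hρδ : δ₁ ≤ rho Q D (F z₀) := by
        by_contra hlt
        push Not at hlt
        have h1 : rho Q D (F z₀) ≤ δ := hlt.le.trans (min_le_left _ _)
        obtain ⟨i, hU, hq⟩ := hcov _ hCX.mem (h1.trans (min_le_right _ _))
        have h2 := hlow δ hδ1 i F z₀ hCK hU (by linarith) h1
        have h3 := hle (some i) z₀
        have h4 : pieceG Ω χ nd P Q D M' δ c₁ (some i) (F z₀) (deriv F z₀) =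
          c₁ * nearG Ω χ nd P Q D δ i (F z₀) (deriv F z₀) := rfl
        have h5 : rho Q D (F z₀) < c₁ * c := hlt.trans_le (min_le_right _ _)
        have h6 : rho Q D (F z₀) ^ M' * fs (F z₀) (deriv F z₀) <
            c₁ * (c * rho Q D (F z₀) ^ M₀ * fs (F z₀) (deriv F z₀)) := by
          have h7 : 0 < rho Q D (F z₀) ^ M₀ * fs (F z₀) (deriv F z₀) := by positivity
          calc rho Q D (F z₀) ^ M' * fs (F z₀) (deriv F z₀)
              = rho Q D (F z₀) * (rho Q D (F z₀) ^ M₀ * fs (F z₀) (deriv F z₀)) := by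
                rw [hM', pow_succ]
                ring
            _ < (c₁ * c) * (rho Q D (F z₀) ^ M₀ * fs (F z₀) (deriv F z₀)) :=
                mul_lt_mul_of_pos_right h5 h7
            _ = c₁ * (c * rho Q D (F z₀) ^ M₀ * fs (F z₀) (deriv F z₀)) := by ring
        have h8 : c₁ * (c * rho Q D (F z₀) ^ M₀ * fs (F z₀) (deriv F z₀)) ≤
            c₁ * nearG Ω χ nd P Q D δ i (F z₀) (deriv F z₀) :=
          mul_le_mul_of_nonneg_left h2 hc₁pos.le
        rw [h4, hk'] at h3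
        linarith
      have hs := sub_far (M' := M') hX hQ.analytic hCX hρpos hfspos hc₀pos.le
      refine (hs.mono ?_ ?_).anti ?_
      · rw [hk']
      · filter_upwards with z
        exact mul_le_mul_of_nonneg_right (hle none z) (Real.rpow_nonneg (norm_nonneg _) _)
      · rw [neg_le_neg_iff, hk', hCC]
        have h9 : δ₁ ^ (2 * M') ≤ rho Q D (F z₀) ^ (2 * M') :=
          pow_le_pow_left₀ hδ₁pos.le hρδ _
        have h10 : 0 < δ₁ ^ (2 * M') := by positivity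
        have h11 : 0 ≤ (M' * D + 2 + c₀ : ℝ) := by positivity
        rw [div_mul_eq_mul_div, le_div_iff₀ (by positivity), mul_pow, ← pow_mul, mul_comm M' 2]
        have h12 : 0 ≤ (M' * D + 2 + c₀ : ℝ) * fs (F z₀) (deriv F z₀) ^ 2 := by positivity
        nlinarith [mul_le_mul_of_nonneg_left h9 h12]
    | some i, hk =>
      have hk' : mt G F z₀ = c₁ * nearG Ω χ nd P Q D δ i (F z₀) (deriv F z₀) := hGz.trans hk
      have hnpos : 0 < nearG Ω χ nd P Q D δ i (F z₀) (deriv F z₀) := by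
        rw [hk'] at hpos
        exact (mul_pos_iff_of_pos_left hc₁pos).mp hpos
      obtain ⟨h1, h2, h3, h4⟩ := mem_of_nearG_pos hnpos
      -- not at the boundary of the chart
      have h3' : ‖(χ i).q (F z₀)‖ < 1 := by
        refine lt_of_le_of_ne h3 fun h => ?_
        obtain ⟨k, hk2⟩ := near_boundary hX hK hQ hdom
          (fun i p hp h => (hsm i p hp h).trans (min_le_left _ _)) hCK hnpos h
        have h5 := hle (some k) z₀
        have h6 : pieceG Ω χ nd P Q D M' δ c₁ (some k) (F z₀) (deriv F z₀) =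
          c₁ * nearG Ω χ nd P Q D δ k (F z₀) (deriv F z₀) := rfl
        rw [h6, hk'] at h5
        have h7 := mul_lt_mul_of_pos_left hk2 hc₁pos
        linarith
      -- `rho < δ`
      have h5 := hup δ i (F z₀) hCK.mem (deriv F z₀)
      have h4' : rho Q D (F z₀) < δ := by
        refine lt_of_le_of_ne h4 fun h => ?_
        rw [h] at h5
        have h6 := hle none z₀
        have h7 : pieceG Ω χ nd P Q D M' δ c₁ none (F z₀) (deriv F z₀) =
          rho Q D (F z₀) ^ M' * fs (F z₀) (deriv F z₀) := rfl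
        rw [h7, hk', h] at h6
        have h8 : 0 < fs (F z₀) (deriv F z₀) := by
          by_contra hcon
          have h9 : fs (F z₀) (deriv F z₀) = 0 := le_antisymm (not_lt.mp hcon) (fs_nonneg _ _)
          rw [h9, mul_zero] at h5
          have : 0 < δ ^ 2 * nearG Ω χ nd P Q D δ i (F z₀) (deriv F z₀) := by positivity
          linarith
        have h9 : c₁ * nearG Ω χ nd P Q D δ i (F z₀) (deriv F z₀) =
            δ ^ M' / (2 * CN) * (δ ^ 2 * nearG Ω χ nd P Q D δ i (F z₀) (deriv F z₀)) := by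
          rw [hc₁, pow_add]
          ring
        have h10 : c₁ * nearG Ω χ nd P Q D δ i (F z₀) (deriv F z₀) ≤
            δ ^ M' / 2 * fs (F z₀) (deriv F z₀) := by
          rw [h9]
          refine (mul_le_mul_of_nonneg_left h5 (by positivity)).trans (le_of_eq ?_)
          field_simp
        have h11 : 0 < δ ^ M' * fs (F z₀) (deriv F z₀) := by positivity
        linarith
      -- the formula near `z₀`
      obtain ⟨hqan, hqd, -⟩ := (χ i).curve hX hCX h2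
      have hform : ∀ᶠ z in 𝓝 z₀, nearG Ω χ nd P Q D δ i (F z) (deriv F z) =
          ACoef Ω (χ i) ((χ i).q (F z)) * pM (nd i) P ((χ i).q (F z))
            (deriv (fun z => (χ i).q (F z)) z) := by
        have e1 : ∀ᶠ z in 𝓝 z₀, F z ∈ (χ i).U :=
          hF.continuousAt.eventually ((χ i).isOpen_U.mem_nhds h2)
        have e2 : ∀ᶠ z in 𝓝 z₀, ‖(χ i).q (F z)‖ < 1 :=
          hqan.continuousAt.norm.eventually (gt_mem_nhds h3')
        have e3 : ∀ᶠ z in 𝓝 z₀, rho Q D (F z) < δ := hrc.eventually (gt_mem_nhds h4')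
        filter_upwards [e1, e2, e3, hF.eventually_analyticAt, hCX.2.eventually_nhds]
          with z f1 f2 f3 f4 f5
        have f6 : CurveAt X F z := ⟨f4, f5⟩
        obtain ⟨-, f7, -⟩ := (χ i).curve hX f6 f1
        rw [nearG_of_mem f6.mem f1 f2.le f3.le, f7]
      have hpos' : 0 < ACoef Ω (χ i) ((χ i).q (F z₀)) * pM (nd i) P ((χ i).q (F z₀))
            (deriv (fun z => (χ i).q (F z)) z₀) := by
        rw [← hform.self_of_nhds]
        exact hnpos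
      have hsm' : small (nd i) ((χ i).q (F z₀)) ≤ r₂ := by
        refine (hsm i _ (by simpa using h3) ?_).trans (min_le_right _ _)
        rw [(χ i).rho_sigma hQ.smul h1 h2]
        exact h4
      have hE : 4 * P.ε * (‖(deriv (fun z => (χ i).q (F z)) z₀).1‖ ^ 2 +
          ‖(deriv (fun z => (χ i).q (F z)) z₀).2‖ ^ 2) ≤
          ((j : ℝ) / m - c₀) * (fs (F z₀) (deriv F z₀) ^ 2 / 2) := by
        have e1 : (j : ℝ) / m - c₀ = c₀ := by rw [hc₀]; ring
        rw [e1]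
        have e2 : ‖deriv (fun z => (χ i).q (F z)) z₀‖ ≤ CE * fs (F z₀) (deriv F z₀) := by
          rw [hqd]
          exact hfs1 i _ h1 h2 h3 _
        set w := deriv (fun z => (χ i).q (F z)) z₀
        have e3 : ‖w.1‖ ≤ ‖w‖ := norm_fst_le w
        have e4 : ‖w.2‖ ≤ ‖w‖ := norm_snd_le w
        have e5 : ‖w‖ ^ 2 ≤ CE ^ 2 * fs (F z₀) (deriv F z₀) ^ 2 := by
          rw [← mul_pow]
          exact pow_le_pow_left₀ (norm_nonneg _) e2 2
        have e6 : ‖w.1‖ ^ 2 ≤ ‖w‖ ^ 2 := pow_le_pow_left₀ (norm_nonneg _) e3 2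
        have e7 : ‖w.2‖ ^ 2 ≤ ‖w‖ ^ 2 := pow_le_pow_left₀ (norm_nonneg _) e4 2
        have e8 : P.ε * (16 * CE ^ 2) ≤ c₀ := by
          rwa [le_div_iff₀ (by positivity)] at hPε
        have e9 := hPC.ε_pos
        calc 4 * P.ε * (‖w.1‖ ^ 2 + ‖w.2‖ ^ 2)
            ≤ 4 * P.ε * (CE ^ 2 * fs (F z₀) (deriv F z₀) ^ 2 +
              CE ^ 2 * fs (F z₀) (deriv F z₀) ^ 2) := by gcongr <;> linarith
          _ = P.ε * (16 * CE ^ 2) * (fs (F z₀) (deriv F z₀) ^ 2 / 2) := by ring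
          _ ≤ c₀ * (fs (F z₀) (deriv F z₀) ^ 2 / 2) := by gcongr
      obtain ⟨c', hc', hs⟩ := conv_chart hX hK hm Ω (χ i) (nd i) hPC hconv hCK h2 h3 hsm' hE hpos'
      refine ((hs.const_mul hc₁pos).mono ?_ ?_).anti ?_
      · rw [hk', hform.self_of_nhds]
        ring
      · filter_upwards [hform] with z hz
        have := hle (some i) z
        have h6 : pieceG Ω χ nd P Q D M' δ c₁ (some i) (F z) (deriv F z) =
          c₁ * nearG Ω χ nd P Q D δ i (F z) (deriv F z) := rfl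
        rw [h6, hz] at this
        have h7 := mul_le_mul_of_nonneg_right this (Real.rpow_nonneg (norm_nonneg (F z)) (-c₀))
        refine le_trans (le_of_eq ?_) h7
        ring
      · have : 0 ≤ CC * mt G F z₀ ^ 2 := by positivity
        linarith
  · intro F z₀ hF hev hfr
    have hCK : CurveAt K F z₀ := ⟨hF, hev⟩
    have hCX : CurveAt X F z₀ := hCK.mono hK.subset
    rcases hQ.curve_discrete hCX with h | h
    · filter_upwards [h, hev] with z h1 h2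
      exact ⟨h2, h1⟩
    · exfalso
      have h1 : ∀ᶠ z in 𝓝[≠] z₀, F z ∈ X := hCX.2.filter_mono nhdsWithin_le_nhds
      have h2 : ∃ᶠ z in 𝓝[≠] z₀, False := by
        refine (hfr.and_eventually (h.and h1)).mono ?_
        rintro z ⟨h3, h4, h5⟩
        exact h4 ((hQ.mem_iff _).mpr ⟨h5, (rho_eq_zero_iff (hX.ne_zero h5)).mp h3⟩)
      simp at h2
  · intro x hx
    have hx0 : x ≠ 0 := hX.ne_zero (hK.subset hx)
    filter_upwards [hK.rel_open x hx, isOpen_ne.mem_nhds hx0] with y hy hy0 hyc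
    apply hy
    have h1 : y ∈ insert (0 : EN N) X :=
      closure_minimal (fun z hz => Or.inr (hK.subset hz)) hX.closed hyc
    exact h1.resolve_left hy0
  · intro l hl F H z₀ s hs hF hlim h0 hH ε hε
    have hk : ∀ k, ∀ᶠ a in l, pieceG Ω χ nd P Q D M' δ c₁ k (F a z₀) (deriv (F a) z₀) < ε := by
      intro k
      match k with
      | none => exact lim_far hX hK hQ hKT hM'1 l hl hs hF hlim h0 hH hε
      | some i =>
        filter_upwards [lim_near (δ := δ) (Q := Q) (D := D) hX hK hm hΩ' hPC hκm (hdt i) (hdn i)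
          l hl hs hF hlim h0 hH (div_pos hε hc₁pos)] with a ha
        rw [lt_div_iff₀ hc₁pos] at ha
        show c₁ * nearG Ω χ nd P Q D δ i (F a z₀) (deriv (F a) z₀) < ε
        linarith
    filter_upwards [Filter.eventually_all.2 hk] with a ha
    obtain ⟨k, hk'⟩ := exists_GG_eq (Ω := Ω) (χ := χ) (nd := nd) (P := P) (Q := Q) (D := D)
      (M' := M') (δ := δ) (c₁ := c₁) (F a z₀) (deriv (F a) z₀)
    show GG Ω χ nd P Q D M' δ c₁ (F a z₀) (deriv (F a) z₀) < ε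
    rw [hk']
    exact ha k

end Pool.Agent.H14.PP
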