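import Pool.Agent.H14.PP.ChartBasic

/-!
# BPm Cover: a finite atlas near `T`

`S = {x ∈ X | ‖x‖ = 1}` is compact (`insert 0 X` is closed, `EN N` is proper);
`T ∩ S = {x ∈ S | Q x = 0}` is compact. For `x ∈ T ∩ S` take the chart `χ_x` given by `IsNodal`; the
set `{y ∈ χ_x.U | ‖q y‖ < 1/2}` is open and contains `x`. Finitely many of them, with charts `χ i`,
cover `T ∩ S`. The set of `x ∈ S` outside all these open sets is compact and does not meet `T`, so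
`rho Q D` (continuous, positive there) is at least `δ' > 0` on it; `δ = δ'/2`. For general `x ∈ X`
use `x/‖x‖ ∈ S`: `rho`, `U` and `q` are invariant under scaling (`rho_smul`, `smul_U`, `q_smul`).
-/

open Topology Filter Metric

namespace Pool.Agent.H14.PP

open Pool.Agent.H36.BP

variable {N : ℕ} {W : Type*} [NormedAddCommGroup W] [InnerProductSpace ℂ W]
  {X K T : Set (EN N)} {Q : EN N → W} {D : ℕ}

private theorem Cover_compact (hX : IsCone X) : IsCompact {x : EN N | x ∈ X ∧ ‖x‖ = 1} := by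
  have h1 : {x : EN N | x ∈ X ∧ ‖x‖ = 1} = insert 0 X ∩ sphere (0 : EN N) 1 := by
    ext x
    simp only [Set.mem_ofPred_eq, Set.mem_inter_iff, Set.mem_insert_iff, mem_sphere_zero_iff_norm]
    constructor
    · rintro ⟨h1, h2⟩
      exact ⟨Or.inr h1, h2⟩
    · rintro ⟨h1 | h1, h2⟩
      · rw [h1, norm_zero] at h2
        exact absurd h2 zero_ne_one
      · exact ⟨h1, h2⟩
  rw [h1, Set.inter_comm]
  exact (isCompact_sphere _ _).inter_right hX.closed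

private theorem Cover_open (χ : Chart X) : IsOpen {y : EN N | y ∈ χ.U ∧ ‖χ.q y‖ < 1 / 2} := by
  rw [isOpen_iff_mem_nhds]
  rintro y ⟨hy1, hy2⟩
  filter_upwards [χ.isOpen_U.mem_nhds hy1,
    (χ.q_an y hy1).continuousAt.norm.eventually_lt_const hy2] with z hz1 hz2
  exact ⟨hz1, hz2⟩

theorem exists_atlas (hX : IsCone X) (hQ : IsEq X T Q D) (hT : IsNodal X K T) :
    ∃ (n : ℕ) (χ : Fin n → Chart X) (nd : Fin n → Bool) (d : Fin n → Bool × Bool),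
      (∀ i, HasType T (χ i) (nd i)) ∧ (∀ i, DType K (χ i) (d i)) ∧
      (∀ i, (d i).2 = true → nd i = true) ∧
      ∃ δ : ℝ, 0 < δ ∧ ∀ x ∈ X, rho Q D x ≤ δ → ∃ i, x ∈ (χ i).U ∧ ‖(χ i).q x‖ < 1 / 2 := by
  classical
  obtain ⟨S, hS⟩ : ∃ S : Set (EN N), S = {x : EN N | x ∈ X ∧ ‖x‖ = 1} := ⟨_, rfl⟩
  have hSc : IsCompact S := by rw [hS]; exact Cover_compact hX
  have hQc : Continuous Q := continuous_iff_continuousAt.mpr fun x => (hQ.analytic x).continuousAt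
  have hTc : IsCompact (S ∩ {x | Q x = 0}) :=
    hSc.inter_right (isClosed_eq hQc continuous_const)
  have hTS : ∀ x ∈ S ∩ {x | Q x = 0}, x ∈ T := by
    rintro x ⟨hx1, hx2⟩
    rw [hS] at hx1
    exact (hQ.mem_iff x).mpr ⟨hx1.1, hx2⟩
  -- the charts
  choose χ nd d hU h0 hty hdt hdn using hT
  obtain ⟨O, hO⟩ : ∃ O : (x : EN N) → x ∈ S ∩ {x | Q x = 0} → Set (EN N),
      ∀ x hx, O x hx = {y | y ∈ (χ x (hTS x hx)).U ∧ ‖(χ x (hTS x hx)).q y‖ < 1 / 2} :=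
    ⟨_, fun _ _ => rfl⟩
  have hOn : ∀ x (hx : x ∈ S ∩ {x | Q x = 0}), O x hx ∈ 𝓝 x := by
    intro x hx
    rw [hO]
    refine (Cover_open _).mem_nhds ⟨hU x (hTS x hx), ?_⟩
    rw [h0 x (hTS x hx), norm_zero]
    norm_num
  obtain ⟨t, ht⟩ := hTc.elim_nhds_subcover' O hOn
  -- enumerate the finite set
  obtain ⟨n, e⟩ : ∃ n : ℕ, Nonempty (Fin n ≃ t) := ⟨t.card, ⟨t.equivFin.symm⟩⟩
  obtain ⟨e⟩ := e
  refine ⟨n, fun i => χ _ (hTS _ (e i).1.2), fun i => nd _ (hTS _ (e i).1.2),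
    fun i => d _ (hTS _ (e i).1.2), fun i => hty _ _, fun i => hdt _ _, fun i => hdn _ _, ?_⟩
  -- the rest of the sphere
  obtain ⟨R, hR⟩ : ∃ R : Set (EN N), R = S \ ⋃ x ∈ t, O x.1 x.2 := ⟨_, rfl⟩
  have hRc : IsCompact R := by
    rw [hR]
    refine hSc.diff (isOpen_biUnion fun x _ => ?_)
    rw [hO]
    exact Cover_open _
  have hpos : ∀ x ∈ R, 0 < rho Q D x := by
    intro x hx
    rw [hR] at hx
    have hxS : x ∈ X ∧ ‖x‖ = 1 := by
      have := hx.1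
      rwa [hS] at this
    refine lt_of_le_of_ne (rho_nonneg _ _ _) fun h => ?_
    have hQ0 : Q x = 0 := (rho_eq_zero_iff (hX.ne_zero hxS.1)).mp h.symm
    exact hx.2 (ht ⟨hx.1, hQ0⟩)
  have hcont : ContinuousOn (rho Q D) R := by
    intro x hx
    rw [hR] at hx
    have hxS : x ∈ X ∧ ‖x‖ = 1 := by
      have := hx.1
      rwa [hS] at this
    exact (continuousAt_rho hQ.analytic (hX.ne_zero hxS.1)).continuousWithinAt
  obtain ⟨δ, hδ, hδR⟩ : ∃ δ : ℝ, 0 < δ ∧ ∀ x ∈ R, δ < rho Q D x := by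
    rcases R.eq_empty_or_nonempty with he | hne
    · exact ⟨1, one_pos, fun x hx => by rw [he] at hx; exact absurd hx (Set.notMem_empty x)⟩
    · obtain ⟨x₀, hx₀, hmin⟩ := hRc.exists_isMinOn hne hcont
      have h1 := hpos x₀ hx₀
      refine ⟨rho Q D x₀ / 2, by linarith, fun x hx => ?_⟩
      have h2 : rho Q D x₀ ≤ rho Q D x := hmin hx
      linarith
  refine ⟨δ, hδ, fun x hx hle => ?_⟩
  have hx0 : x ≠ 0 := hX.ne_zero hx
  have hn : (0 : ℝ) < ‖x‖ := norm_pos_iff.mpr hx0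
  obtain ⟨c, hc⟩ : ∃ c : ℂ, c = ((‖x‖ : ℂ))⁻¹ := ⟨_, rfl⟩
  have hc0 : c ≠ 0 := by
    rw [hc]
    exact inv_ne_zero (by exact_mod_cast hn.ne')
  have hyS : c • x ∈ S := by
    rw [hS]
    refine ⟨hX.smul_mem x hx c hc0, ?_⟩
    rw [norm_smul, hc, norm_inv, Complex.norm_real, norm_norm, inv_mul_cancel₀ hn.ne']
  have hy : c • x ∉ R := by
    intro hyR
    have h1 := hδR _ hyR
    rw [rho_smul hQ.smul hc0] at h1
    linarith
  have hy2 : c • x ∈ ⋃ x ∈ t, O x.1 x.2 := by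
    by_contra hcon
    exact hy (by rw [hR]; exact ⟨hyS, hcon⟩)
  rw [Set.mem_iUnion₂] at hy2
  obtain ⟨z, hz, hz2⟩ := hy2
  rw [hO] at hz2
  obtain ⟨hz3, hz4⟩ := hz2
  have hxU : x ∈ (χ z.1 (hTS z.1 z.2)).U := by
    have h1 := (χ z.1 (hTS z.1 z.2)).smul_U _ hz3 c⁻¹ (inv_ne_zero hc0)
    rwa [smul_smul, inv_mul_cancel₀ hc0, one_smul] at h1
  refine ⟨e.symm ⟨z, hz⟩, ?_⟩
  have h2 : e (e.symm ⟨z, hz⟩) = ⟨z, hz⟩ := e.apply_symm_apply _
  have h3 : (e (e.symm ⟨z, hz⟩)).1 = z := by rw [h2]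
  have h4 : χ (e (e.symm ⟨z, hz⟩)).1.1 (hTS _ (e (e.symm ⟨z, hz⟩)).1.2) =
      χ z.1 (hTS z.1 z.2) := by
    rw [h3]
  show x ∈ (χ (e (e.symm ⟨z, hz⟩)).1.1 (hTS _ (e (e.symm ⟨z, hz⟩)).1.2)).U ∧
    ‖(χ (e (e.symm ⟨z, hz⟩)).1.1 (hTS _ (e (e.symm ⟨z, hz⟩)).1.2)).q x‖ < 1 / 2
  rw [h4]
  refine ⟨hxU, ?_⟩
  rwa [(χ z.1 (hTS z.1 z.2)).q_smul x hxU c hc0] at hz4

end Pool.Agent.H14.PP
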