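import Pool.Agent.H36.BP.Defs

/-!
# Project BP, metric half: definitions

`X` is the cone (without `0`) over a compact surface in `ℙ^N`, `K ⊆ X` the cone over the complement
of a curve (`K = X` in the compact case), `T` the cone over the total curve: it contains `X \ K`,
and `K ∩ T` is the exceptional set.
-/

open Topology Filter Metric

namespace Pool.Agent.H14.PP

open Pool.Agent.H36.BP (EN Sub fs wd)

variable {N : ℕ}

/-- `X` is the cone (without the vertex) over a closed subset of projective space. -/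
structure IsCone (X : Set (EN N)) : Prop where
  zero_notMem : (0 : EN N) ∉ X
  smul_mem : ∀ x ∈ X, ∀ c : ℂ, c ≠ 0 → c • x ∈ X
  closed : IsClosed (insert 0 X)

/-- `K` is the cone over a relatively open subset. -/
structure IsOpenPart (X K : Set (EN N)) : Prop where
  subset : K ⊆ X
  smul_mem : ∀ x ∈ K, ∀ c : ℂ, c ≠ 0 → c • x ∈ K
  rel_open : ∀ x ∈ K, ∀ᶠ y in 𝓝 x, y ∈ X → y ∈ K

/-- `F` is a holomorphic curve in `X` near `z₀`. -/
def CurveAt (X : Set (EN N)) (F : ℂ → EN N) (z₀ : ℂ) : Prop :=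
  AnalyticAt ℂ F z₀ ∧ ∀ᶠ z in 𝓝 z₀, F z ∈ X

/-- `v` is a tangent vector of `X` at `x`: the derivative of a holomorphic curve in `X`. -/
def Tan (X : Set (EN N)) (x v : EN N) : Prop :=
  ∃ F : ℂ → EN N, CurveAt X F 0 ∧ F 0 = x ∧ deriv F 0 = v

/-- A chart of the surface whose cone is `X`: `σ` is a lift of the inverse of the chart, defined on
the bidisc of radius `2`, `U` is an open cone, and `q` the chart, a pair of holomorphic functions on
`U` which are invariant under scaling. -/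
structure Chart (X : Set (EN N)) where
  /-- the parametrization -/
  σ : ℂ × ℂ → EN N
  /-- the domain -/
  U : Set (EN N)
  /-- the coordinates -/
  q : EN N → ℂ × ℂ
  isOpen_U : IsOpen U
  smul_U : ∀ x ∈ U, ∀ c : ℂ, c ≠ 0 → c • x ∈ U
  σ_an : ∀ p ∈ ball (0 : ℂ × ℂ) 2, AnalyticAt ℂ σ p
  q_an : ∀ x ∈ U, AnalyticAt ℂ q x
  q_smul : ∀ x ∈ U, ∀ c : ℂ, c ≠ 0 → q (c • x) = q x
  σ_mem : ∀ p ∈ ball (0 : ℂ × ℂ) 2, σ p ∈ X ∧ σ p ∈ U ∧ q (σ p) = p
  surj : ∀ x ∈ X, x ∈ U → q x ∈ ball (0 : ℂ × ℂ) 2 ∧ ∃ c : ℂ, c ≠ 0 ∧ x = c • σ (q x)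

/-- In the chart `χ` the curve `T` is the coordinate axis `s = 0` (`nd = false`) or the union
`s t = 0` of the two coordinate axes (`nd = true`). -/
def HasType {X : Set (EN N)} (T : Set (EN N)) (χ : Chart X) (nd : Bool) : Prop :=
  ∀ p ∈ ball (0 : ℂ × ℂ) 2, (χ.σ p ∈ T ↔ p.1 = 0 ∨ (nd = true ∧ p.2 = 0))

/-- The complement of `K` in the chart: a union of some of the coordinate axes. -/
def DType {X : Set (EN N)} (K : Set (EN N)) (χ : Chart X) (d : Bool × Bool) : Prop :=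
  ∀ p ∈ ball (0 : ℂ × ℂ) 2, (χ.σ p ∉ K ↔ (d.1 = true ∧ p.1 = 0) ∨ (d.2 = true ∧ p.2 = 0))

/-- `T` is a curve with at most nodes on the surface whose cone is `X`, and `X \ K` is a union of
components of `T`. -/
def IsNodal (X K T : Set (EN N)) : Prop :=
  ∀ x ∈ T, ∃ (χ : Chart X) (nd : Bool) (d : Bool × Bool), x ∈ χ.U ∧ χ.q x = 0 ∧ HasType T χ nd ∧
    DType K χ d ∧ (d.2 = true → nd = true)

/-- A section of `m K (-j)` over the surface whose cone is `K`. -/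
structure Form (K : Set (EN N)) (m j : ℕ) where
  /-- the form -/
  toFun : EN N → EN N → EN N → ℂ
  add_smul : ∀ x ∈ K, ∀ v w, Tan K x v → Tan K x w → ∀ a b : ℂ,
    toFun x (v + a • x) (w + b • x) = toFun x v w
  det : ∀ x ∈ K, ∀ v w, Tan K x v → Tan K x w → ∀ a b c d : ℂ,
    toFun x (a • v + b • w) (c • v + d • w) = (a * d - b * c) ^ m * toFun x v w
  scale : ∀ x ∈ K, ∀ v w, Tan K x v → Tan K x w → ∀ c : ℂ, c ≠ 0 →
    c ^ j * toFun (c • x) (c • v) (c • w) = toFun x v w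
  analytic : ∀ (φ : ℂ × ℂ → EN N) (p : ℂ × ℂ), AnalyticAt ℂ φ p → (∀ᶠ y in 𝓝 p, φ y ∈ K) →
    AnalyticAt ℂ (fun y => toFun (φ y) (fderiv ℂ φ y (1, 0)) (fderiv ℂ φ y (0, 1))) p

/-- The form has no zeros outside `T`. -/
def Form.NoZeroOff {K : Set (EN N)} {m j : ℕ} (Ω : Form K m j) (T : Set (EN N)) : Prop :=
  ∀ x ∈ K, x ∉ T → ∀ v w, Tan K x v → Tan K x w → LinearIndependent ℂ ![x, v, w] →
    Ω.toFun x v w ≠ 0

/-- The coefficient of the form in a chart. -/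
noncomputable def aCoef {X K : Set (EN N)} {m j : ℕ} (Ω : Form K m j) (χ : Chart X) (p : ℂ × ℂ) :
    ℂ :=
  Ω.toFun (χ.σ p) (fderiv ℂ χ.σ p (1, 0)) (fderiv ℂ χ.σ p (0, 1))

/-- The reduced equation of `X \ K` in a chart. -/
def gD (d : Bool × Bool) (p : ℂ × ℂ) : ℂ :=
  (if d.1 = true then p.1 else 1) * (if d.2 = true then p.2 else 1)

/-- The form has poles of order at most `m - 1` along `X \ K`. -/
def Form.PoleBound {K : Set (EN N)} {m j : ℕ} (Ω : Form K m j) (X : Set (EN N)) : Prop :=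
  ∀ (χ : Chart X) (d : Bool × Bool), DType K χ d → ∃ b : ℂ × ℂ → ℂ,
    (∀ p ∈ ball (0 : ℂ × ℂ) 2, AnalyticAt ℂ b p) ∧
    ∀ p ∈ ball (0 : ℂ × ℂ) 2, χ.σ p ∈ K → b p = gD d p ^ (m - 1) * aCoef Ω χ p

/-- The invariant length of the form in a chart, to the power `1 / m`. -/
noncomputable def ACoef {X K : Set (EN N)} {m j : ℕ} (Ω : Form K m j) (χ : Chart X) (p : ℂ × ℂ) :
    ℝ :=
  ‖aCoef Ω χ p‖ ^ (1 / (m : ℝ)) * ‖χ.σ p‖ ^ ((j : ℝ) / m)

/-- The parameters of the metric near `T`. -/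
structure Par where
  ε : ℝ
  κ : ℝ
  K : ℝ
  M : ℝ
  e : ℝ

/-- The normal piece. -/
noncomputable def pN (nd : Bool) (P : Par) (s t s' : ℂ) : ℝ :=
  (if nd = true then ‖t‖ ^ (1 - P.κ) * Real.exp (-P.ε * ‖s‖ ^ 2) else 1) * ‖s'‖ *
    (1 + P.M * ‖s‖ ^ (2 * P.κ)) ^ P.e * Real.exp (-P.K * ‖t‖ ^ 2)

/-- The tangential piece. -/
noncomputable def pT (nd : Bool) (P : Par) (s t t' : ℂ) : ℝ :=
  if nd = true then pN true P t s t' else ‖s‖ ^ (1 - P.κ) * ‖t'‖ * Real.exp (-P.ε * ‖t‖ ^ 2)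

/-- The maximum of the two pieces. -/
noncomputable def pM (nd : Bool) (P : Par) (p w : ℂ × ℂ) : ℝ :=
  max (pN nd P p.1 p.2 w.1) (pT nd P p.1 p.2 w.2)

/-- The function measuring the distance to `T` in a chart. -/
noncomputable def small (nd : Bool) (p : ℂ × ℂ) : ℝ := if nd = true then ‖p.1‖ * ‖p.2‖ else ‖p.1‖

/-- The matrix `(l, b; c, m)` of the derivative of a change of charts, at a point with first
coordinate `s`, where the first new coordinate is `u`, is `C`-controlled. -/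
def TE (C : ℝ) (s u l b c m : ℂ) : Prop :=
  ‖b‖ ≤ C * ‖s‖ ∧ ‖c‖ ≤ C ∧ |‖u‖ - ‖l‖ * ‖s‖| ≤ C * ‖s‖ ^ 2 ∧ C⁻¹ ≤ ‖l‖ ∧ ‖l‖ ≤ C ∧ C⁻¹ ≤ ‖m‖ ∧
    ‖m‖ ≤ C

/-- The conditions on the parameters for the comparison of the pieces of two charts. -/
structure DomPar (C : ℝ) (P : Par) : Prop where
  ε_pos : 0 < P.ε
  ε_le : P.ε ≤ 1
  κ_pos : 0 < P.κ
  κ_le : P.κ ≤ 1 / 4
  κ_log : P.κ * Real.log C ≤ P.ε / 8
  K_pos : 0 < P.K
  K_ge : 16 * C ^ 4 * Real.exp 2 ≤ Real.exp (3 * P.K / 4)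
  M_ge : 1 ≤ P.M
  e_pos : 0 < P.e
  e_log : P.e * Real.log (1 + P.M) ≤ P.ε / 16

/-- The condition on the parameters for the convexity. -/
structure ConvPar (P : Par) : Prop where
  ε_pos : 0 < P.ε
  ε_le : P.ε ≤ 1
  κ_pos : 0 < P.κ
  κ_le : P.κ ≤ 1 / 4
  K_pos : 0 < P.K
  M_ge : 1 ≤ P.M
  e_pos : 0 < P.e
  e_log : P.e * Real.log (1 + P.M) ≤ P.ε / 16
  main : P.K ≤ P.e * P.M * P.κ ^ 2 * (Real.exp (-P.K - 1) / 2) ^ 2 / 4

/-- The Jacobian determinant. -/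
noncomputable def jac (τ : ℂ × ℂ → ℂ × ℂ) (p : ℂ × ℂ) : ℂ :=
  (fderiv ℂ τ p (1, 0)).1 * (fderiv ℂ τ p (0, 1)).2 -
    (fderiv ℂ τ p (0, 1)).1 * (fderiv ℂ τ p (1, 0)).2

/-- `TE` for a map at a point. -/
def TEmap (C : ℝ) (τ : ℂ × ℂ → ℂ × ℂ) (p : ℂ × ℂ) : Prop :=
  TE C p.1 (τ p).1 (fderiv ℂ τ p (1, 0)).1 (fderiv ℂ τ p (0, 1)).1 (fderiv ℂ τ p (1, 0)).2
    (fderiv ℂ τ p (0, 1)).2

section metric

variable {W : Type*} [NormedAddCommGroup W] [InnerProductSpace ℂ W]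

/-- The size of the equations of `T`. -/
noncomputable def rho (Q : EN N → W) (D : ℕ) (x : EN N) : ℝ := ‖Q x‖ / ‖x‖ ^ D

/-- The equations `Q` of `T`: homogeneous polynomials of degree `D`. -/
structure IsEq (X T : Set (EN N)) (Q : EN N → W) (D : ℕ) : Prop where
  analytic : ∀ x, AnalyticAt ℂ Q x
  smul : ∀ (c : ℂ) (x : EN N), Q (c • x) = c ^ D • Q x
  mem_iff : ∀ x, x ∈ T ↔ x ∈ X ∧ Q x = 0

end metric

end Pool.Agent.H14.PP
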