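import Pool.Agent.H14.PP.Defs

/-!
# BPm DomN: comparison of the pieces of two charts, first estimates

Notation: `u' = l s' + b t'`, `w' = c s' + m t'` (the new components of the vector), `TE C s u l b c m`.

`comp_s`: `‖s'‖ ≤ 2 C ‖u'‖ + 2 C^3 ‖s‖ ‖w'‖` if `‖s‖ ≤ 1/(2C^4)`. Proof: `l s' = u' - b t'`, so
`‖s'‖ ≤ C ‖u'‖ + C^2 ‖s‖ ‖t'‖`; `m t' = w' - c s'`, so `‖t'‖ ≤ C ‖w'‖ + C^2 ‖s'‖`. Insert:
`‖s'‖ ≤ C ‖u'‖ + C^3 ‖s‖‖w'‖ + C^4 ‖s‖ ‖s'‖`, and `C^4 ‖s‖ ≤ 1/2`.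
`comp_t`: `‖m‖ ‖t'‖ ≤ ‖w'‖ + C ‖s'‖`.
`comp_u`: `‖l‖ ‖s‖ (1 - C^2 ‖s‖) ≤ ‖u‖ ≤ ‖l‖ ‖s‖ (1 + C^2 ‖s‖)` (from
`|‖u‖ - ‖l‖‖s‖| ≤ C ‖s‖^2` and `C⁻¹ ≤ ‖l‖`).
`comp_J`: `‖l m - b c‖ ≤ ‖l‖ ‖m‖ + C^2 ‖s‖ ≤ 2 C^2` for `‖s‖ ≤ 1`.
-/

open Topology Filter Metric

namespace Pool.Agent.H14.PP

private lemma DomN_exp {P : Par} {C : ℝ} (hP : DomPar C P) {x : ℝ} (hx0 : 0 ≤ x) (hx : x ≤ 1) :
    (1 + P.M * x ^ (2 * P.κ)) ^ P.e ≤ Real.exp (P.ε / 16) := by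
  have hM := hP.M_ge
  have h1 : x ^ (2 * P.κ) ≤ 1 := Real.rpow_le_one hx0 hx (by linarith [hP.κ_pos])
  have h0 : 0 ≤ x ^ (2 * P.κ) := Real.rpow_nonneg hx0 _
  have h2 : 1 + P.M * x ^ (2 * P.κ) ≤ 1 + P.M := by nlinarith
  have h3 : (0 : ℝ) ≤ 1 + P.M * x ^ (2 * P.κ) := by positivity
  calc (1 + P.M * x ^ (2 * P.κ)) ^ P.e ≤ (1 + P.M) ^ P.e :=
        Real.rpow_le_rpow h3 h2 hP.e_pos.le
    _ = Real.exp (P.e * Real.log (1 + P.M)) := by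
        rw [Real.rpow_def_of_pos (by linarith), mul_comm]
    _ ≤ Real.exp (P.ε / 16) := Real.exp_le_exp.mpr hP.e_log

private lemma DomN_one {P : Par} {C : ℝ} (hP : DomPar C P) {x : ℝ} (hx0 : 0 ≤ x) :
    1 ≤ (1 + P.M * x ^ (2 * P.κ)) ^ P.e := by
  have hM := hP.M_ge
  have h0 : 0 ≤ x ^ (2 * P.κ) := Real.rpow_nonneg hx0 _
  have h1 : 0 ≤ P.M * x ^ (2 * P.κ) := mul_nonneg (by linarith) h0
  exact Real.one_le_rpow (by linarith) hP.e_pos.le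

theorem comp_s {C : ℝ} (hC : 1 ≤ C) {s u l b c m s' t' : ℂ} (hT : TE C s u l b c m)
    (hs : ‖s‖ ≤ 1 / (2 * C ^ 4)) :
    ‖s'‖ ≤ 2 * C * ‖l * s' + b * t'‖ + 2 * C ^ 3 * ‖s‖ * ‖c * s' + m * t'‖ := by
  obtain ⟨hb, hc, -, hl, -, hm, -⟩ := hT
  have hC0 : (0 : ℝ) < C := by linarith
  set U := ‖l * s' + b * t'‖ with hU
  set V := ‖c * s' + m * t'‖ with hV
  have e1 : ‖l‖ * ‖s'‖ ≤ U + ‖b‖ * ‖t'‖ := by
    rw [← norm_mul, ← norm_mul]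
    calc ‖l * s'‖ = ‖(l * s' + b * t') - b * t'‖ := by ring_nf
      _ ≤ _ := norm_sub_le _ _
  have e2 : ‖m‖ * ‖t'‖ ≤ V + ‖c‖ * ‖s'‖ := by
    rw [← norm_mul, ← norm_mul]
    calc ‖m * t'‖ = ‖(c * s' + m * t') - c * s'‖ := by ring_nf
      _ ≤ _ := norm_sub_le _ _
  have hs0 := norm_nonneg s
  have hs'0 := norm_nonneg s'
  have ht'0 := norm_nonneg t'
  have hU0 : 0 ≤ U := norm_nonneg _
  have hV0 : 0 ≤ V := norm_nonneg _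
  have f1 : ‖s'‖ ≤ C * U + C ^ 2 * ‖s‖ * ‖t'‖ := by
    have h1 : C⁻¹ * ‖s'‖ ≤ U + C * ‖s‖ * ‖t'‖ := by
      calc C⁻¹ * ‖s'‖ ≤ ‖l‖ * ‖s'‖ := mul_le_mul_of_nonneg_right hl hs'0
        _ ≤ _ := e1
        _ ≤ _ := by
          have := mul_le_mul_of_nonneg_right hb ht'0
          linarith
    have h2 : C * (C⁻¹ * ‖s'‖) ≤ C * (U + C * ‖s‖ * ‖t'‖) := mul_le_mul_of_nonneg_left h1 hC0.le
    rw [← mul_assoc, mul_inv_cancel₀ hC0.ne', one_mul] at h2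
    calc ‖s'‖ ≤ _ := h2
      _ = _ := by ring
  have f2 : ‖t'‖ ≤ C * V + C ^ 2 * ‖s'‖ := by
    have h1 : C⁻¹ * ‖t'‖ ≤ V + C * ‖s'‖ := by
      calc C⁻¹ * ‖t'‖ ≤ ‖m‖ * ‖t'‖ := mul_le_mul_of_nonneg_right hm ht'0
        _ ≤ _ := e2
        _ ≤ _ := by
          have := mul_le_mul_of_nonneg_right hc hs'0
          linarith
    have h2 : C * (C⁻¹ * ‖t'‖) ≤ C * (V + C * ‖s'‖) := mul_le_mul_of_nonneg_left h1 hC0.le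
    rw [← mul_assoc, mul_inv_cancel₀ hC0.ne', one_mul] at h2
    calc ‖t'‖ ≤ _ := h2
      _ = _ := by ring
  have f3 : C ^ 2 * ‖s‖ * ‖t'‖ ≤ C ^ 2 * ‖s‖ * (C * V + C ^ 2 * ‖s'‖) :=
    mul_le_mul_of_nonneg_left f2 (by positivity)
  have f4 : C ^ 4 * ‖s‖ ≤ 1 / 2 := by
    have h4 : (0 : ℝ) < C ^ 4 := by positivity
    calc C ^ 4 * ‖s‖ ≤ C ^ 4 * (1 / (2 * C ^ 4)) := mul_le_mul_of_nonneg_left hs h4.le
      _ = 1 / 2 := by field_simp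
  have f5 : C ^ 4 * ‖s‖ * ‖s'‖ ≤ 1 / 2 * ‖s'‖ := mul_le_mul_of_nonneg_right f4 hs'0
  nlinarith [f1, f3, f5]

theorem comp_t {C : ℝ} {s u l b c m s' t' : ℂ} (hT : TE C s u l b c m) :
    ‖m‖ * ‖t'‖ ≤ ‖c * s' + m * t'‖ + C * ‖s'‖ := by
  obtain ⟨hb, hc, -, hl, -, hm, -⟩ := hT
  have e2 : ‖m‖ * ‖t'‖ ≤ ‖c * s' + m * t'‖ + ‖c‖ * ‖s'‖ := by
    rw [← norm_mul, ← norm_mul]
    calc ‖m * t'‖ = ‖(c * s' + m * t') - c * s'‖ := by ring_nf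
      _ ≤ _ := norm_sub_le _ _
  have := mul_le_mul_of_nonneg_right hc (norm_nonneg s')
  linarith

theorem comp_u {C : ℝ} (hC : 1 ≤ C) {s u l b c m : ℂ} (hT : TE C s u l b c m) :
    ‖l‖ * ‖s‖ * (1 - C ^ 2 * ‖s‖) ≤ ‖u‖ ∧ ‖u‖ ≤ ‖l‖ * ‖s‖ * (1 + C ^ 2 * ‖s‖) := by
  obtain ⟨-, -, hu, hl, -, -, -⟩ := hT
  have hC0 : (0 : ℝ) < C := by linarith
  have hs0 := norm_nonneg s
  have h1 : C * ‖s‖ ^ 2 ≤ ‖l‖ * ‖s‖ * (C ^ 2 * ‖s‖) := by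
    have h2 : C⁻¹ * (C ^ 2 * ‖s‖ ^ 2) ≤ ‖l‖ * (C ^ 2 * ‖s‖ ^ 2) :=
      mul_le_mul_of_nonneg_right hl (by positivity)
    have h3 : C⁻¹ * (C ^ 2 * ‖s‖ ^ 2) = C * ‖s‖ ^ 2 := by field_simp
    rw [h3] at h2
    calc C * ‖s‖ ^ 2 ≤ _ := h2
      _ = _ := by ring
  obtain ⟨h4, h5⟩ := abs_le.mp hu
  constructor <;> nlinarith

theorem comp_J {C : ℝ} (hC : 1 ≤ C) {s u l b c m : ℂ} (hT : TE C s u l b c m) :
    ‖l * m - b * c‖ ≤ ‖l‖ * ‖m‖ + C ^ 2 * ‖s‖ := by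
  obtain ⟨hb, hc, -, hl, -, hm, -⟩ := hT
  have hC0 : (0 : ℝ) < C := by linarith
  have h1 : ‖b‖ * ‖c‖ ≤ C * ‖s‖ * C :=
    mul_le_mul hb hc (norm_nonneg _) (by positivity)
  calc ‖l * m - b * c‖ ≤ ‖l * m‖ + ‖b * c‖ := norm_sub_le _ _
    _ = ‖l‖ * ‖m‖ + ‖b‖ * ‖c‖ := by rw [norm_mul, norm_mul]
    _ ≤ _ := by nlinarith

/-- bounds for the pieces, outer boundary -/
theorem pN_outer {C : ℝ} {P : Par} (hP : DomPar C P) (nd : Bool) {s t : ℂ} (ht : ‖t‖ = 1)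
    (hs : ‖s‖ ≤ 1) (s' : ℂ) : pN nd P s t s' ≤ ‖s'‖ * Real.exp (P.ε / 16 - P.K) := by
  have h1 := DomN_exp hP (norm_nonneg s) hs
  have h0 : 0 ≤ (1 + P.M * ‖s‖ ^ (2 * P.κ)) ^ P.e := le_trans zero_le_one (DomN_one hP (norm_nonneg s))
  have h2 : (if nd = true then ‖t‖ ^ (1 - P.κ) * Real.exp (-P.ε * ‖s‖ ^ 2) else 1) ≤ 1 := by
    split_ifs
    · rw [ht, Real.one_rpow, one_mul]
      apply Real.exp_le_one_iff.mpr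
      have := hP.ε_pos
      nlinarith [mul_nonneg this.le (sq_nonneg ‖s‖)]
    · exact le_rfl
  have h3 : 0 ≤ (if nd = true then ‖t‖ ^ (1 - P.κ) * Real.exp (-P.ε * ‖s‖ ^ 2) else 1) := by
    split_ifs
    · positivity
    · exact zero_le_one
  unfold pN
  rw [show P.ε / 16 - P.K = P.ε / 16 + -P.K by ring, Real.exp_add, ht]
  calc (if nd = true then (1:ℝ) ^ (1 - P.κ) * Real.exp (-P.ε * ‖s‖ ^ 2) else 1) * ‖s'‖ *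
        (1 + P.M * ‖s‖ ^ (2 * P.κ)) ^ P.e * Real.exp (-P.K * 1 ^ 2)
      ≤ 1 * ‖s'‖ * Real.exp (P.ε / 16) * Real.exp (-P.K * 1 ^ 2) := by
        rw [ht] at h2 h3
        gcongr
    _ = _ := by rw [one_pow, mul_one, one_mul, mul_assoc]

/-- bounds for the pieces, outer boundary -/
theorem pT_outer {C : ℝ} {P : Par} (hP : DomPar C P) (nd : Bool) {s t : ℂ} (ht : ‖t‖ = 1)
    (hs : ‖s‖ ≤ 1) (t' : ℂ) :
    pT nd P s t t' ≤ ‖s‖ ^ (1 - P.κ) * ‖t'‖ * Real.exp (P.ε / 16 - P.ε) := by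
  have h1 := DomN_exp hP (norm_nonneg t) ht.le
  have h0 : 0 ≤ (1 + P.M * ‖t‖ ^ (2 * P.κ)) ^ P.e := le_trans zero_le_one (DomN_one hP (norm_nonneg t))
  have hε := hP.ε_pos
  have hK := hP.K_pos
  rw [show P.ε / 16 - P.ε = P.ε / 16 + -P.ε by ring, Real.exp_add]
  rcases Bool.eq_false_or_eq_true nd with hnd | hnd <;> subst hnd <;>
    simp only [pT, pN, if_true, Bool.false_eq_true, if_false]
  · have h2 : Real.exp (-P.K * ‖s‖ ^ 2) ≤ 1 := by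
      apply Real.exp_le_one_iff.mpr
      nlinarith [mul_nonneg hK.le (sq_nonneg ‖s‖)]
    calc ‖s‖ ^ (1 - P.κ) * Real.exp (-P.ε * ‖t‖ ^ 2) * ‖t'‖ *
          (1 + P.M * ‖t‖ ^ (2 * P.κ)) ^ P.e * Real.exp (-P.K * ‖s‖ ^ 2)
        ≤ ‖s‖ ^ (1 - P.κ) * Real.exp (-P.ε * ‖t‖ ^ 2) * ‖t'‖ *
          Real.exp (P.ε / 16) * 1 := by gcongr
      _ = _ := by
        rw [ht, one_pow, mul_one, mul_one]
        ring
  · rw [ht, one_pow, mul_one]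
    have h2 : 1 ≤ Real.exp (P.ε / 16) := Real.one_le_exp (by linarith)
    calc ‖s‖ ^ (1 - P.κ) * ‖t'‖ * Real.exp (-P.ε)
        = ‖s‖ ^ (1 - P.κ) * ‖t'‖ * (1 * Real.exp (-P.ε)) := by rw [one_mul]
      _ ≤ _ := by gcongr

/-- bounds for the pieces, inner region -/
theorem pN_inner {C : ℝ} (hC : 1 ≤ C) {P : Par} (hP : DomPar C P) (nd : Bool) {u w : ℂ}
    (hw : ‖w‖ ≤ 1 / 2) (hw' : nd = true → C⁻¹ ≤ ‖w‖) (hu : ‖u‖ ≤ 1) (u' : ℂ) :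
    C⁻¹ * ‖u'‖ * Real.exp (-P.ε - P.K / 4) ≤ pN nd P u w u' := by
  have hC0 : (0 : ℝ) < C := by linarith
  have hε := hP.ε_pos
  have hK := hP.K_pos
  have hκ := hP.κ_pos
  have hκ' := hP.κ_le
  have hCi : 0 < C⁻¹ := inv_pos.mpr hC0
  have hCi1 : C⁻¹ ≤ 1 := inv_le_one_of_one_le₀ hC
  have h1 := DomN_one hP (norm_nonneg u)
  have h2 : C⁻¹ * Real.exp (-P.ε) ≤
      (if nd = true then ‖w‖ ^ (1 - P.κ) * Real.exp (-P.ε * ‖u‖ ^ 2) else 1) := by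
    split_ifs with hnd
    · have h3 : C⁻¹ ≤ ‖w‖ ^ (1 - P.κ) := by
        calc C⁻¹ = C⁻¹ ^ (1 : ℝ) := (Real.rpow_one _).symm
          _ ≤ C⁻¹ ^ (1 - P.κ) := Real.rpow_le_rpow_of_exponent_ge hCi hCi1 (by linarith)
          _ ≤ _ := Real.rpow_le_rpow hCi.le (hw' hnd) (by linarith)
      have h4 : Real.exp (-P.ε) ≤ Real.exp (-P.ε * ‖u‖ ^ 2) := by
        apply Real.exp_le_exp.mpr
        have h5 : ‖u‖ ^ 2 ≤ 1 := pow_le_one₀ (norm_nonneg _) hu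
        nlinarith
      gcongr
    · calc C⁻¹ * Real.exp (-P.ε) ≤ 1 * 1 := by
            apply mul_le_mul hCi1 _ (Real.exp_pos _).le zero_le_one
            exact Real.exp_le_one_iff.mpr (by linarith)
        _ = 1 := one_mul 1
  have h6 : Real.exp (-(P.K / 4)) ≤ Real.exp (-P.K * ‖w‖ ^ 2) := by
    apply Real.exp_le_exp.mpr
    have h7 : ‖w‖ ^ 2 ≤ 1 / 4 := by
      have := norm_nonneg w
      nlinarith
    nlinarith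
  have h8 : 0 ≤ C⁻¹ * Real.exp (-P.ε) := by positivity
  have h9 : 0 ≤ (if nd = true then ‖w‖ ^ (1 - P.κ) * Real.exp (-P.ε * ‖u‖ ^ 2) else 1) :=
    h8.trans h2
  unfold pN
  rw [show -P.ε - P.K / 4 = -P.ε + -(P.K / 4) by ring, Real.exp_add]
  calc C⁻¹ * ‖u'‖ * (Real.exp (-P.ε) * Real.exp (-(P.K / 4)))
      = (C⁻¹ * Real.exp (-P.ε)) * ‖u'‖ * 1 * Real.exp (-(P.K / 4)) := by ring
    _ ≤ _ := by
      apply mul_le_mul _ h6 (Real.exp_pos _).le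
      · positivity
      · apply mul_le_mul _ h1 zero_le_one
        · positivity
        · exact mul_le_mul_of_nonneg_right h2 (norm_nonneg _)

/-- bounds for the pieces, inner region -/
theorem pT_inner {C : ℝ} {P : Par} (hP : DomPar C P) (nd : Bool) {u w : ℂ} (hw : ‖w‖ ≤ 1 / 2)
    (hu : P.K * ‖u‖ ^ 2 ≤ P.ε / 16) (w' : ℂ) :
    ‖u‖ ^ (1 - P.κ) * ‖w'‖ * Real.exp (-(5 * P.ε / 16)) ≤ pT nd P u w w' := by
  have hε := hP.ε_pos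
  have hw2 : ‖w‖ ^ 2 ≤ 1 / 4 := by
    have := norm_nonneg w
    nlinarith
  have h1 : Real.exp (-(P.ε / 4)) ≤ Real.exp (-P.ε * ‖w‖ ^ 2) := by
    apply Real.exp_le_exp.mpr
    nlinarith
  have h2 : Real.exp (-(P.ε / 16)) ≤ Real.exp (-P.K * ‖u‖ ^ 2) := by
    apply Real.exp_le_exp.mpr
    linarith
  rcases Bool.eq_false_or_eq_true nd with hnd | hnd <;> subst hnd <;>
    simp only [pT, pN, if_true, Bool.false_eq_true, if_false]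
  · have h3 := DomN_one hP (norm_nonneg w)
    rw [show -(5 * P.ε / 16) = -(P.ε / 4) + -(P.ε / 16) by ring, Real.exp_add]
    calc ‖u‖ ^ (1 - P.κ) * ‖w'‖ * (Real.exp (-(P.ε / 4)) * Real.exp (-(P.ε / 16)))
        = ‖u‖ ^ (1 - P.κ) * Real.exp (-(P.ε / 4)) * ‖w'‖ * 1 * Real.exp (-(P.ε / 16)) := by ring
      _ ≤ ‖u‖ ^ (1 - P.κ) * Real.exp (-P.ε * ‖w‖ ^ 2) * ‖w'‖ *
          (1 + P.M * ‖w‖ ^ (2 * P.κ)) ^ P.e * Real.exp (-P.K * ‖u‖ ^ 2) := by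
        gcongr
  · have h4 : Real.exp (-(5 * P.ε / 16)) ≤ Real.exp (-P.ε * ‖w‖ ^ 2) := by
      refine le_trans (Real.exp_le_exp.mpr ?_) h1
      linarith
    gcongr

end Pool.Agent.H14.PP
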