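import Pool.Agent.H14.PP.Metric
import Pool.Agent.H36.BP.Main
import Pool.Agent.H36.BP.ClP

/-!
# Algebraic sets and the metric theorem
-/

open Topology Filter Metric MvPolynomial

namespace Pool.Agent.H14.PP

open Pool.Agent.H36.BP
open Pool.Agent.H17 (PN HolomorphicInto puncturedDisc VanishesAt vanishesAt_mk_iff)

variable {N : ℕ}

/-- The set of the common zeros of the polynomials in `S`. -/
def zeroSet (S : Set (MvPolynomial (Fin (N + 1)) ℂ)) : Set (PN N) :=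
  {x | ∀ A ∈ S, VanishesAt A x}

/-- The part of `X` where `P` does not vanish. -/
def openSet (X : Set (PN N)) (P : MvPolynomial (Fin (N + 1)) ℂ) : Set (PN N) :=
  {x | x ∈ X ∧ ¬ VanishesAt P x}

/-- The common zeros in `X` of a family of forms. -/
def zerosIn {ι : Type} (X : Set (PN N)) (Q : ι → MvPolynomial (Fin (N + 1)) ℂ) : Set (PN N) :=
  {x | x ∈ X ∧ ∀ i, VanishesAt (Q i) x}

/-- The size of a form of degree `e` at a point with homogeneous coordinates `x`. -/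
noncomputable def size (P : MvPolynomial (Fin (N + 1)) ℂ) (e : ℕ) (x : EN N) : ℝ :=
  ‖MvPolynomial.eval x.ofLp P‖ / ‖x‖ ^ e

theorem mem_coneOf_zeroSet {S : Set (MvPolynomial (Fin (N + 1)) ℂ)}
    (hS : ∀ A ∈ S, ∃ d, A.IsHomogeneous d) (x : EN N) :
    x ∈ coneOf (zeroSet S) ↔ x ≠ 0 ∧ ∀ A ∈ S, MvPolynomial.eval x.ofLp A = 0 := by
  constructor
  · rintro ⟨h, h1⟩
    refine ⟨ne_zero_of_ofLp h, fun A hA => ?_⟩
    obtain ⟨d, hd⟩ := hS A hA
    exact (vanishesAt_mk_iff hd _ h).mp (h1 A hA)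
  · rintro ⟨h, h1⟩
    refine ⟨ofLp_ne_zero h, fun A hA => ?_⟩
    obtain ⟨d, hd⟩ := hS A hA
    exact (vanishesAt_mk_iff hd _ (ofLp_ne_zero h)).mpr (h1 A hA)

theorem mem_coneOf_openSet {X : Set (PN N)} {P : MvPolynomial (Fin (N + 1)) ℂ} {e : ℕ}
    (hP : P.IsHomogeneous e) (x : EN N) :
    x ∈ coneOf (openSet X P) ↔ x ∈ coneOf X ∧ MvPolynomial.eval x.ofLp P ≠ 0 := by
  constructor
  · rintro ⟨h, h1, h2⟩
    exact ⟨⟨h, h1⟩, fun h3 => h2 ((vanishesAt_mk_iff hP _ h).mpr h3)⟩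
  · rintro ⟨⟨h, h1⟩, h2⟩
    exact ⟨h, h1, fun h3 => h2 ((vanishesAt_mk_iff hP _ h).mp h3)⟩

theorem mem_coneOf_zerosIn {ι : Type} {X : Set (PN N)} {Q : ι → MvPolynomial (Fin (N + 1)) ℂ}
    (hQ : ∀ i, ∃ d, (Q i).IsHomogeneous d) (x : EN N) :
    x ∈ coneOf (zerosIn X Q) ↔ x ∈ coneOf X ∧ ∀ i, MvPolynomial.eval x.ofLp (Q i) = 0 := by
  constructor
  · rintro ⟨h, h1, h2⟩
    refine ⟨⟨h, h1⟩, fun i => ?_⟩
    obtain ⟨d, hd⟩ := hQ i
    exact (vanishesAt_mk_iff hd _ h).mp (h2 i)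
  · rintro ⟨⟨h, h1⟩, h2⟩
    refine ⟨h, h1, fun i => ?_⟩
    obtain ⟨d, hd⟩ := hQ i
    exact (vanishesAt_mk_iff hd _ h).mpr (h2 i)

theorem continuous_evalEN (P : MvPolynomial (Fin (N + 1)) ℂ) :
    Continuous (fun x : EN N => MvPolynomial.eval x.ofLp P) :=
  (MvPolynomial.continuous_eval P).comp (PiLp.continuous_ofLp 2 (fun _ : Fin (N + 1) => ℂ))

theorem analyticAt_evalEN (P : MvPolynomial (Fin (N + 1)) ℂ) (x : EN N) :
    AnalyticAt ℂ (fun x : EN N => MvPolynomial.eval x.ofLp P) x := by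
  have h : ∀ i : Fin (N + 1), AnalyticAt ℂ (fun x : EN N => x.ofLp i) x := fun i =>
    (EuclideanSpace.proj (𝕜 := ℂ) (ι := Fin (N + 1)) i : EN N →L[ℂ] ℂ).analyticAt x
  have := AnalyticAt.aeval_mvPolynomial (𝕜 := ℂ) h P
  simpa [MvPolynomial.aeval_eq_eval] using this

theorem eval_smulEN {P : MvPolynomial (Fin (N + 1)) ℂ} {e : ℕ} (hP : P.IsHomogeneous e) (c : ℂ)
    (x : EN N) : MvPolynomial.eval (c • x).ofLp P = c ^ e * MvPolynomial.eval x.ofLp P := by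
  have h2 : (c • x).ofLp = fun k => c * x.ofLp k := by
    funext k
    simp
  rw [h2, Pool.Agent.H17.eval_smul_of_isHomogeneous hP]

theorem isCone_zeroSet {S : Set (MvPolynomial (Fin (N + 1)) ℂ)}
    (hS : ∀ A ∈ S, ∃ d, A.IsHomogeneous d) : IsCone (coneOf (zeroSet S)) := by
  refine ⟨fun h => ?_, fun x hx c hc => coneOf_smul hx hc, ?_⟩
  · exact ((mem_coneOf_zeroSet hS 0).mp h).1 rfl
  · have h : insert (0 : EN N) (coneOf (zeroSet S)) =
        {0} ∪ ⋂ A ∈ S, {x : EN N | MvPolynomial.eval x.ofLp A = 0} := by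
      ext x
      simp only [Set.mem_insert_iff, mem_coneOf_zeroSet hS, Set.mem_union, Set.mem_singleton_iff,
        Set.mem_iInter, Set.mem_setOf_eq]
      by_cases hx : x = 0
      · simp [hx]
      · simp [hx]
    rw [h]
    refine isClosed_singleton.union (isClosed_biInter fun A _ => ?_)
    exact isClosed_eq (continuous_evalEN A) continuous_const

theorem isOpenPart_openSet {X : Set (PN N)} {P : MvPolynomial (Fin (N + 1)) ℂ} {e : ℕ}
    (hP : P.IsHomogeneous e) : IsOpenPart (coneOf X) (coneOf (openSet X P)) := by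
  refine ⟨fun x hx => ((mem_coneOf_openSet hP x).mp hx).1, fun x hx c hc => coneOf_smul hx hc,
    fun x hx => ?_⟩
  filter_upwards [(continuous_evalEN P).continuousAt.eventually_ne
    ((mem_coneOf_openSet hP x).mp hx).2] with y hy hyX
  exact (mem_coneOf_openSet hP y).mpr ⟨hyX, hy⟩

/-- the equations of degree `D` -/
noncomputable def eqs {k : ℕ} (D : ℕ) (R : Fin k → MvPolynomial (Fin (N + 1)) ℂ) (r : Fin k → ℕ)
    (x : EN N) : EuclideanSpace ℂ (Fin k × Fin (N + 1)) :=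
  WithLp.toLp 2 fun p => MvPolynomial.eval x.ofLp (R p.1) * x.ofLp p.2 ^ (D - r p.1)

theorem analyticAt_coord (l : Fin (N + 1)) (x : EN N) :
    AnalyticAt ℂ (fun x : EN N => x.ofLp l) x :=
  (EuclideanSpace.proj (𝕜 := ℂ) (ι := Fin (N + 1)) l : EN N →L[ℂ] ℂ).analyticAt x

theorem exists_coord {x : EN N} (hx : x ≠ 0) : ∃ l, ‖x‖ ≤ (N + 1) * ‖x.ofLp l‖ := by
  by_contra hcon
  push Not at hcon
  have h1 : ‖x‖ ^ 2 = ∑ l, ‖x.ofLp l‖ ^ 2 := EuclideanSpace.norm_sq_eq x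
  have hN : (0 : ℝ) < N + 1 := by positivity
  have hx0 : 0 < ‖x‖ := norm_pos_iff.mpr hx
  have h2 : ∀ l, ‖x.ofLp l‖ ^ 2 ≤ ‖x‖ ^ 2 / (N + 1) ^ 2 := by
    intro l
    rw [le_div_iff₀ (by positivity), mul_comm, ← mul_pow]
    exact pow_le_pow_left₀ (by positivity) (hcon l).le 2
  have h2' : ∀ l, ‖x.ofLp l‖ ^ 2 < ‖x‖ ^ 2 / (N + 1) ^ 2 := by
    intro l
    rw [lt_div_iff₀ (by positivity), mul_comm, ← mul_pow]
    exact pow_lt_pow_left₀ (hcon l) (by positivity) (by norm_num)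
  have h3 : ∑ l : Fin (N + 1), ‖x.ofLp l‖ ^ 2 < ∑ _l : Fin (N + 1), ‖x‖ ^ 2 / (N + 1) ^ 2 :=
    Finset.sum_lt_sum_of_nonempty Finset.univ_nonempty fun l _ => h2' l
  rw [← h1, Finset.sum_const, Finset.card_univ, Fintype.card_fin, nsmul_eq_mul] at h3
  push_cast at h3
  have h4 : ((N : ℝ) + 1) * (‖x‖ ^ 2 / (N + 1) ^ 2) = ‖x‖ ^ 2 / (N + 1) := by
    field_simp
  rw [h4] at h3
  have h5 : ‖x‖ ^ 2 / (N + 1) ≤ ‖x‖ ^ 2 := div_le_self (by positivity) (by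
    have : (0 : ℝ) ≤ N := Nat.cast_nonneg N
    linarith)
  linarith

section eqs

variable {k : ℕ} {R : Fin k → MvPolynomial (Fin (N + 1)) ℂ} {r : Fin k → ℕ} {D : ℕ}

theorem isEq_eqs {X : Set (PN N)} (hR : ∀ i, (R i).IsHomogeneous (r i)) (hD : ∀ i, r i ≤ D) :
    IsEq (coneOf X) (coneOf (zerosIn X R)) (eqs D R r) D := by
  refine ⟨fun x => ?_, fun c x => ?_, fun x => ?_⟩
  · have h1 : AnalyticAt ℂ (fun x : EN N => fun p : Fin k × Fin (N + 1) =>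
        MvPolynomial.eval x.ofLp (R p.1) * x.ofLp p.2 ^ (D - r p.1)) x := by
      rw [analyticAt_pi_iff]
      exact fun p => (analyticAt_evalEN (R p.1) x).mul ((analyticAt_coord p.2 x).pow _)
    exact ((EuclideanSpace.equiv (Fin k × Fin (N + 1)) ℂ).symm :
      (Fin k × Fin (N + 1) → ℂ) →L[ℂ] EuclideanSpace ℂ (Fin k × Fin (N + 1))).analyticAt _
        |>.comp h1
  · ext p
    have h1 := eval_smulEN (hR p.1) c x
    have h2 : c ^ D = c ^ r p.1 * c ^ (D - r p.1) := by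
      rw [← pow_add, Nat.add_sub_cancel' (hD p.1)]
    show MvPolynomial.eval (c • x).ofLp (R p.1) * (c • x).ofLp p.2 ^ (D - r p.1) =
      c ^ D * (MvPolynomial.eval x.ofLp (R p.1) * x.ofLp p.2 ^ (D - r p.1))
    have h3 : (c • x).ofLp p.2 = c * x.ofLp p.2 := rfl
    rw [h1, h3, mul_pow, h2]
    ring
  · rw [mem_coneOf_zerosIn fun i => ⟨_, hR i⟩]
    refine and_congr_right fun hx => ?_
    have hx0 : x ≠ 0 := ne_zero_of_ofLp hx.choose
    constructor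
    · intro h
      ext p
      show MvPolynomial.eval x.ofLp (R p.1) * x.ofLp p.2 ^ (D - r p.1) = 0
      rw [h p.1, zero_mul]
    · intro h i
      obtain ⟨l, hl⟩ := exists_coord hx0
      have hl0 : x.ofLp l ≠ 0 := by
        intro h0
        rw [h0, norm_zero, mul_zero] at hl
        exact hx0 (norm_le_zero_iff.mp hl)
      have h1 : MvPolynomial.eval x.ofLp (R i) * x.ofLp l ^ (D - r i) = 0 := by
        have := congrArg (fun y : EuclideanSpace ℂ (Fin k × Fin (N + 1)) => y.ofLp (i, l)) h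
        exact this
      exact (mul_eq_zero.mp h1).resolve_right (pow_ne_zero _ hl0)

theorem size_le (hR : ∀ i, (R i).IsHomogeneous (r i)) (hD : ∀ i, r i ≤ D) {x : EN N} (hx : x ≠ 0)
    (i : Fin k) : size (R i) (r i) x ≤ (N + 1) ^ D * rho (eqs D R r) D x := by
  obtain ⟨l, hl⟩ := exists_coord hx
  have hx0 : 0 < ‖x‖ := norm_pos_iff.mpr hx
  have h1 : ‖MvPolynomial.eval x.ofLp (R i)‖ * ‖x.ofLp l‖ ^ (D - r i) ≤ ‖eqs D R r x‖ := by
    have h2 := PiLp.norm_apply_le (eqs D R r x) (i, l)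
    have h3 : (eqs D R r x).ofLp (i, l) =
      MvPolynomial.eval x.ofLp (R i) * x.ofLp l ^ (D - r i) := rfl
    rw [h3, norm_mul, norm_pow] at h2
    exact h2
  have h4 : ‖x‖ ^ (D - r i) ≤ (N + 1) ^ D * ‖x.ofLp l‖ ^ (D - r i) := by
    calc ‖x‖ ^ (D - r i) ≤ ((N + 1) * ‖x.ofLp l‖) ^ (D - r i) :=
          pow_le_pow_left₀ hx0.le hl _
      _ = (N + 1) ^ (D - r i) * ‖x.ofLp l‖ ^ (D - r i) := mul_pow _ _ _
      _ ≤ (N + 1) ^ D * ‖x.ofLp l‖ ^ (D - r i) := by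
          have h5 : (1 : ℝ) ≤ N + 1 := by
            have : (0 : ℝ) ≤ N := Nat.cast_nonneg N
            linarith
          exact mul_le_mul_of_nonneg_right (pow_le_pow_right₀ h5 (Nat.sub_le _ _)) (by positivity)
  unfold size rho
  have h6 : ‖x‖ ^ D = ‖x‖ ^ r i * ‖x‖ ^ (D - r i) := by
    rw [← pow_add, Nat.add_sub_cancel' (hD i)]
  rw [← mul_div_assoc, div_le_div_iff₀ (by positivity) (by positivity), h6]
  have h7 := mul_le_mul_of_nonneg_left h4 (norm_nonneg (MvPolynomial.eval x.ofLp (R i)))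
  have h8 : ‖MvPolynomial.eval x.ofLp (R i)‖ * ‖x‖ ^ (D - r i) ≤
      (N + 1) ^ D * ‖eqs D R r x‖ := by
    refine h7.trans ?_
    calc ‖MvPolynomial.eval x.ofLp (R i)‖ * ((N + 1) ^ D * ‖x.ofLp l‖ ^ (D - r i))
        = (N + 1) ^ D * (‖MvPolynomial.eval x.ofLp (R i)‖ * ‖x.ofLp l‖ ^ (D - r i)) := by ring
      _ ≤ (N + 1) ^ D * ‖eqs D R r x‖ := by gcongr
  calc ‖MvPolynomial.eval x.ofLp (R i)‖ * (‖x‖ ^ r i * ‖x‖ ^ (D - r i))
      = (‖MvPolynomial.eval x.ofLp (R i)‖ * ‖x‖ ^ (D - r i)) * ‖x‖ ^ r i := by ring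
    _ ≤ ((N + 1) ^ D * ‖eqs D R r x‖) * ‖x‖ ^ r i := by gcongr

end eqs

/-- the extension has values in a closed set -/
theorem mem_of_extension {S : Set (MvPolynomial (Fin (N + 1)) ℂ)}
    (hS : ∀ A ∈ S, ∃ d, A.IsHomogeneous d) {g : ℂ → PN N} (hg : HolomorphicInto g (ball 0 1))
    (hgS : ∀ z ∈ puncturedDisc, g z ∈ zeroSet S) : ∀ z ∈ ball (0 : ℂ) 1, g z ∈ zeroSet S := by
  intro z hz
  by_cases hz0 : z = 0
  · subst hz0
    intro A hA
    obtain ⟨d, hd⟩ := hS A hA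
    obtain ⟨φ, hφ, hev⟩ := hg 0 hz
    obtain ⟨h0, h1⟩ := hev.self_of_nhds
    rw [h1, vanishesAt_mk_iff hd]
    have h2 : ContinuousAt (fun w => MvPolynomial.eval (φ w) A) 0 :=
      (MvPolynomial.continuous_eval A).continuousAt.comp hφ.continuousAt
    have h3 : ∀ᶠ w in 𝓝[≠] (0 : ℂ), MvPolynomial.eval (φ w) A = 0 := by
      have h4 : ∀ᶠ w in 𝓝[≠] (0 : ℂ), w ∈ ball (0 : ℂ) 1 :=
        nhdsWithin_le_nhds (ball_mem_nhds _ one_pos)
      filter_upwards [hev.filter_mono nhdsWithin_le_nhds, h4, self_mem_nhdsWithin] with w h5 h6 h7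
      obtain ⟨h8, h9⟩ := h5
      have h10 := hgS w ⟨h6, h7⟩ A hA
      rwa [h9, vanishesAt_mk_iff hd] at h10
    have h5 : Tendsto (fun w => MvPolynomial.eval (φ w) A) (𝓝[≠] (0 : ℂ))
        (𝓝 (MvPolynomial.eval (φ 0) A)) := h2.tendsto.mono_left nhdsWithin_le_nhds
    have h6 : Tendsto (fun w => MvPolynomial.eval (φ w) A) (𝓝[≠] (0 : ℂ)) (𝓝 0) :=
      tendsto_const_nhds.congr' (h3.mono fun w hw => hw.symm)
    exact tendsto_nhds_unique h5 h6
  · exact hgS z ⟨hz, hz0⟩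

/-- `zeroSet`, `openSet`: the hypotheses on the closure -/
theorem closure_openSet {S : Set (MvPolynomial (Fin (N + 1)) ℂ)}
    (hS : ∀ A ∈ S, ∃ d, A.IsHomogeneous d) {P : MvPolynomial (Fin (N + 1)) ℂ} {e : ℕ}
    (hP : P.IsHomogeneous e) : ∀ x ∈ closure (coneOf (openSet (zeroSet S) P)), x ≠ 0 →
      MvPolynomial.eval x.ofLp P ≠ 0 → x ∈ coneOf (openSet (zeroSet S) P) := by
  intro x hx hx0 hPx
  have h1 : x ∈ insert (0 : EN N) (coneOf (zeroSet S)) :=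
    closure_minimal (fun y hy => Or.inr ((mem_coneOf_openSet hP y).mp hy).1)
      (isCone_zeroSet hS).closed hx
  exact (mem_coneOf_openSet hP x).mpr ⟨h1.resolve_left hx0, hPx⟩

end Pool.Agent.H14.PP
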