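import Mathlib

/-!
# BPm RootDeriv: roots of functions without zeros

`f` holomorphic without zeros on `ball z₀ s`, `‖f‖ ≤ η` there. There is a holomorphic `g` with
`exp (g z) = f z` on the ball (a disc is simply connected; e.g. a primitive of `f'/f`,
`DifferentiableOn.isExactOn_ball`, or Mathlib's logarithm / root lemma), `w = exp (g/m)` satisfies
`‖w‖ = ‖f‖^(1/m) ≤ η^(1/m)`, `w' = (1/m) (f'/f) w`, so `‖w' z₀‖ = (1/m) ‖f z₀‖^(1/m-1) ‖f' z₀‖`, and
Cauchy's estimate on circles of radius `s' < s`, `s' → s`: `‖w' z₀‖ ≤ η^(1/m)/s`.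
-/

open Topology Filter Metric

namespace Pool.Agent.H14.PP

private theorem RootDeriv_exp {f : ℂ → ℂ} {z₀ : ℂ} {s : ℝ} (hs : 0 < s)
    (hf : DifferentiableOn ℂ f (ball z₀ s)) (h0 : ∀ z ∈ ball z₀ s, f z ≠ 0) :
    ∃ g : ℂ → ℂ, (∀ z ∈ ball z₀ s, HasDerivAt g (deriv f z / f z) z) ∧
      ∀ z ∈ ball z₀ s, Complex.exp (g z) = f z := by
  have hz₀ : z₀ ∈ ball z₀ s := mem_ball_self hs
  have hq : DifferentiableOn ℂ (fun z => deriv f z / f z) (ball z₀ s) :=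
    (hf.deriv isOpen_ball).div hf h0
  obtain ⟨g, hg0, hg⟩ := hq.isExactOn_ball.with_val_at z₀ (Complex.log (f z₀))
  refine ⟨g, hg, ?_⟩
  have hd : ∀ z ∈ ball z₀ s, HasDerivAt (fun z => Complex.exp (-g z) * f z) 0 z := by
    intro z hz
    have h1 := (hg z hz).neg.cexp
    have h2 := ((hf z hz).differentiableAt (isOpen_ball.mem_nhds hz)).hasDerivAt
    have h3 := h1.mul h2
    have h4 : Complex.exp (-g z) * -(deriv f z / f z) * f z + Complex.exp (-g z) * deriv f z = 0 := by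
      have := h0 z hz
      field_simp
      ring
    rw [← h4]
    exact h3
  intro z hz
  have hc : (fun z => Complex.exp (-g z) * f z) z = (fun z => Complex.exp (-g z) * f z) z₀ :=
    isOpen_ball.is_const_of_deriv_eq_zero (convex_ball z₀ s).isPreconnected
      (fun w hw => (hd w hw).differentiableAt.differentiableWithinAt)
      (fun w hw => (hd w hw).deriv) hz hz₀
  simp only [hg0] at hc
  rw [Complex.exp_neg (Complex.log (f z₀)), Complex.exp_log (h0 z₀ hz₀), inv_mul_cancel₀ (h0 z₀ hz₀),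
    Complex.exp_neg, inv_mul_eq_one₀ (Complex.exp_ne_zero _)] at hc
  exact hc

theorem root_deriv {f : ℂ → ℂ} {z₀ : ℂ} {s η : ℝ} (hs : 0 < s)
    (hf : DifferentiableOn ℂ f (ball z₀ s)) (h0 : ∀ z ∈ ball z₀ s, f z ≠ 0)
    (h1 : ∀ z ∈ ball z₀ s, ‖f z‖ ≤ η) {m : ℕ} (hm : 1 ≤ m) :
    ‖f z₀‖ ^ (-(((m : ℝ) - 1) / m)) * ‖deriv f z₀‖ ≤ m * η ^ (1 / (m : ℝ)) / s := by
  have hz₀ : z₀ ∈ ball z₀ s := mem_ball_self hs
  obtain ⟨g, hg, hexp⟩ := RootDeriv_exp hs hf h0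
  have hm0 : (0 : ℝ) < m := by exact_mod_cast hm
  have hmC : (m : ℂ) ≠ 0 := by exact_mod_cast hm0.ne'
  set w : ℂ → ℂ := fun z => Complex.exp (g z / m) with hw
  have hwd : ∀ z ∈ ball z₀ s, HasDerivAt w (w z * (deriv f z / f z / m)) z := fun z hz =>
    ((hg z hz).div_const (m : ℂ)).cexp
  have hwn : ∀ z ∈ ball z₀ s, ‖w z‖ = ‖f z‖ ^ (1 / (m : ℝ)) := by
    intro z hz
    have h2 : w z ^ m = f z := by
      rw [hw]
      simp only
      rw [← Complex.exp_nat_mul, mul_div_cancel₀ _ hmC, hexp z hz]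
    rw [← h2, norm_pow, ← Real.rpow_natCast, ← Real.rpow_mul (norm_nonneg _),
      mul_one_div_cancel hm0.ne', Real.rpow_one]
  have hη : 0 ≤ η := (norm_nonneg _).trans (h1 z₀ hz₀)
  have hwb : ∀ z ∈ ball z₀ s, ‖w z‖ ≤ η ^ (1 / (m : ℝ)) := fun z hz => by
    rw [hwn z hz]
    exact Real.rpow_le_rpow (norm_nonneg _) (h1 z hz) (by positivity)
  -- Cauchy
  have hC : ∀ s', 0 < s' → s' < s → ‖deriv w z₀‖ ≤ η ^ (1 / (m : ℝ)) / s' := by
    intro s' h1' h2'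
    apply Complex.norm_deriv_le_of_forall_mem_sphere_norm_le h1'
    · refine DifferentiableOn.diffContOnCl fun z hz => ?_
      have hz' : z ∈ ball z₀ s :=
        (closure_ball_subset_closedBall.trans (closedBall_subset_ball h2')) hz
      exact (hwd z hz').differentiableAt.differentiableWithinAt
    · intro z hz
      exact hwb z (mem_ball.mpr (by rw [mem_sphere.mp hz]; exact h2'))
  have hC2 : ‖deriv w z₀‖ * s ≤ η ^ (1 / (m : ℝ)) := by
    have ht : Tendsto (fun s' : ℝ => ‖deriv w z₀‖ * s') (𝓝[<] s) (𝓝 (‖deriv w z₀‖ * s)) :=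
      (tendsto_const_nhds.mul tendsto_id).mono_left nhdsWithin_le_nhds
    refine le_of_tendsto ht ?_
    filter_upwards [Ioo_mem_nhdsLT hs] with s' hs'
    exact (le_div_iff₀ hs'.1).mp (hC s' hs'.1 hs'.2)
  have hval : ‖deriv w z₀‖ = ‖f z₀‖ ^ (-(((m : ℝ) - 1) / m)) * ‖deriv f z₀‖ / m := by
    rw [(hwd z₀ hz₀).deriv, norm_mul, hwn z₀ hz₀, norm_div, norm_div, Complex.norm_natCast]
    have hf0 : 0 < ‖f z₀‖ := norm_pos_iff.mpr (h0 z₀ hz₀)
    have h3 : ‖f z₀‖ ^ (-(((m : ℝ) - 1) / m)) = ‖f z₀‖ ^ (1 / (m : ℝ)) / ‖f z₀‖ := by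
      rw [← Real.rpow_sub_one hf0.ne']
      congr 1
      field_simp
      ring
    rw [h3]
    ring
  have h5 : ‖f z₀‖ ^ (-(((m : ℝ) - 1) / m)) * ‖deriv f z₀‖ = m * ‖deriv w z₀‖ := by
    rw [hval]
    field_simp
  rw [h5, le_div_iff₀ hs, mul_assoc]
  exact mul_le_mul_of_nonneg_left hC2 hm0.le

end Pool.Agent.H14.PP
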