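import Pool.Agent.H14.PP.Defs
import Pool.Agent.H36.BP.SubB
import Pool.Agent.H36.BP.SubD

/-!
# BPm SubPiece: lower supports for the pieces

Products of the basic lower supports (`Sub.mul`): `‖t‖^(1-κ)` (`Sub.of_holo`, `Sub.rpow`,
coefficient `0`; `κ ≤ 1`), `exp (-ε‖s‖^2)` (`Sub.exp_sq`, `-ε‖s'‖^2`), `‖s'‖` (`Sub.of_holo` for
`deriv s`, `0`), `(1 + M‖s‖^(2κ))^e` (`Sub.gain`, or `Sub.gain_zero` with an arbitrarily large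
coefficient), `exp (-K‖t‖^2)` (`-K‖t'‖^2`). In `sub_pN` the term `-ε‖s'‖^2` is also allowed if
`nd = false` (`Sub.anti`).
-/

open Topology Filter Metric

namespace Pool.Agent.H14.PP

open Pool.Agent.H36.BP

private theorem SubPiece_gen {P : Par} (hκ1 : P.κ < 1) (nd : Bool) {s t : ℂ → ℂ} {z₀ : ℂ}
    (hs : AnalyticAt ℂ s z₀) (ht : AnalyticAt ℂ t z₀) (hs1 : deriv s z₀ ≠ 0)
    (ht0 : nd = true → t z₀ ≠ 0) {c : ℝ}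
    (hg : Sub (fun z => (1 + P.M * ‖s z‖ ^ (2 * P.κ)) ^ P.e) z₀ c) :
    Sub (fun z => pN nd P (s z) (t z) (deriv s z)) z₀
      ((if nd = true then -P.ε * ‖deriv s z₀‖ ^ 2 else 0) + c + -P.K * ‖deriv t z₀‖ ^ 2) := by
  have h3 : Sub (fun z => ‖deriv s z‖) z₀ 0 := Sub.of_holo hs.deriv hs1
  have h5 : Sub (fun z => Real.exp (-P.K * ‖t z‖ ^ 2)) z₀ (-P.K * ‖deriv t z₀‖ ^ 2) :=
    Sub.exp_sq ht (-P.K)
  cases nd with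
  | false =>
    have h := (((Sub.const one_pos z₀).mul h3).mul hg).mul h5
    refine (h.anti (le_of_eq ?_)).congr (Eventually.of_forall fun z => ?_)
    · simp
    · simp [pN]
  | true =>
    have h1 : Sub (fun z => ‖t z‖ ^ (1 - P.κ)) z₀ ((1 - P.κ) * 0) :=
      (Sub.of_holo ht (ht0 rfl)).rpow (by linarith)
    have h2 : Sub (fun z => Real.exp (-P.ε * ‖s z‖ ^ 2)) z₀ (-P.ε * ‖deriv s z₀‖ ^ 2) :=
      Sub.exp_sq hs (-P.ε)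
    have h := ((((h1.mul h2).mul h3).mul hg).mul h5)
    refine (h.anti (le_of_eq ?_)).congr (Eventually.of_forall fun z => ?_)
    · simp
    · simp [pN]

theorem sub_pN {P : Par} (hε : 0 ≤ P.ε) (hM : 0 < P.M) (he : 0 < P.e) (hκ : 0 < P.κ)
    (hκ1 : P.κ < 1) (nd : Bool) {s t : ℂ → ℂ} {z₀ : ℂ} (hs : AnalyticAt ℂ s z₀)
    (ht : AnalyticAt ℂ t z₀) (hs0 : s z₀ ≠ 0) (hs1 : deriv s z₀ ≠ 0) (ht0 : nd = true → t z₀ ≠ 0) :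
    Sub (fun z => pN nd P (s z) (t z) (deriv s z)) z₀
      (-P.ε * ‖deriv s z₀‖ ^ 2 - P.K * ‖deriv t z₀‖ ^ 2 +
        P.e * P.M * P.κ ^ 2 * ‖s z₀‖ ^ (2 * P.κ - 2) * ‖deriv s z₀‖ ^ 2 /
          (1 + P.M * ‖s z₀‖ ^ (2 * P.κ)) ^ 2) := by
  have h := SubPiece_gen hκ1 nd hs ht hs1 ht0 (Sub.gain hs hs0 hM.le hκ he.le)
  refine h.anti ?_
  have h1 : -P.ε * ‖deriv s z₀‖ ^ 2 ≤ (if nd = true then -P.ε * ‖deriv s z₀‖ ^ 2 else 0) := by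
    split_ifs
    · exact le_rfl
    · have : 0 ≤ P.ε * ‖deriv s z₀‖ ^ 2 := by positivity
      linarith
  have h2 : P.e * P.M * P.κ ^ 2 * ‖s z₀‖ ^ (2 * P.κ - 2) * ‖deriv s z₀‖ ^ 2 /
      (1 + P.M * ‖s z₀‖ ^ (2 * P.κ)) ^ 2 = P.e * (P.M * P.κ ^ 2 * ‖s z₀‖ ^ (2 * P.κ - 2) *
        ‖deriv s z₀‖ ^ 2 / (1 + P.M * ‖s z₀‖ ^ (2 * P.κ)) ^ 2) := by
    ring
  rw [h2]
  linarith

theorem sub_pN_cusp {P : Par} (hM : 0 < P.M) (he : 0 < P.e) (hκ : 0 < P.κ) (hκ1 : P.κ < 1)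
    (nd : Bool) {s t : ℂ → ℂ} {z₀ : ℂ} (hs : AnalyticAt ℂ s z₀) (ht : AnalyticAt ℂ t z₀)
    (hs0 : s z₀ = 0) (hs1 : deriv s z₀ ≠ 0) (ht0 : nd = true → t z₀ ≠ 0) (c : ℝ) :
    Sub (fun z => pN nd P (s z) (t z) (deriv s z)) z₀ c := by
  have h := SubPiece_gen hκ1 nd hs ht hs1 ht0 (Sub.gain_zero hs hs0 hs1 hM hκ hκ1 he
    (c - (if nd = true then -P.ε * ‖deriv s z₀‖ ^ 2 else 0) - -P.K * ‖deriv t z₀‖ ^ 2))
  exact h.anti (by linarith)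

theorem sub_pT_false {P : Par} (hκ1 : P.κ < 1) {s t : ℂ → ℂ} {z₀ : ℂ} (hs : AnalyticAt ℂ s z₀)
    (ht : AnalyticAt ℂ t z₀) (hs0 : s z₀ ≠ 0) (ht1 : deriv t z₀ ≠ 0) :
    Sub (fun z => pT false P (s z) (t z) (deriv t z)) z₀ (-P.ε * ‖deriv t z₀‖ ^ 2) := by
  have h1 : Sub (fun z => ‖s z‖ ^ (1 - P.κ)) z₀ ((1 - P.κ) * 0) :=
    (Sub.of_holo hs hs0).rpow (by linarith)
  have h2 : Sub (fun z => ‖deriv t z‖) z₀ 0 := Sub.of_holo ht.deriv ht1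
  have h3 : Sub (fun z => Real.exp (-P.ε * ‖t z‖ ^ 2)) z₀ (-P.ε * ‖deriv t z₀‖ ^ 2) :=
    Sub.exp_sq ht (-P.ε)
  have h := (h1.mul h2).mul h3
  refine (h.anti (le_of_eq ?_)).congr (Eventually.of_forall fun z => ?_)
  · simp
  · simp [pT]

end Pool.Agent.H14.PP
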