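import Pool.Agent.H14.PP.TELocal
import Pool.Agent.H14.PP.NodeGerm

/-!
# BPm TECompact: uniform estimates for the changes of charts at the boundary of a chart

`χ i` (`i : Fin n`) are charts of types `nd i`; every point of `T` lies in the inner part
(`‖q‖ < 1/2`) of some chart. Fix `i` and an orientation `b` (`b = true` only if `nd i = true`), let
`χ₁ = (χ i).orient b`, of type `nd i` (`hasType_orient`). For every `t₀` with `‖t₀‖ = 1` the point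
`χ₁.σ (0, t₀)` is in `T`, so there is `k` with `χ₁.σ (0,t₀) ∈ (χ k).U`,
`‖(χ k).q (χ₁.σ (0,t₀))‖ < 1/2`. If `nd k = false` let `b' = false`: the first coordinate of
`(χ k).q (χ₁.σ (0,t))` vanishes for `t` near `t₀` (type `false`, `T` is a cone and
`χ₁.σ (0,t) = c • (χ k).σ (..)`). If `nd k = true`: by `not_node` (for `χ₁` and `χ k`) the point
`q' = (χ k).q (χ₁.σ (0,t₀))` is not `0`, and one of its coordinates is `0`: choose `b'` such that the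
first coordinate of `ori b' q'` is `0`, the second is not; by continuity the first coordinate of
`ori b' ((χ k).q (χ₁.σ (0,t)))` vanishes for `t` near `t₀` (the product does, the second does not).
`TE_local` (with `jac_ne_zero` for `χ₁` and `χ₂ = (χ k).orient b'`, note `χ₂.q = ori b' ∘ (χ k).q`)
gives a constant `C` and a neighbourhood of `(0,t₀)` on which `TEmap C τ` holds, `τ = χ₂.q ∘ χ₁.σ`;
shrink it so that also `χ₁.σ y ∈ (χ k).U`, `‖τ y‖ < 1/2` and (if `nd k = true`)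
`‖(τ y).2‖ ≥ C⁻¹`, after enlarging `C` (`TE.mono`). The circle `{(0,t₀) | ‖t₀‖ = 1}` is compact:
finitely many neighbourhoods cover it, hence also all `(s,t)` with `‖t‖ = 1`, `‖s‖ ≤ r` for some
`r > 0` (compactness; e.g. `IsCompact.exists_thickening_subset_open` or the generalized tube lemma).
Take the maximum of the constants over the finitely many neighbourhoods, over `i` and `b`, and the
minimum of the `r`.
-/

open Topology Filter Metric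

namespace Pool.Agent.H14.PP

open Pool.Agent.H36.BP

variable {N : ℕ} {X K T : Set (EN N)}

/-- The change from the chart `χ` to the chart `χ'` (of type `nd'`) is `C`-controlled at the
point `p`. -/
def Transition (C : ℝ) (χ χ' : Chart X) (nd' : Bool) (p : ℂ × ℂ) : Prop :=
  χ.σ p ∈ χ'.U ∧ ‖χ'.q (χ.σ p)‖ < 1 / 2 ∧ TEmap C (fun y => χ'.q (χ.σ y)) p ∧
    (nd' = true → C⁻¹ ≤ ‖(χ'.q (χ.σ p)).2‖)

private theorem Transition.mono {C C' : ℝ} (hC : 1 ≤ C) (hCC : C ≤ C') {χ χ' : Chart X}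
    {nd' : Bool} {p : ℂ × ℂ} (h : Transition C χ χ' nd' p) : Transition C' χ χ' nd' p :=
  ⟨h.1, h.2.1, TE.mono hC hCC h.2.2.1, fun hn =>
    (inv_anti₀ (by linarith) hCC).trans (h.2.2.2 hn)⟩

private theorem TECompact_aux (hX : IsCone X) (χ₁ χ₂ : Chart X) {t₀ : ℂ} (ht₀ : ‖t₀‖ = 1)
    (hU : χ₁.σ (0, t₀) ∈ χ₂.U) (hq : ‖χ₂.q (χ₁.σ (0, t₀))‖ < 1 / 2)
    (h0 : ∀ᶠ t in 𝓝 t₀, (χ₂.q (χ₁.σ (0, t))).1 = 0) (nd₂ : Bool)
    (hnd : nd₂ = true → (χ₂.q (χ₁.σ (0, t₀))).2 ≠ 0) :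
    ∃ C : ℝ, 1 ≤ C ∧ ∀ᶠ p in 𝓝 ((0 : ℂ), t₀), Transition C χ₁ χ₂ nd₂ p := by
  have hp : ((0 : ℂ), t₀) ∈ ball (0 : ℂ × ℂ) 2 := by
    rw [mem_ball_zero_iff, Prod.norm_def]
    simp only [norm_zero, ht₀]
    norm_num
  have hσ : AnalyticAt ℂ χ₁.σ (0, t₀) := χ₁.σ_an _ hp
  have hτ : AnalyticAt ℂ (fun y => χ₂.q (χ₁.σ y)) (0, t₀) := (χ₂.q_an _ hU).comp hσ
  have hJ := jac_ne_zero hX χ₁ χ₂ hp hU
  obtain ⟨C₁, hC₁, hTE⟩ := TE_local hτ hJ h0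
  set a : ℝ := ‖(χ₂.q (χ₁.σ (0, t₀))).2‖ with ha
  set C : ℝ := max C₁ (2 / a) with hC
  have hC1 : C₁ ≤ C := le_max_left _ _
  have hC2 : 2 / a ≤ C := le_max_right _ _
  have hτc : ContinuousAt (fun y => χ₂.q (χ₁.σ y)) (0, t₀) := hτ.continuousAt
  have e1 : ∀ᶠ p in 𝓝 ((0 : ℂ), t₀), χ₁.σ p ∈ χ₂.U :=
    hσ.continuousAt.eventually (χ₂.isOpen_U.mem_nhds hU)
  have e2 : ∀ᶠ p in 𝓝 ((0 : ℂ), t₀), ‖χ₂.q (χ₁.σ p)‖ < 1 / 2 :=
    hτc.norm.eventually (Iio_mem_nhds hq)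
  have e3 : ∀ᶠ p in 𝓝 ((0 : ℂ), t₀), nd₂ = true → C⁻¹ ≤ ‖(χ₂.q (χ₁.σ p)).2‖ := by
    by_cases hn : nd₂ = true
    · have ha0 : 0 < a := norm_pos_iff.2 (hnd hn)
      have hc2 : ContinuousAt (fun y => ‖(χ₂.q (χ₁.σ y)).2‖) (0, t₀) := hτc.snd.norm
      have h1 : ∀ᶠ p in 𝓝 ((0 : ℂ), t₀), a / 2 < ‖(χ₂.q (χ₁.σ p)).2‖ :=
        hc2.eventually (Ioi_mem_nhds (show a / 2 < ‖(χ₂.q (χ₁.σ (0, t₀))).2‖ by rw [← ha]; linarith))
      filter_upwards [h1] with p hp _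
      have h2 : C⁻¹ ≤ (2 / a)⁻¹ := inv_anti₀ (by positivity) hC2
      rw [inv_div] at h2
      exact h2.trans hp.le
    · exact Filter.Eventually.of_forall fun p h => absurd h hn
  refine ⟨C, hC₁.trans hC1, ?_⟩
  filter_upwards [e1, e2, e3, hTE] with p h1 h2 h3 h4
  exact ⟨h1, h2, TE.mono hC₁ hC1 h4, h3⟩

private theorem TECompact_local (hX : IsCone X) (hT : ∀ x ∈ T, ∀ c : ℂ, c ≠ 0 → c • x ∈ T)
    (χ₁ χ₂ : Chart X) {nd₁ nd₂ : Bool} (h₁ : HasType T χ₁ nd₁) (h₂ : HasType T χ₂ nd₂) {t₀ : ℂ}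
    (ht₀ : ‖t₀‖ = 1) (hU : χ₁.σ (0, t₀) ∈ χ₂.U) (hq : ‖χ₂.q (χ₁.σ (0, t₀))‖ < 1 / 2) :
    ∃ b' : Bool, (b' = true → nd₂ = true) ∧ ∃ C : ℝ, 1 ≤ C ∧
      ∀ᶠ p in 𝓝 ((0 : ℂ), t₀), Transition C χ₁ (χ₂.orient b') nd₂ p := by
  have hp : ((0 : ℂ), t₀) ∈ ball (0 : ℂ × ℂ) 2 := by
    rw [mem_ball_zero_iff, Prod.norm_def]
    simp only [norm_zero, ht₀]
    norm_num
  have hσ : AnalyticAt ℂ χ₁.σ (0, t₀) := χ₁.σ_an _ hp
  have hτ : AnalyticAt ℂ (fun y => χ₂.q (χ₁.σ y)) (0, t₀) := (χ₂.q_an _ hU).comp hσ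
  have hτc : ContinuousAt (fun y => χ₂.q (χ₁.σ y)) (0, t₀) := hτ.continuousAt
  have hpt : Tendsto (fun t : ℂ => ((0 : ℂ), t)) (𝓝 t₀) (𝓝 ((0 : ℂ), t₀)) := by
    have hc : Continuous fun t : ℂ => ((0 : ℂ), t) := by fun_prop
    exact hc.tendsto t₀
  have eB : ∀ᶠ t in 𝓝 t₀, ((0 : ℂ), t) ∈ ball (0 : ℂ × ℂ) 2 :=
    hpt.eventually (isOpen_ball.mem_nhds hp)
  have eU : ∀ᶠ t in 𝓝 t₀, χ₁.σ ((0 : ℂ), t) ∈ χ₂.U :=
    hpt.eventually (hσ.continuousAt.eventually (χ₂.isOpen_U.mem_nhds hU))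
  have hkey : ∀ᶠ t in 𝓝 t₀, (χ₂.q (χ₁.σ (0, t))).1 = 0 ∨
      (nd₂ = true ∧ (χ₂.q (χ₁.σ (0, t))).2 = 0) := by
    filter_upwards [eB, eU] with t ht1 ht2
    have hxX := (χ₁.σ_mem _ ht1).1
    have hxT : χ₁.σ (0, t) ∈ T := (h₁ _ ht1).2 (Or.inl rfl)
    have h3 := (χ₂.sigma_mem_iff hxX ht2 hT).2 hxT
    exact (h₂ _ (χ₂.surj _ hxX ht2).1).1 h3
  have eF : χ₂.orient false = χ₂ := by simp [Chart.orient]
  have eT : χ₂.orient true = χ₂.swap := by simp [Chart.orient]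
  have ht0 : t₀ ≠ 0 := by
    rintro rfl
    norm_num at ht₀
  by_cases hn : nd₂ = true
  · by_cases h2 : (χ₂.q (χ₁.σ (0, t₀))).2 = 0
    · have h1 : (χ₂.q (χ₁.σ (0, t₀))).1 ≠ 0 := by
        intro h1
        have hnn := not_node hX hT χ₁ χ₂ h₁ (hn ▸ h₂) (t₀ := t₀) (by rw [ht₀]; norm_num)
          (fun _ => ht0) hU
        exact hnn (Prod.ext h1 h2)
      refine ⟨true, fun _ => hn, ?_⟩
      rw [eT]
      have hne : ∀ᶠ t in 𝓝 t₀, (χ₂.q (χ₁.σ (0, t))).1 ≠ 0 :=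
        hpt.eventually (hτc.fst.eventually_ne h1)
      refine TECompact_aux hX χ₁ χ₂.swap ht₀ hU ?_ ?_ nd₂ (fun _ => h1)
      · have hsw : ‖(χ₂.q (χ₁.σ (0, t₀))).swap‖ = ‖χ₂.q (χ₁.σ (0, t₀))‖ := by
          rw [Prod.norm_def, Prod.norm_def, max_comm]
          rfl
        show ‖(χ₂.q (χ₁.σ (0, t₀))).swap‖ < 1 / 2
        rw [hsw]
        exact hq
      · filter_upwards [hkey, hne] with t ht1 ht2
        rcases ht1 with ht1 | ht1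
        · exact absurd ht1 ht2
        · exact ht1.2
    · refine ⟨false, fun h => absurd h (by decide), ?_⟩
      rw [eF]
      have hne : ∀ᶠ t in 𝓝 t₀, (χ₂.q (χ₁.σ (0, t))).2 ≠ 0 :=
        hpt.eventually (hτc.snd.eventually_ne h2)
      refine TECompact_aux hX χ₁ χ₂ ht₀ hU hq ?_ nd₂ (fun _ => h2)
      filter_upwards [hkey, hne] with t ht1 ht2
      rcases ht1 with ht1 | ht1
      · exact ht1
      · exact absurd ht1.2 ht2
  · refine ⟨false, fun h => absurd h (by decide), ?_⟩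
    rw [eF]
    refine TECompact_aux hX χ₁ χ₂ ht₀ hU hq ?_ nd₂ (fun h => absurd h hn)
    filter_upwards [hkey] with t ht1
    rcases ht1 with ht1 | ht1
    · exact ht1
    · exact absurd ht1.1 hn

private theorem TECompact_one (hX : IsCone X) (hT : ∀ x ∈ T, ∀ c : ℂ, c ≠ 0 → c • x ∈ T) {n : ℕ}
    (χ : Fin n → Chart X) (nd : Fin n → Bool) (h : ∀ i, HasType T (χ i) (nd i))
    (hcov : ∀ x ∈ T, ∃ i, x ∈ (χ i).U ∧ ‖(χ i).q x‖ < 1 / 2) (i : Fin n) (b : Bool)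
    (hb : b = true → nd i = true) :
    ∃ C r : ℝ, 1 ≤ C ∧ 0 < r ∧ ∀ p : ℂ × ℂ, ‖p.2‖ = 1 → ‖p.1‖ ≤ r →
        ∃ (k : Fin n) (b' : Bool), (b' = true → nd k = true) ∧
          Transition C ((χ i).orient b) ((χ k).orient b') (nd k) p := by
  have h₁ := hasType_orient (h i) hb
  set G : ℝ → ℂ × ℂ → Prop := fun C p => ∃ (k : Fin n) (b' : Bool), (b' = true → nd k = true) ∧
    Transition C ((χ i).orient b) ((χ k).orient b') (nd k) p with hG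
  have hmonoG : ∀ C C' : ℝ, 1 ≤ C → C ≤ C' → ∀ p, G C p → G C' p := by
    rintro C C' hC hCC p ⟨k, b', hb', hk⟩
    exact ⟨k, b', hb', hk.mono hC hCC⟩
  set S : Set (ℂ × ℂ) := ({0} : Set ℂ) ×ˢ sphere (0 : ℂ) 1 with hS
  have hSc : IsCompact S := isCompact_singleton.prod (isCompact_sphere _ _)
  have hloc : ∀ x ∈ S, ∃ C : ℝ, 1 ≤ C ∧ ∀ᶠ p in 𝓝 x, G C p := by
    rintro ⟨s, t₀⟩ ⟨hs, ht⟩
    have hs' : s = 0 := hs
    subst hs'
    have ht₀ : ‖t₀‖ = 1 := by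
      have h3 : t₀ ∈ sphere (0 : ℂ) 1 := ht
      rwa [mem_sphere_zero_iff_norm] at h3
    have hp : ((0 : ℂ), t₀) ∈ ball (0 : ℂ × ℂ) 2 := by
      rw [mem_ball_zero_iff, Prod.norm_def]
      simp only [norm_zero, ht₀]
      norm_num
    obtain ⟨k, hk1, hk2⟩ := hcov _ ((h₁ _ hp).2 (Or.inl rfl))
    obtain ⟨b', hb', C, hC, hev⟩ := TECompact_local hX hT _ _ h₁ (h k) ht₀ hk1 hk2
    exact ⟨C, hC, hev.mono fun p hp => ⟨k, b', hb', hp⟩⟩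
  have hmain : ∃ C : ℝ, 1 ≤ C ∧ ∀ᶠ p in 𝓝ˢ S, G C p := by
    refine hSc.induction_on (p := fun s => ∃ C : ℝ, 1 ≤ C ∧ ∀ᶠ p in 𝓝ˢ s, G C p) ?_ ?_ ?_ ?_
    · exact ⟨1, le_rfl, by simp⟩
    · rintro s t hst ⟨C, hC, hev⟩
      exact ⟨C, hC, hev.filter_mono (nhdsSet_mono hst)⟩
    · rintro s t ⟨C, hC, hev⟩ ⟨C', hC', hev'⟩
      refine ⟨max C C', hC.trans (le_max_left _ _), ?_⟩
      rw [nhdsSet_union, eventually_sup]
      exact ⟨hev.mono fun p hp => hmonoG _ _ hC (le_max_left _ _) p hp,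
        hev'.mono fun p hp => hmonoG _ _ hC' (le_max_right _ _) p hp⟩
    · intro x hx
      obtain ⟨C, hC, hev⟩ := hloc x hx
      obtain ⟨O, hO1, hO2, hO3⟩ := _root_.eventually_nhds_iff.1 hev
      refine ⟨O, mem_nhdsWithin_of_mem_nhds (hO2.mem_nhds hO3), C, hC, ?_⟩
      rw [hO2.nhdsSet_eq]
      exact eventually_principal.2 hO1
  obtain ⟨C, hC, hev⟩ := hmain
  obtain ⟨O, hO1, hO2, hO3⟩ := mem_nhdsSet_iff_exists.1 hev
  obtain ⟨δ, hδ, hδO⟩ := hSc.exists_thickening_subset_open hO1 hO2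
  refine ⟨C, δ / 2, hC, by positivity, fun p hp1 hp2 => ?_⟩
  have hpO : p ∈ O := by
    refine hδO ?_
    rw [mem_thickening_iff]
    refine ⟨(0, p.2), ⟨rfl, by rw [mem_sphere_zero_iff_norm]; exact hp1⟩, ?_⟩
    rw [Prod.dist_eq]
    simp only [dist_self, dist_zero_right]
    rw [max_lt_iff]
    exact ⟨by linarith, hδ⟩
  exact hO3 hpO

theorem exists_transition (hX : IsCone X) (hT : ∀ x ∈ T, ∀ c : ℂ, c ≠ 0 → c • x ∈ T) {n : ℕ}
    (χ : Fin n → Chart X) (nd : Fin n → Bool) (h : ∀ i, HasType T (χ i) (nd i))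
    (hcov : ∀ x ∈ T, ∃ i, x ∈ (χ i).U ∧ ‖(χ i).q x‖ < 1 / 2) :
    ∃ C r : ℝ, 1 ≤ C ∧ 0 < r ∧ ∀ (i : Fin n) (b : Bool), (b = true → nd i = true) →
      ∀ p : ℂ × ℂ, ‖p.2‖ = 1 → ‖p.1‖ ≤ r →
        ∃ (k : Fin n) (b' : Bool), (b' = true → nd k = true) ∧
          Transition C ((χ i).orient b) ((χ k).orient b') (nd k) p := by
  have hone : ∀ ib : Fin n × Bool, ∃ C r : ℝ, 1 ≤ C ∧ 0 < r ∧ ((ib.2 = true → nd ib.1 = true) →
      ∀ p : ℂ × ℂ, ‖p.2‖ = 1 → ‖p.1‖ ≤ r →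
        ∃ (k : Fin n) (b' : Bool), (b' = true → nd k = true) ∧
          Transition C ((χ ib.1).orient ib.2) ((χ k).orient b') (nd k) p) := by
    rintro ⟨i, b⟩
    by_cases hb : b = true → nd i = true
    · obtain ⟨C, r, hC, hr, hall⟩ := TECompact_one hX hT χ nd h hcov i b hb
      exact ⟨C, r, hC, hr, fun _ => hall⟩
    · exact ⟨1, 1, le_rfl, one_pos, fun hb' => absurd hb' hb⟩
  choose C r hC hr hall using hone
  obtain ⟨M, hM⟩ := Finite.exists_le C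
  obtain ⟨M', hM'⟩ := Finite.exists_le fun ib => (r ib)⁻¹
  refine ⟨max M 1, (max M' 1)⁻¹, le_max_right _ _, by positivity, fun i b hb p hp1 hp2 => ?_⟩
  have hr' : (max M' 1)⁻¹ ≤ r (i, b) := by
    rw [inv_le_comm₀ (by positivity) (hr _)]
    exact (hM' (i, b)).trans (le_max_left _ _)
  obtain ⟨k, b', hb', hk⟩ := hall (i, b) hb p hp1 (hp2.trans hr')
  exact ⟨k, b', hb', hk.mono (hC _) ((hM (i, b)).trans (le_max_left _ _))⟩

end Pool.Agent.H14.PP
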