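import Pool.Agent.H14.PP.Defs

/-!
# BPm TELocal: local estimates for a change of charts near a smooth point of `T`

`τ = (u, w)` is analytic at `p₀ = (0, t₀)`, `u (0,t) = 0` for `t` near `t₀`, and the Jacobian
determinant at `p₀` is not zero. Let `l = ∂_s u`, `b = ∂_t u`, `c = ∂_s w`, `m = ∂_t w` (continuous
near `p₀`, and Lipschitz near `p₀` because `fderiv ℂ τ` is analytic: `AnalyticAt.fderiv`,
`ContDiffAt.exists_lipschitzOnWith`).
* `b (0,t) = 0` for `t` near `t₀`, so `‖b (s,t)‖ ≤ A ‖s‖` (Lipschitz).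
* `jac = l m - b c`, at `p₀` it is `l m ≠ 0`; so `‖l‖, ‖m‖` are between two positive constants
  near `p₀`; `‖c‖` is bounded.
* `‖u (s,t) - l (s,t) s‖ ≤ A ‖s‖^2`: for fixed `(s,t)` the function
  `θ ↦ u (θ s, t) - θ s l (s,t)`, `θ ∈ [0,1]`, has derivative `s (l (θ s, t) - l (s,t))`, of norm
  `≤ A ‖s‖^2`, and vanishes at `0`. So `|‖u‖ - ‖l‖‖s‖| ≤ A ‖s‖^2`.
-/

open Topology Filter Metric

namespace Pool.Agent.H14.PP

/-- two-sided bounds near a point -/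
private theorem TELocal_bd {f : ℂ × ℂ → ℂ} {p : ℂ × ℂ} (hf : ContinuousAt f p) (h : f p ≠ 0) :
    ∀ᶠ q in 𝓝 p, ‖f p‖ / 2 ≤ ‖f q‖ ∧ ‖f q‖ ≤ ‖f p‖ + 1 := by
  have hp : 0 < ‖f p‖ := norm_pos_iff.2 h
  have h1 := hf.norm.eventually (lt_mem_nhds (show ‖f p‖ / 2 < ‖f p‖ by linarith))
  have h2 := hf.norm.eventually (gt_mem_nhds (show ‖f p‖ < ‖f p‖ + 1 by linarith))
  filter_upwards [h1, h2] with q a b
  exact ⟨a.le, b.le⟩

theorem TE_local {τ : ℂ × ℂ → ℂ × ℂ} {t₀ : ℂ} (hτ : AnalyticAt ℂ τ (0, t₀))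
    (hJ : jac τ (0, t₀) ≠ 0) (h0 : ∀ᶠ t in 𝓝 t₀, (τ (0, t)).1 = 0) :
    ∃ C : ℝ, 1 ≤ C ∧ ∀ᶠ p in 𝓝 ((0 : ℂ), t₀), TEmap C τ p := by
  have hD : AnalyticAt ℂ (fderiv ℂ τ) (0, t₀) := hτ.fderiv
  have hD1 : ContDiffAt ℂ 1 (fderiv ℂ τ) (0, t₀) := hD.contDiffAt
  obtain ⟨K, V, hV, hL⟩ := hD1.exists_lipschitzOnWith
  have hV' : ∀ᶠ p in 𝓝 ((0 : ℂ), t₀), p ∈ V := hV
  obtain ⟨r1, hr1, hB1⟩ := Metric.eventually_nhds_iff_ball.1 (hτ.eventually_analyticAt.and hV')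
  obtain ⟨r2, hr2, hB2⟩ := Metric.eventually_nhds_iff_ball.1 h0
  have hlip : ∀ p ∈ ball ((0 : ℂ), t₀) r1, ∀ q ∈ ball ((0 : ℂ), t₀) r1,
      ‖fderiv ℂ τ p - fderiv ℂ τ q‖ ≤ K * ‖p - q‖ := by
    intro p hp q hq
    have h1 := hL.dist_le_mul p (hB1 p hp).2 q (hB1 q hq).2
    rwa [dist_eq_norm, dist_eq_norm] at h1
  have hfst : ∀ (A B : ℂ × ℂ →L[ℂ] ℂ × ℂ) (v : ℂ × ℂ), ‖v‖ ≤ 1 → ‖(A v).1 - (B v).1‖ ≤ ‖A - B‖ := by
    intro A B v hv
    have h1 : (A v).1 - (B v).1 = ((A - B) v).1 := by simp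
    rw [h1]
    refine (norm_fst_le _).trans ?_
    refine ((A - B).le_opNorm v).trans ?_
    exact mul_le_of_le_one_right (norm_nonneg _) hv
  have hv1 : ‖((1 : ℂ), (0 : ℂ))‖ ≤ 1 := by simp [Prod.norm_def]
  have hv2 : ‖((0 : ℂ), (1 : ℂ))‖ ≤ 1 := by simp [Prod.norm_def]
  -- the derivative of the first component vanishes on the curve
  have hb0 : ∀ t ∈ ball t₀ (min r1 r2), (fderiv ℂ τ (0, t) (0, 1)).1 = 0 := by
    intro t ht
    have ht1 : dist t t₀ < r1 := lt_of_lt_of_le ht (min_le_left _ _)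
    have ht2 : t ∈ ball t₀ r2 := lt_of_lt_of_le (show dist t t₀ < min r1 r2 from ht) (min_le_right _ _)
    have hp : ((0 : ℂ), t) ∈ ball ((0 : ℂ), t₀) r1 := by
      rw [mem_ball, Prod.dist_eq]
      simp only [dist_self]
      exact max_lt hr1 ht1
    have h1 : HasFDerivAt τ (fderiv ℂ τ (0, t)) (0, t) := (hB1 _ hp).1.differentiableAt.hasFDerivAt
    have h2 : HasDerivAt (fun y : ℂ => ((0 : ℂ), y)) ((0 : ℂ), (1 : ℂ)) t :=
      (hasDerivAt_const t (0 : ℂ)).prodMk (hasDerivAt_id t)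
    have h3 : HasDerivAt (fun y : ℂ => τ (0, y)) (fderiv ℂ τ (0, t) (0, 1)) t :=
      h1.comp_hasDerivAt t h2
    have h4 : HasDerivAt (fun y : ℂ => (τ (0, y)).1) (fderiv ℂ τ (0, t) (0, 1)).1 t :=
      (ContinuousLinearMap.fst ℂ ℂ ℂ).hasFDerivAt.comp_hasDerivAt t h3
    have h5 : HasDerivAt (fun y : ℂ => (τ (0, y)).1) 0 t := by
      refine (hasDerivAt_const t (0 : ℂ)).congr_of_eventuallyEq ?_
      filter_upwards [isOpen_ball.mem_nhds ht2] with y hy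
      exact hB2 y hy
    exact h4.unique h5
  -- continuity
  have hcl : ContinuousAt (fun p => (fderiv ℂ τ p (1, 0)).1) ((0 : ℂ), t₀) :=
    (hD.continuousAt.clm_apply continuousAt_const).fst
  have hcc : ContinuousAt (fun p => (fderiv ℂ τ p (1, 0)).2) ((0 : ℂ), t₀) :=
    (hD.continuousAt.clm_apply continuousAt_const).snd
  have hcm : ContinuousAt (fun p => (fderiv ℂ τ p (0, 1)).2) ((0 : ℂ), t₀) :=
    (hD.continuousAt.clm_apply continuousAt_const).snd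
  have hb00 := hb0 t₀ (mem_ball_self (lt_min hr1 hr2))
  have hlm : (fderiv ℂ τ (0, t₀) (1, 0)).1 * (fderiv ℂ τ (0, t₀) (0, 1)).2 ≠ 0 := by
    intro h
    apply hJ
    unfold jac
    rw [h, hb00]
    ring
  have hl0 := left_ne_zero_of_mul hlm
  have hm0 := right_ne_zero_of_mul hlm
  have hlp : 0 < ‖(fderiv ℂ τ (0, t₀) (1, 0)).1‖ := norm_pos_iff.2 hl0
  have hmp : 0 < ‖(fderiv ℂ τ (0, t₀) (0, 1)).2‖ := norm_pos_iff.2 hm0
  obtain ⟨L, hLd⟩ : ∃ L : ℝ, L = ‖(fderiv ℂ τ (0, t₀) (1, 0)).1‖ := ⟨_, rfl⟩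
  obtain ⟨M, hMd⟩ : ∃ M : ℝ, M = ‖(fderiv ℂ τ (0, t₀) (0, 1)).2‖ := ⟨_, rfl⟩
  obtain ⟨c0, hcd⟩ : ∃ c0 : ℝ, c0 = ‖(fderiv ℂ τ (0, t₀) (1, 0)).2‖ := ⟨_, rfl⟩
  have hc00 : 0 ≤ c0 := by
    rw [hcd]
    exact norm_nonneg _
  have hLp : 0 < L := by
    rw [hLd]
    exact hlp
  have hMp : 0 < M := by
    rw [hMd]
    exact hmp
  have hc1 : ∀ᶠ p in 𝓝 ((0 : ℂ), t₀), ‖(fderiv ℂ τ p (1, 0)).2‖ < c0 + 1 := by
    refine hcc.norm.eventually (gt_mem_nhds ?_)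
    rw [hcd]
    linarith
  have hK0 : (0 : ℝ) ≤ K := K.2
  have h2L : 0 < 2 / L := by positivity
  have h2M : 0 < 2 / M := by positivity
  refine ⟨1 + 2 * K + (c0 + 1) + (L + 1) + (M + 1) + 2 / L + 2 / M, by linarith, ?_⟩
  obtain ⟨C, hC⟩ : ∃ C : ℝ, C = 1 + 2 * K + (c0 + 1) + (L + 1) + (M + 1) + 2 / L + 2 / M := ⟨_, rfl⟩
  rw [← hC]
  have hCp : 0 < C := by linarith
  have hinv : ∀ x : ℝ, 0 < x → 2 / x ≤ C → C⁻¹ ≤ x / 2 := by
    intro x hx h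
    rw [inv_le_comm₀ hCp (by positivity), inv_div]
    exact h
  have hCL : C⁻¹ ≤ L / 2 := hinv L hLp (by linarith)
  have hCM : C⁻¹ ≤ M / 2 := hinv M hMp (by linarith)
  have hbl := TELocal_bd hcl hl0
  have hbm := TELocal_bd hcm hm0
  simp only [← hLd] at hbl
  simp only [← hMd] at hbm
  have hball : ∀ᶠ p in 𝓝 ((0 : ℂ), t₀), p ∈ ball ((0 : ℂ), t₀) (min r1 r2) :=
    isOpen_ball.mem_nhds (mem_ball_self (lt_min hr1 hr2))
  filter_upwards [hbl, hbm, hc1, hball] with p a1 a2 a3 hp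
  obtain ⟨s, t⟩ := p
  rw [mem_ball, Prod.dist_eq, max_lt_iff] at hp
  obtain ⟨hs, ht⟩ := hp
  simp only at hs ht
  have hs' : ‖s‖ < r1 := by
    have := lt_of_lt_of_le hs (min_le_left _ _)
    rwa [dist_zero_right] at this
  have ht' : dist t t₀ < r1 := lt_of_lt_of_le ht (min_le_left _ _)
  have hin : ∀ z : ℂ, ‖z‖ ≤ ‖s‖ → (z, t) ∈ ball ((0 : ℂ), t₀) r1 := by
    intro z hz
    rw [mem_ball, Prod.dist_eq]
    refine max_lt ?_ ht'
    rw [dist_zero_right]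
    exact lt_of_le_of_lt hz hs'
  unfold TEmap TE
  refine ⟨?_, by linarith, ?_, hCL.trans a1.1, by linarith [a1.2], hCM.trans a2.1, by linarith [a2.2]⟩
  · have h1 := hfst (fderiv ℂ τ (s, t)) (fderiv ℂ τ (0, t)) (0, 1) hv2
    rw [hb0 t ht, sub_zero] at h1
    have h2 := hlip (s, t) (hin s le_rfl) (0, t) (hin 0 (by simp))
    have h3 : ‖((s, t) : ℂ × ℂ) - (0, t)‖ = ‖s‖ := by simp [Prod.norm_def]
    rw [h3] at h2
    refine h1.trans (h2.trans ?_)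
    exact mul_le_mul_of_nonneg_right (by linarith) (norm_nonneg _)
  · have hmv : ‖((τ (s, t)).1 - s * (fderiv ℂ τ (s, t) (1, 0)).1) -
        ((τ (0, t)).1 - 0 * (fderiv ℂ τ (s, t) (1, 0)).1)‖ ≤ 2 * K * ‖s‖ * ‖s - 0‖ := by
      refine Convex.norm_image_sub_le_of_norm_hasDerivWithin_le
        (f := fun z : ℂ => (τ (z, t)).1 - z * (fderiv ℂ τ (s, t) (1, 0)).1)
        (f' := fun z : ℂ => (fderiv ℂ τ (z, t) (1, 0)).1 - 1 * (fderiv ℂ τ (s, t) (1, 0)).1)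
        (s := closedBall (0 : ℂ) ‖s‖) ?_ ?_ (convex_closedBall _ _) (by simp) (by simp)
      · intro z hz
        rw [mem_closedBall, dist_zero_right] at hz
        have h1 : HasFDerivAt τ (fderiv ℂ τ (z, t)) (z, t) :=
          (hB1 _ (hin z hz)).1.differentiableAt.hasFDerivAt
        have h2 : HasDerivAt (fun y : ℂ => (y, t)) ((1 : ℂ), (0 : ℂ)) z :=
          (hasDerivAt_id z).prodMk (hasDerivAt_const z t)
        have h3 : HasDerivAt (fun y : ℂ => τ (y, t)) (fderiv ℂ τ (z, t) (1, 0)) z :=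
          h1.comp_hasDerivAt z h2
        have h4 : HasDerivAt (fun y : ℂ => (τ (y, t)).1) (fderiv ℂ τ (z, t) (1, 0)).1 z :=
          (ContinuousLinearMap.fst ℂ ℂ ℂ).hasFDerivAt.comp_hasDerivAt z h3
        exact (h4.sub ((hasDerivAt_id z).mul_const _)).hasDerivWithinAt
      · intro z hz
        rw [mem_closedBall, dist_zero_right] at hz
        rw [one_mul]
        refine (hfst _ _ _ hv1).trans ?_
        refine (hlip (z, t) (hin z hz) (s, t) (hin s le_rfl)).trans ?_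
        have h3 : ‖((z, t) : ℂ × ℂ) - (s, t)‖ = ‖z - s‖ := by simp [Prod.norm_def]
        rw [h3]
        have h4 : ‖z - s‖ ≤ 2 * ‖s‖ := (norm_sub_le _ _).trans (by linarith)
        calc (K : ℝ) * ‖z - s‖ ≤ K * (2 * ‖s‖) := mul_le_mul_of_nonneg_left h4 hK0
          _ = 2 * K * ‖s‖ := by ring
    have h0t : (τ (0, t)).1 = 0 := hB2 t (lt_of_lt_of_le ht (min_le_right _ _))
    rw [h0t, zero_mul, sub_zero, sub_zero, sub_zero] at hmv
    have h5 : |‖(τ (s, t)).1‖ - ‖(fderiv ℂ τ (s, t) (1, 0)).1‖ * ‖s‖| ≤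
        ‖(τ (s, t)).1 - s * (fderiv ℂ τ (s, t) (1, 0)).1‖ := by
      have h6 := abs_norm_sub_norm_le (τ (s, t)).1 (s * (fderiv ℂ τ (s, t) (1, 0)).1)
      rwa [norm_mul, mul_comm ‖s‖] at h6
    refine h5.trans (hmv.trans ?_)
    rw [mul_assoc, ← pow_two]
    exact mul_le_mul_of_nonneg_right (by linarith) (by positivity)

theorem TE.mono {C C' : ℝ} (hC : 1 ≤ C) (h : C ≤ C') {s u l b c m : ℂ} (hT : TE C s u l b c m) :
    TE C' s u l b c m := by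
  obtain ⟨h1, h2, h3, h4, h5, h6, h7⟩ := hT
  have hC0 : 0 < C := by linarith
  have hi : C'⁻¹ ≤ C⁻¹ := inv_anti₀ hC0 h
  refine ⟨h1.trans (mul_le_mul_of_nonneg_right h (norm_nonneg _)), h2.trans h,
    h3.trans (mul_le_mul_of_nonneg_right h (by positivity)), hi.trans h4, h5.trans h, hi.trans h6, h7.trans h⟩

end Pool.Agent.H14.PP
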